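import Mathlib

/-!
# Context-free grammars: tree-like derivations, invariants

Helper file for `MP_f868b6_lc`.
-/

set_option autoImplicit false

namespace Pool.Agent.H86.GF

/-- Tree-like derivations, with the number of applications of rules. -/
inductive Der {T : Type*} (g : ContextFreeGrammar T) :
    ℕ → List (Symbol T g.NT) → List (Symbol T g.NT) → Prop
  | nil : Der g 0 [] []
  | keep (s : Symbol T g.NT) {n : ℕ} {u v : List (Symbol T g.NT)} :
      Der g n u v → Der g n (s :: u) (s :: v)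
  | expand {n1 n2 : ℕ} {r : ContextFreeRule T g.NT} {u v1 v2 : List (Symbol T g.NT)} :
      r ∈ g.rules → Der g n1 r.output v1 → Der g n2 u v2 →
      Der g (n1 + n2 + 1) (Symbol.nonterminal r.input :: u) (v1 ++ v2)

namespace Der

variable {T : Type*} {g : ContextFreeGrammar T}

theorem rfl' (u : List (Symbol T g.NT)) : Der g 0 u u := by
  induction u with
  | nil => exact Der.nil
  | cons s u ih => exact Der.keep s ih

theorem append {n1 n2 : ℕ} {u1 v1 u2 v2 : List (Symbol T g.NT)}
    (h1 : Der g n1 u1 v1) (h2 : Der g n2 u2 v2) : Der g (n1 + n2) (u1 ++ u2) (v1 ++ v2) := by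
  induction h1 with
  | nil => simpa using h2
  | keep s h ih => exact Der.keep s ih
  | @expand m1 m2 r u w1 w2 hr ha hb iha ihb =>
    have := Der.expand hr ha ihb
    rw [List.append_assoc, List.cons_append]
    convert this using 1
    omega

theorem split {u1 : List (Symbol T g.NT)} : ∀ {n : ℕ} {u2 v : List (Symbol T g.NT)},
    Der g n (u1 ++ u2) v → ∃ n1 n2 v1 v2, n = n1 + n2 ∧ v = v1 ++ v2 ∧ Der g n1 u1 v1 ∧
      Der g n2 u2 v2 := by
  induction u1 with
  | nil =>
    intro n u2 v h
    exact ⟨0, n, [], v, by omega, rfl, Der.nil, h⟩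
  | cons s u1 ih =>
    intro n u2 v h
    rw [List.cons_append] at h
    cases h with
    | keep s h =>
      obtain ⟨n1, n2, v1, v2, rfl, rfl, h1, h2⟩ := ih h
      exact ⟨n1, n2, s :: v1, v2, rfl, rfl, Der.keep s h1, h2⟩
    | @expand m1 m2 r u w1 w2 hr ha hb =>
      obtain ⟨n1, n2, v1, v2, rfl, rfl, h1, h2⟩ := ih hb
      exact ⟨m1 + n1 + 1, n2, w1 ++ v1, v2, by omega, by simp, Der.expand hr ha h1, h2⟩

theorem trans' {n : ℕ} {u v : List (Symbol T g.NT)} (h : Der g n u v) :
    ∀ {m : ℕ} {w : List (Symbol T g.NT)}, Der g m v w → ∃ k, Der g k u w := by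
  induction h with
  | nil =>
    intro m w h
    cases h
    exact ⟨0, Der.nil⟩
  | keep s h ih =>
    intro m w h
    cases h with
    | keep _ h =>
      obtain ⟨k, hk⟩ := ih h
      exact ⟨k, Der.keep s hk⟩
    | expand hr ha hb =>
      obtain ⟨k, hk⟩ := ih hb
      exact ⟨_, Der.expand hr ha hk⟩
  | expand hr ha hb iha ihb =>
    intro m w h
    obtain ⟨m1, m2, w1, w2, rfl, rfl, h1, h2⟩ := h.split
    obtain ⟨k1, hk1⟩ := iha h1
    obtain ⟨k2, hk2⟩ := ihb h2
    exact ⟨_, Der.expand hr hk1 hk2⟩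

theorem derives {n : ℕ} {u v : List (Symbol T g.NT)} (h : Der g n u v) : g.Derives u v := by
  induction h with
  | nil => exact Relation.ReflTransGen.refl
  | keep s h ih => exact ih.append_left [s]
  | @expand m1 m2 r u w1 w2 hr ha hb iha ihb =>
    have h1 : g.Produces (Symbol.nonterminal r.input :: u) (r.output ++ u) :=
      ⟨r, hr, ContextFreeRule.Rewrites.head u⟩
    have h2 : g.Derives (r.output ++ u) (w1 ++ u) := iha.append_right u
    have h3 : g.Derives (w1 ++ u) (w1 ++ w2) := ihb.append_left w1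
    exact (Relation.ReflTransGen.single h1).trans (h2.trans h3)

theorem of_produces {u v : List (Symbol T g.NT)} (h : g.Produces u v) : ∃ n, Der g n u v := by
  obtain ⟨r, hr, hrw⟩ := h
  obtain ⟨p, q, rfl, rfl⟩ := hrw.exists_parts
  have h1 : Der g (0 + 0 + 1) (Symbol.nonterminal r.input :: q) (r.output ++ q) :=
    Der.expand hr (Der.rfl' _) (Der.rfl' _)
  have h2 := (Der.rfl' p).append h1
  refine ⟨0 + (0 + 0 + 1), ?_⟩
  simpa using h2

theorem of_derives {u v : List (Symbol T g.NT)} (h : g.Derives u v) : ∃ n, Der g n u v := by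
  induction h with
  | refl => exact ⟨0, Der.rfl' _⟩
  | tail _ h ih =>
    obtain ⟨n, hn⟩ := ih
    obtain ⟨m, hm⟩ := of_produces h
    exact hn.trans' hm

theorem terminals {n : ℕ} {w : List T} {v : List (Symbol T g.NT)}
    (h : Der g n (w.map Symbol.terminal) v) : v = w.map Symbol.terminal := by
  induction w generalizing n v with
  | nil => cases h; rfl
  | cons x w ih =>
    rw [List.map_cons] at h
    cases h with
    | keep _ h => rw [ih h, List.map_cons]

end Der

theorem derives_iff_der {T : Type*} {g : ContextFreeGrammar T} {u v : List (Symbol T g.NT)} :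
    g.Derives u v ↔ ∃ n, Der g n u v :=
  ⟨Der.of_derives, fun ⟨_, h⟩ => h.derives⟩

/-- Splitting of derivations. -/
theorem derives_append {T : Type*} {g : ContextFreeGrammar T} {u1 u2 v : List (Symbol T g.NT)}
    (h : g.Derives (u1 ++ u2) v) :
    ∃ v1 v2, v = v1 ++ v2 ∧ g.Derives u1 v1 ∧ g.Derives u2 v2 := by
  obtain ⟨n, hn⟩ := Der.of_derives h
  obtain ⟨n1, n2, v1, v2, _, rfl, h1, h2⟩ := hn.split
  exact ⟨v1, v2, rfl, h1.derives, h2.derives⟩

theorem derives_append' {T : Type*} {g : ContextFreeGrammar T} {u1 u2 v1 v2 : List (Symbol T g.NT)}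
    (h1 : g.Derives u1 v1) (h2 : g.Derives u2 v2) : g.Derives (u1 ++ u2) (v1 ++ v2) :=
  (h1.append_right u2).trans (h2.append_left v1)

/-- The language of a string, if every nonterminal `B` stands for the language `I B`. -/
def Lang {T N : Type*} (I : N → Set (List T)) : List (Symbol T N) → Set (List T)
  | [] => {[]}
  | (Symbol.terminal a :: β) => {w | ∃ v ∈ Lang I β, w = a :: v}
  | (Symbol.nonterminal B :: β) => {w | ∃ u ∈ I B, ∃ v ∈ Lang I β, w = u ++ v}

theorem lang_append {T N : Type*} {I : N → Set (List T)} (α β : List (Symbol T N)) (w : List T) :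
    w ∈ Lang I (α ++ β) ↔ ∃ u ∈ Lang I α, ∃ v ∈ Lang I β, w = u ++ v := by
  induction α generalizing w with
  | nil => simp [Lang]
  | cons s α ih =>
    cases s with
    | terminal a =>
      simp only [List.cons_append, Lang, Set.mem_ofPred_eq, ih]
      constructor
      · rintro ⟨v, ⟨u1, hu1, u2, hu2, rfl⟩, rfl⟩
        exact ⟨a :: u1, ⟨u1, hu1, rfl⟩, u2, hu2, rfl⟩
      · rintro ⟨u, ⟨v, hv, rfl⟩, u2, hu2, rfl⟩
        exact ⟨v ++ u2, ⟨v, hv, u2, hu2, rfl⟩, rfl⟩
    | nonterminal B =>
      simp only [List.cons_append, Lang, Set.mem_ofPred_eq, ih]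
      constructor
      · rintro ⟨u0, hu0, v, ⟨u1, hu1, u2, hu2, rfl⟩, rfl⟩
        exact ⟨u0 ++ u1, ⟨u0, hu0, u1, hu1, rfl⟩, u2, hu2, by simp⟩
      · rintro ⟨u, ⟨u0, hu0, v, hv, rfl⟩, u2, hu2, rfl⟩
        exact ⟨u0, hu0, v ++ u2, ⟨v, hv, u2, hu2, rfl⟩, by simp⟩

theorem lang_terminals {T N : Type*} {I : N → Set (List T)} (w : List T) :
    w ∈ Lang I (w.map (Symbol.terminal (N := N))) := by
  induction w with
  | nil => simp [Lang]
  | cons x w ih => exact ⟨w, ih, rfl⟩

theorem lang_terminals_iff {T N : Type*} {I : N → Set (List T)} (w v : List T) :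
    v ∈ Lang I (w.map (Symbol.terminal (N := N))) ↔ v = w := by
  induction w generalizing v with
  | nil => simp [Lang]
  | cons x w ih =>
    simp only [List.map_cons, Lang, Set.mem_ofPred_eq]
    constructor
    · rintro ⟨v', hv', rfl⟩
      rw [(ih v').1 hv']
    · rintro rfl
      exact ⟨w, (ih w).2 rfl, rfl⟩

/-- Soundness: languages `I B` which are closed under all rules contain all derived words. -/
theorem lang_sound {T : Type*} {g : ContextFreeGrammar T} {I : g.NT → Set (List T)}
    (hI : ∀ r ∈ g.rules, Lang I r.output ⊆ I r.input) {u : List (Symbol T g.NT)} {w : List T}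
    (h : g.Derives u (w.map Symbol.terminal)) : w ∈ Lang I u := by
  induction h using Relation.ReflTransGen.head_induction_on with
  | refl => exact lang_terminals w
  | head hp _ ih =>
    obtain ⟨r, hr, hrw⟩ := hp
    obtain ⟨p, q, rfl, rfl⟩ := hrw.exists_parts
    rw [lang_append, ] at ih ⊢
    obtain ⟨u1, hu1, v1, hv1, rfl⟩ := ih
    rw [lang_append] at hu1
    obtain ⟨u2, hu2, v2, hv2, rfl⟩ := hu1
    refine ⟨u2 ++ v2, ?_, v1, hv1, rfl⟩
    rw [lang_append]
    refine ⟨u2, hu2, v2, ?_, rfl⟩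
    exact ⟨v2, hI r hr hv2, [], rfl, by simp⟩

/-- Splitting of derivations of words. -/
theorem derives_word_append {T : Type*} {g : ContextFreeGrammar T}
    {u1 u2 : List (Symbol T g.NT)} {w : List T}
    (h : g.Derives (u1 ++ u2) (w.map Symbol.terminal)) :
    ∃ w1 w2, w = w1 ++ w2 ∧ g.Derives u1 (w1.map Symbol.terminal) ∧
      g.Derives u2 (w2.map Symbol.terminal) := by
  obtain ⟨v1, v2, hv, h1, h2⟩ := derives_append h
  obtain ⟨w1, w2, rfl, rfl, rfl⟩ := List.map_eq_append_iff.1 hv
  exact ⟨w1, w2, rfl, h1, h2⟩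

end Pool.Agent.H86.GF
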