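import Pool.Agent.H86.GF.Stack

/-!
# Cutting runs of stack systems

Helper file for `MP_f868b6_lc`.
-/

set_option autoImplicit false

namespace Pool.Agent.H86.GF

theorem lip_up {H : ℕ → ℕ} {n : ℕ} (hL : ∀ t < n, H (t + 1) ≤ H t + 1 ∧ H t ≤ H (t + 1) + 1) :
    ∀ d i : ℕ, i + d ≤ n → H (i + d) ≤ H i + d ∧ H i ≤ H (i + d) + d := by
  intro d
  induction d with
  | zero => intro i _; simp
  | succ d ih =>
    intro i hi
    have h1 := ih i (by omega)
    have h2 := hL (i + d) (by omega)
    rw [← add_assoc]
    omega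

theorem cut_aux (H : ℕ → ℕ) (k l m r q M D n : ℕ) (hr : 1 ≤ r) (hD : D = k + l + m + r)
    (hn : n = r + (q + 1) * D)
    (hL : ∀ t < n, H (t + 1) ≤ H t + 1 ∧ H t ≤ H (t + 1) + 1) (hAB : H n ≤ H 0)
    (hM : H 0 + H n ≤ M) (hM' : 10 * D + 10 ≤ M) :
    ∃ t ≤ q, ∃ b1 b2, (∀ s, k ≤ s → s ≤ k + r + t * D → b1 ≤ H s) ∧
      H k + H (k + r + t * D) + 2 ≤ M + 2 * b1 ∧
      (∀ s, k + r + t * D + l ≤ s → s ≤ n - m → b2 ≤ H s) ∧
      H (k + r + t * D + l) + H (n - m) + 2 ≤ M + 2 * b2 := by
  have hnq : n = r + q * D + D := by rw [hn]; ring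
  have lip := lip_up hL
  have hk : H k ≤ H 0 + k ∧ H 0 ≤ H k + k := by
    have := lip k 0 (by omega)
    simpa using this
  have hm : H (n - m) ≤ H n + m ∧ H n ≤ H (n - m) + m := by
    have := lip m (n - m) (by omega)
    rw [show n - m + m = n by omega] at this
    omega
  -- lower bounds on a segment
  have seg : ∀ t ≤ q, (∀ u < t, H 0 < H (k + r + u * D) + (D + 2)) →
      ∀ s, k ≤ s → s < k + r + t * D → H 0 - (2 * D + 3) ≤ H s := by
    intro t ht hu s h1 h2
    have htD : t * D ≤ q * D := Nat.mul_le_mul_right D ht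
    by_cases hs : s < k + r
    · have := lip s 0 (by omega)
      simp only [zero_add] at this
      omega
    · have hDpos : 0 < D := by omega
      set u := (s - (k + r)) / D with hu_def
      have hmod := Nat.div_add_mod (s - (k + r)) D
      have hlt := Nat.mod_lt (s - (k + r)) hDpos
      rw [← hu_def] at hmod
      have hut : u < t := by
        by_contra hcon
        have : t * D ≤ u * D := Nat.mul_le_mul_right D (not_lt.1 hcon)
        rw [mul_comm D u] at hmod
        omega
      have h3 := hu u hut
      rw [mul_comm D u] at hmod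
      have h4 := lip (s - (k + r + u * D)) (k + r + u * D) (by omega)
      rw [show k + r + u * D + (s - (k + r + u * D)) = s by omega] at h4
      omega
  by_cases hex : ∃ t, t ≤ q ∧ H (k + r + t * D) + (D + 2) ≤ H 0
  · classical
    set t := Nat.find hex with ht_def
    obtain ⟨htq, hHt⟩ := Nat.find_spec hex
    rw [← ht_def] at htq hHt
    have hmin : ∀ u < t, H 0 < H (k + r + u * D) + (D + 2) := by
      intro u hu
      have := Nat.find_min hex hu
      push Not at this
      exact this (by omega)
    have htD : t * D ≤ q * D := Nat.mul_le_mul_right D htq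
    refine ⟨t, htq, H 0 - (2 * D + 3) - 1, 0, ?_, ?_, ?_, ?_⟩
    · intro s h1 h2
      by_cases hs : s < k + r + t * D
      · have := seg t htq hmin s h1 hs
        omega
      · have hs' : s = (s - 1) + 1 := by omega
        have h3 := seg t htq hmin (s - 1) (by omega) (by omega)
        have h4 := lip 1 (s - 1) (by omega)
        rw [← hs'] at h4
        omega
    · omega
    · intro s _ _
      exact Nat.zero_le _
    · have := lip l (k + r + t * D) (by omega)
      omega
  · push Not at hex
    have hmin : ∀ u < q, H 0 < H (k + r + u * D) + (D + 2) := fun u hu => hex u (by omega)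
    refine ⟨q, le_rfl, H 0 - (2 * D + 3), H (k + r + q * D + l) - r, ?_, ?_, ?_, ?_⟩
    · intro s h1 h2
      by_cases hs : s < k + r + q * D
      · exact seg q le_rfl hmin s h1 hs
      · have hs' : s = k + r + q * D := by omega
        have := hex q le_rfl
        rw [hs']
        omega
    · have := lip (n - (k + r + q * D)) (k + r + q * D) (by omega)
      rw [show k + r + q * D + (n - (k + r + q * D)) = n by omega] at this
      omega
    · intro s h1 h2
      have := lip (s - (k + r + q * D + l)) (k + r + q * D + l) (by omega)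
      rw [show k + r + q * D + l + (s - (k + r + q * D + l)) = s by omega] at this
      omega
    · have := lip r (k + r + q * D + l) (by omega)
      rw [show k + r + q * D + l + r = n - m by omega] at this
      omega

theorem cut (H : ℕ → ℕ) (k l m r q M D n : ℕ) (hr : 1 ≤ r) (hD : D = k + l + m + r)
    (hn : n = r + (q + 1) * D)
    (hL : ∀ t < n, H (t + 1) ≤ H t + 1 ∧ H t ≤ H (t + 1) + 1)
    (hM : H 0 + H n ≤ M) (hM' : 10 * D + 10 ≤ M) :
    ∃ t ≤ q, ∃ b1 b2, (∀ s, k ≤ s → s ≤ k + r + t * D → b1 ≤ H s) ∧
      H k + H (k + r + t * D) + 2 ≤ M + 2 * b1 ∧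
      (∀ s, k + r + t * D + l ≤ s → s ≤ n - m → b2 ≤ H s) ∧
      H (k + r + t * D + l) + H (n - m) + 2 ≤ M + 2 * b2 := by
  rcases le_total (H n) (H 0) with hAB | hAB
  · exact cut_aux H k l m r q M D n hr hD hn hL hAB hM hM'
  · have hnq : n = r + q * D + D := by rw [hn]; ring
    have hL' : ∀ t < n, (fun s => H (n - s)) (t + 1) ≤ (fun s => H (n - s)) t + 1 ∧
        (fun s => H (n - s)) t ≤ (fun s => H (n - s)) (t + 1) + 1 := by
      intro t ht
      have := hL (n - (t + 1)) (by omega)
      rw [show n - (t + 1) + 1 = n - t by omega] at this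
      exact ⟨this.2, this.1⟩
    obtain ⟨t, htq, b1, b2, h1, h2, h3, h4⟩ := cut_aux (fun s => H (n - s)) m l k r q M D n hr
      (by omega) hn hL' (by simpa using hAB) (by simpa [add_comm] using hM) hM'
    have htD : t * D ≤ q * D := Nat.mul_le_mul_right D htq
    have htD' : (q - t) * D = q * D - t * D := Nat.sub_mul q t D
    refine ⟨q - t, by omega, b2, b1, ?_, ?_, ?_, ?_⟩
    · intro s hs1 hs2
      have := h3 (n - s) (by omega) (by omega)
      rwa [show n - (n - s) = s by omega] at this
    · rw [show n - (n - k) = k by omega,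
        show n - (m + r + t * D + l) = k + r + (q - t) * D by omega] at h4
      omega
    · intro s hs1 hs2
      have := h1 (n - s) (by omega) (by omega)
      rwa [show n - (n - s) = s by omega] at this
    · rw [show n - (m + r + t * D) = k + r + (q - t) * D + l by omega] at h2
      omega

section runs

variable {Γ T : Type} {step : Γ → T → List Γ → Prop}

theorem Run.append {u v : List T} {σ ρ τ : List Γ} (h1 : Run step u σ ρ) (h2 : Run step v ρ τ) :
    Run step (u ++ v) σ τ := by
  induction h1 with
  | nil => exact h2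
  | cons hs _ ih => exact Run.cons hs (ih h2)

theorem Run.split {u : List T} : ∀ {v : List T} {σ τ : List Γ}, Run step (u ++ v) σ τ →
    ∃ ρ, Run step u σ ρ ∧ Run step v ρ τ := by
  induction u with
  | nil => intro v σ τ h; exact ⟨σ, Run.nil σ, h⟩
  | cons x u ih =>
    intro v σ τ h
    rw [List.cons_append] at h
    cases h with
    | cons hs h =>
      obtain ⟨ρ, h1, h2⟩ := ih h
      exact ⟨ρ, Run.cons hs h1, h2⟩

theorem Run.lift {w : List T} {σ τ : List Γ} (h : Run step w σ τ) (η : List Γ) :
    Run step w (σ ++ η) (τ ++ η) := by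
  induction h with
  | nil => exact Run.nil _
  | cons hs _ ih =>
    rw [List.append_assoc] at ih
    exact Run.cons hs ih

theorem Run.path {w : List T} {σ τ : List Γ} (h : Run step w σ τ) :
    ∃ st : ℕ → List Γ, st 0 = σ ∧ st w.length = τ ∧ ∀ (i : ℕ) (hi : i < w.length),
      ∃ Z γ ρ, st i = Z :: ρ ∧ step Z w[i] γ ∧ st (i + 1) = γ ++ ρ := by
  induction h with
  | nil σ => exact ⟨fun _ => σ, rfl, rfl, fun i hi => by simp at hi⟩
  | @cons Z x γ ρ τ w hs _ ih =>
    obtain ⟨st, h0, h1, h2⟩ := ih
    refine ⟨fun i => Nat.casesOn i (Z :: ρ) st, rfl, h1, ?_⟩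
    intro i hi
    cases i with
    | zero => exact ⟨Z, γ, ρ, rfl, hs, h0⟩
    | succ i =>
      have := h2 i (by simpa using hi)
      simpa using this

theorem segment {w : List T} {st : ℕ → List Γ}
    (hst : ∀ (i : ℕ) (hi : i < w.length), ∃ Z γ ρ, st i = Z :: ρ ∧ step Z w[i] γ ∧
      st (i + 1) = γ ++ ρ) (b : ℕ) :
    ∀ d i : ℕ, i + d ≤ w.length → (∀ t, i ≤ t → t < i + d → b + 1 ≤ (st t).length) →
      b ≤ (st (i + d)).length →
      ∃ α β η, η.length = b ∧ st i = α ++ η ∧ st (i + d) = β ++ η ∧
        Run step ((w.drop i).take d) α β := by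
  intro d
  induction d with
  | zero =>
    intro i _ _ hb
    refine ⟨(st i).take ((st i).length - b), (st i).take ((st i).length - b),
      (st i).drop ((st i).length - b), ?_, ?_, ?_, ?_⟩
    · rw [List.length_drop]
      simp at hb
      omega
    · exact (List.take_append_drop _ _).symm
    · exact (List.take_append_drop _ _).symm
    · simpa using Run.nil _
  | succ d ih =>
    intro i hi hb hb'
    obtain ⟨Z, γ, ρ, h1, h2, h3⟩ := hst i (by omega)
    obtain ⟨α, β, η, hη, ha, hbt, hr⟩ := ih (i + 1) (by omega)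
      (fun t ht1 ht2 => hb t (by omega) (by omega))
      (by rw [show i + 1 + d = i + (d + 1) by omega]; exact hb')
    have hρ : b ≤ ρ.length := by
      have := hb i le_rfl (by omega)
      rw [h1] at this
      simpa using this
    rw [h3] at ha
    have : ∃ ρ', ρ = ρ' ++ η ∧ α = γ ++ ρ' := by
      rcases List.append_eq_append_iff.1 ha with ⟨a', e1, e2⟩ | ⟨a', e1, e2⟩
      · exact ⟨a', e2, e1⟩
      · have hl : a'.length = 0 := by
          have := congrArg List.length e2
          rw [List.length_append] at this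
          omega
        have ha' : a' = [] := List.length_eq_zero_iff.1 hl
        subst ha'
        exact ⟨[], by simpa using e2.symm, by simpa using e1.symm⟩
    obtain ⟨ρ', rfl, rfl⟩ := this
    refine ⟨Z :: ρ', β, η, hη, by rw [h1]; rfl, ?_, ?_⟩
    · rw [← hbt]
      congr 1
      omega
    · have hi' : i < w.length := by omega
      rw [List.drop_eq_getElem_cons hi', List.take_succ_cons]
      exact Run.cons h2 hr

/-- The decomposition of runs. -/
theorem Run.decompose (hlen : ∀ {Z x γ}, step Z x γ → γ.length ≤ 2)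
    {k l m r q M D : ℕ} (hr : 1 ≤ r) (hD : D = k + l + m + r) (hM' : 10 * D + 10 ≤ M)
    {w : List T} {α β : List Γ} (hw : w.length = r + (q + 1) * D) (h : Run step w α β)
    (hM : α.length + β.length ≤ M) :
    ∃ q1 q2, q1 + q2 = q ∧ ∃ w1 x w2 y w3, w = w1 ++ (x ++ (w2 ++ (y ++ w3))) ∧
      w1.length = k ∧ x.length = r + q1 * D ∧ w2.length = l ∧ y.length = r + q2 * D ∧
      w3.length = m ∧ ∃ α1 β1 η1 α2 β2 η2 : List Γ, α1.length + β1.length ≤ M ∧
        α2.length + β2.length ≤ M ∧ Run step w1 α (α1 ++ η1) ∧ Run step x α1 β1 ∧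
        Run step w2 (β1 ++ η1) (α2 ++ η2) ∧ Run step y α2 β2 ∧
        Run step w3 (β2 ++ η2) β := by
  obtain ⟨st, h0, hn, hst⟩ := h.path
  set n := w.length with hn_def
  have hnq : n = r + q * D + D := by rw [hw]; ring
  have hpos : ∀ t < n, 1 ≤ (st t).length := by
    intro t ht
    obtain ⟨Z, γ, ρ, h1, _, _⟩ := hst t ht
    rw [h1]
    simp
  have hL : ∀ t < n, (st (t + 1)).length ≤ (st t).length + 1 ∧
      (st t).length ≤ (st (t + 1)).length + 1 := by
    intro t ht
    obtain ⟨Z, γ, ρ, h1, h2, h3⟩ := hst t ht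
    have := hlen h2
    rw [h1, h3]
    simp
    omega
  obtain ⟨t, htq, b1, b2, c1, c2, c3, c4⟩ := cut (fun s => (st s).length) k l m r q M D n hr hD
    hw hL (by simpa [h0, hn] using hM) hM'
  have htD : t * D ≤ q * D := Nat.mul_le_mul_right D htq
  have htD' : (q - t) * D = q * D - t * D := Nat.sub_mul q t D
  -- positions
  set i2 := k + r + t * D with hi2
  have seg0 : ∀ i d : ℕ, i + d ≤ n → Run step ((w.drop i).take d) (st i) (st (i + d)) := by
    intro i d hid
    obtain ⟨α', β', η, hη, e1, e2, e3⟩ := segment hst 0 d i hid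
      (fun t _ ht2 => by have := hpos t (by omega); omega) (Nat.zero_le _)
    have : η = [] := List.length_eq_zero_iff.1 hη
    subst this
    rw [e1, e2]
    simpa using e3
  obtain ⟨α1, β1, η1, hη1, e1, e2, e3⟩ := segment hst (b1 - 1) (r + t * D) k (by omega)
    (fun s hs1 hs2 => by
      have h1 := c1 s hs1 (by omega)
      have h2 := hpos s (by omega)
      omega)
    (by
      have h1 := c1 i2 (by omega) le_rfl
      rw [show k + (r + t * D) = i2 by omega]
      omega)
  obtain ⟨α2, β2, η2, hη2, f1, f2, f3⟩ := segment hst (b2 - 1) (r + (q - t) * D) (i2 + l)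
    (by omega)
    (fun s hs1 hs2 => by
      have h1 := c3 s hs1 (by omega)
      have h2 := hpos s (by omega)
      omega)
    (by
      have h1 := c3 (n - m) (by omega) le_rfl
      rw [show i2 + l + (r + (q - t) * D) = n - m by omega]
      omega)
  rw [show k + (r + t * D) = i2 by omega] at e2
  rw [show i2 + l + (r + (q - t) * D) = n - m by omega] at f2
  refine ⟨t, q - t, by omega, w.take k, (w.drop k).take (r + t * D), (w.drop i2).take l,
    (w.drop (i2 + l)).take (r + (q - t) * D), w.drop (n - m), ?_, ?_, ?_, ?_, ?_, ?_,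
    α1, β1, η1, α2, β2, η2, ?_, ?_, ?_, e3, ?_, f3, ?_⟩
  · have a1 : w = w.take k ++ w.drop k := (List.take_append_drop k w).symm
    have a2 : w.drop k = (w.drop k).take (r + t * D) ++ w.drop i2 := by
      conv_lhs => rw [← List.take_append_drop (r + t * D) (w.drop k)]
      rw [List.drop_drop]
      congr 2
      omega
    have a3 : w.drop i2 = (w.drop i2).take l ++ w.drop (i2 + l) := by
      conv_lhs => rw [← List.take_append_drop l (w.drop i2)]
      rw [List.drop_drop]
    have a4 : w.drop (i2 + l) = (w.drop (i2 + l)).take (r + (q - t) * D) ++ w.drop (n - m) := by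
      conv_lhs => rw [← List.take_append_drop (r + (q - t) * D) (w.drop (i2 + l))]
      rw [List.drop_drop]
      congr 2
      omega
    rw [← a4, ← a3, ← a2, ← a1]
  · rw [List.length_take]; omega
  · rw [List.length_take, List.length_drop]; omega
  · rw [List.length_take, List.length_drop]; omega
  · rw [List.length_take, List.length_drop]; omega
  · rw [List.length_drop]; omega
  · rw [e1, e2] at c2
    simp only [List.length_append] at c2
    omega
  · rw [f1, f2] at c4
    simp only [List.length_append] at c4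
    omega
  · have := seg0 0 k (by omega)
    rw [h0, zero_add, e1] at this
    simpa using this
  · have := seg0 i2 l (by omega)
    rw [e2, f1] at this
    exact this
  · have := seg0 (n - m) m (by omega)
    rw [f2, show n - m + m = n by omega, hn] at this
    rw [List.take_of_length_le (by rw [List.length_drop]; omega)] at this
    exact this

end runs

end Pool.Agent.H86.GF
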