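import Mathlib

/-!
# Grammar forms: strict interpretations

Definitions for `MP_f868b6_lc`.
-/

set_option autoImplicit false

namespace Pool.Agent.H86.GF

/-- The symbol `s` is substituted for the symbol `s₀` by the substitution which replaces a terminal
`b` by a letter of `μT b` and a nonterminal `A` by an element of `μN A`. -/
def Subst {T T' N N' : Type} (μT : T → Finset T') (μN : N → Finset N') :
    Symbol T N → Symbol T' N' → Prop
  | Symbol.terminal b, Symbol.terminal x => x ∈ μT b
  | Symbol.nonterminal A, Symbol.nonterminal B => B ∈ μN A
  | _, _ => False

/-- The grammar `H` is an s-interpretation (strict interpretation) of the grammar form `G`: there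
is a substitution, which replaces each terminal of `G` by a letter of a finite set of
terminals of `H` and each nonterminal of `G` by an element of a finite set of nonterminals of
`H`, these sets are disjoint for different symbols, every rule of `H` is obtained from a rule of
`G` by this substitution, and the initial symbol of `H` is one of the nonterminals which are
substituted for the initial symbol of `G`. -/
def StrictInterp {T T' : Type} (H : ContextFreeGrammar T') (G : ContextFreeGrammar T) : Prop :=
  ∃ (μT : T → Finset T') (μN : G.NT → Finset H.NT),
    (∀ b c, b ≠ c → Disjoint (μT b) (μT c)) ∧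
    (∀ A B, A ≠ B → Disjoint (μN A) (μN B)) ∧
    (∀ r ∈ H.rules, ∃ r₀ ∈ G.rules, r.input ∈ μN r₀.input ∧
      List.Forall₂ (Subst μT μN) r₀.output r.output) ∧
    H.initial ∈ μN G.initial

/-- A family of languages: for each alphabet a set of languages over this alphabet. -/
def LangFamily : Type 1 := ∀ T : Type, Set (Language T)

/-- The s-grammatical family of the grammar form `G`. -/
def sFamily {T : Type} (G : ContextFreeGrammar T) : LangFamily :=
  fun T' => {L | ∃ H : ContextFreeGrammar T', StrictInterp H G ∧ H.language = L}

/-- The family of all context-free languages. -/
def cfFamily : LangFamily := fun T' => {L | L.IsContextFree}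

/-- Two languages are equal up to the empty word. -/
def EqUpToEmpty {T : Type} (L L' : Language T) : Prop := ∀ w : List T, w ≠ [] → (w ∈ L ↔ w ∈ L')

/-- Two families of languages are equal: over every finite alphabet, every language of each of
them is equal, up to the empty word, to a language of the other one. -/
def FamilyEq (F F' : LangFamily) : Prop :=
  ∀ (T : Type) [Finite T], (∀ L ∈ F T, ∃ L' ∈ F' T, EqUpToEmpty L L') ∧
    (∀ L' ∈ F' T, ∃ L ∈ F T, EqUpToEmpty L L')

/-- The grammar form `G` is context-free-s-complete. -/
def CFsComplete {T : Type} (G : ContextFreeGrammar T) : Prop := FamilyEq (sFamily G) cfFamily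

/-- The nonterminal `E` is `b`-expansive: some sentential form which consists of two occurrences
of `E` and of letters `b` is derived from `E`, and `E` generates some nonempty word `b ^ j`. -/
def Expansive {T : Type} (G : ContextFreeGrammar T) (b : T) (E : G.NT) : Prop :=
  (∃ k l m : ℕ, G.Derives [Symbol.nonterminal E]
    (List.replicate k (Symbol.terminal b) ++ [Symbol.nonterminal E] ++
      List.replicate l (Symbol.terminal b) ++ [Symbol.nonterminal E] ++
      List.replicate m (Symbol.terminal b))) ∧
  ∃ j : ℕ, 1 ≤ j ∧ G.Derives [Symbol.nonterminal E] (List.replicate j (Symbol.terminal b))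

/-- The word `b ^ n` is generated by an expansive derivation: by a derivation over the letter `b`
in which some `b`-expansive nonterminal occurs. -/
def ExpGen {T : Type} (G : ContextFreeGrammar T) (b : T) (n : ℕ) : Prop :=
  ∃ (E : G.NT) (p q j : ℕ), Expansive G b E ∧ n = p + j + q ∧
    G.Derives [Symbol.nonterminal G.initial] (List.replicate p (Symbol.terminal b) ++
      [Symbol.nonterminal E] ++ List.replicate q (Symbol.terminal b)) ∧
    G.Derives [Symbol.nonterminal E] (List.replicate j (Symbol.terminal b))

end Pool.Agent.H86.GF
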