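import Mathlib

/-!
# Nested bracket words

Helper file for `MP_f868b6_lc`.
-/

set_option autoImplicit false

namespace Pool.Agent.H86.GF

/-- length of the word of depth `h` -/
def len (l : ℕ) : ℕ → ℕ
  | 0 => 2 * l
  | h + 1 => 2 * l + 2 * len l h

/-- the opening position which belongs to a position -/
def op (l : ℕ) : ℕ → ℕ → ℕ
  | 0, p => if p < l then p else 2 * l - 1 - p
  | h + 1, p => if p < l then p else if p < l + len l h then l + op l h (p - l) else
      if p < l + 2 * len l h then l + len l h + op l h (p - l - len l h) else
      len l (h + 1) - 1 - p

theorem op_le {l : ℕ} : ∀ {h p : ℕ}, p < len l h → op l h p ≤ p := by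
  intro h
  induction h with
  | zero =>
    intro p hp
    unfold op
    unfold len at hp
    split_ifs <;> omega
  | succ h ih =>
    intro p hp
    have hlen : len l (h + 1) = 2 * l + 2 * len l h := rfl
    unfold op
    split_ifs with h1 h2 h3
    · exact le_rfl
    · have := ih (p := p - l) (by omega)
      omega
    · have := ih (p := p - l - len l h) (by omega)
      omega
    · omega

theorem op_op {l : ℕ} : ∀ {h p : ℕ}, p < len l h → op l h (op l h p) = op l h p := by
  intro h
  induction h with
  | zero =>
    intro p hp
    unfold len at hp
    by_cases h1 : p < l
    · simp [op, h1]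
    · have e : op l 0 p = 2 * l - 1 - p := by simp [op, h1]
      rw [e]
      have : 2 * l - 1 - p < l := by omega
      simp [op, this]
  | succ h ih =>
    intro p hp
    have hlen : len l (h + 1) = 2 * l + 2 * len l h := rfl
    by_cases h1 : p < l
    · simp [op, h1]
    · by_cases h2 : p < l + len l h
      · have e : op l (h + 1) p = l + op l h (p - l) := by simp [op, h1, h2]
        have e1 := op_le (l := l) (h := h) (p := p - l) (by omega)
        rw [e]
        have h3 : ¬ (l + op l h (p - l) < l) := by omega
        have h4 : l + op l h (p - l) < l + len l h := by omega
        have h5 : l + op l h (p - l) - l = op l h (p - l) := by omega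
        rw [op, if_neg h3, if_pos h4, h5, ih (by omega)]
      · by_cases h3 : p < l + 2 * len l h
        · have e : op l (h + 1) p = l + len l h + op l h (p - l - len l h) := by
            simp [op, h1, h2, h3]
          have e1 := op_le (l := l) (h := h) (p := p - l - len l h) (by omega)
          rw [e]
          have h4 : ¬ (l + len l h + op l h (p - l - len l h) < l) := by omega
          have h5 : ¬ (l + len l h + op l h (p - l - len l h) < l + len l h) := by omega
          have h6 : l + len l h + op l h (p - l - len l h) < l + 2 * len l h := by omega
          have h7 : l + len l h + op l h (p - l - len l h) - l - len l h =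
            op l h (p - l - len l h) := by omega
          rw [op, if_neg h4, if_neg h5, if_pos h6, h7, ih (by omega)]
        · have e : op l (h + 1) p = len l (h + 1) - 1 - p := by simp [op, h1, h2, h3]
          rw [e]
          have h4 : len l (h + 1) - 1 - p < l := by omega
          rw [op, if_pos h4]

/-- the bracket word of depth `h` with the labels `u` -/
def W (l h : ℕ) (u : ℕ → Bool) : List (Bool × Bool) :=
  (List.range (len l h)).map (fun p => (decide (op l h p = p), u p))

theorem range_map_add {α : Type*} (a b : ℕ) (f : ℕ → α) :
    (List.range (a + b)).map f = (List.range a).map f ++ (List.range b).map (fun i => f (a + i)) := by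
  rw [List.range_add, List.map_append, List.map_map]
  rfl

theorem W_zero (l : ℕ) (u : ℕ → Bool) : W l 0 u = (List.range l).map (fun i => (true, u i)) ++
    (List.range l).map (fun i => (false, u (l + i))) := by
  unfold W
  rw [show len l 0 = l + l by unfold len; omega, range_map_add]
  congr 1
  · apply List.map_congr_left
    intro i hi
    rw [List.mem_range] at hi
    simp [op, hi]
  · apply List.map_congr_left
    intro i hi
    rw [List.mem_range] at hi
    have h1 : ¬ (l + i < l) := by omega
    have h2 : ¬ (2 * l - 1 - (l + i) = l + i) := by omega
    simp [op, h2]

theorem W_succ (l h : ℕ) (u : ℕ → Bool) : W l (h + 1) u =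
    (List.range l).map (fun i => (true, u i)) ++ (W l h (fun p => u (l + p)) ++
      (W l h (fun p => u (l + len l h + p)) ++
        (List.range l).map (fun i => (false, u (l + 2 * len l h + i))))) := by
  unfold W
  have hlen : len l (h + 1) = 2 * l + 2 * len l h := rfl
  rw [show len l (h + 1) = l + (len l h + (len l h + l)) by omega, range_map_add,
    range_map_add, range_map_add]
  congr 1
  · apply List.map_congr_left
    intro i hi
    rw [List.mem_range] at hi
    simp [op, hi]
  congr 1
  · apply List.map_congr_left
    intro i hi
    rw [List.mem_range] at hi
    have h1 : ¬ (l + i < l) := by omega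
    have h2 : l + i < l + len l h := by omega
    have h3 : l + i - l = i := by omega
    have h4 : op l (h + 1) (l + i) = l + op l h i := by
      rw [op, if_neg h1, if_pos h2, h3]
    rw [h4]
    simp
  congr 1
  · apply List.map_congr_left
    intro i hi
    rw [List.mem_range] at hi
    have h1 : ¬ (l + (len l h + i) < l) := by omega
    have h2 : ¬ (l + (len l h + i) < l + len l h) := by omega
    have h2' : l + (len l h + i) < l + 2 * len l h := by omega
    have h3 : l + (len l h + i) - l - len l h = i := by omega
    have h4 : op l (h + 1) (l + (len l h + i)) = l + len l h + op l h i := by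
      rw [op, if_neg h1, if_neg h2, if_pos h2', h3]
    rw [h4]
    simp [add_assoc]
  · apply List.map_congr_left
    intro i hi
    rw [List.mem_range] at hi
    have h1 : ¬ (l + (len l h + (len l h + i)) < l) := by omega
    have h2 : ¬ (l + (len l h + (len l h + i)) < l + len l h) := by omega
    have h2' : ¬ (l + (len l h + (len l h + i)) < l + 2 * len l h) := by omega
    have h4 : op l (h + 1) (l + (len l h + (len l h + i))) =
        len l (h + 1) - 1 - (l + (len l h + (len l h + i))) := by
      rw [op, if_neg h1, if_neg h2, if_neg h2']
    have h5 : ¬ (len l (h + 1) - 1 - (l + (len l h + (len l h + i))) =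
        l + (len l h + (len l h + i))) := by
      omega
    rw [h4]
    have h6 : l + (len l h + (len l h + i)) = l + 2 * len l h + i := by omega
    rw [h6] at h5 ⊢
    simp [h5]

/-- the stack automaton for bracket words -/
def runB : List (Bool × Bool) → List Bool → Option (List Bool)
  | [], st => some st
  | (true, b) :: v, st => runB v (b :: st)
  | (false, _) :: _, [] => none
  | (false, b) :: v, c :: st => if b = c then runB v st else none

theorem runB_append (u v : List (Bool × Bool)) (st : List Bool) :
    runB (u ++ v) st = (runB u st).bind (runB v) := by
  induction u generalizing st with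
  | nil => rfl
  | cons x u ih =>
    obtain ⟨o, b⟩ := x
    cases o with
    | true => simp only [List.cons_append, runB, ih]
    | false =>
      cases st with
      | nil => simp [runB]
      | cons c st =>
        simp only [List.cons_append, runB]
        split_ifs
        · exact ih st
        · rfl

theorem runB_opens (s : List Bool) (st : List Bool) :
    runB (s.map (fun b => (true, b))) st = some (s.reverse ++ st) := by
  induction s generalizing st with
  | nil => rfl
  | cons b s ih => simp [runB, ih]

theorem runB_closes (s s' : List Bool) (st st' : List Bool) (hl : s.length = s'.length)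
    (h : runB (s.map (fun b => (false, b))) (s' ++ st) = some st') : s = s' ∧ st' = st := by
  induction s generalizing s' with
  | nil =>
    have : s' = [] := by simpa using hl.symm
    subst this
    simpa [runB] using h.symm
  | cons b s ih =>
    cases s' with
    | nil => simp at hl
    | cons c s' =>
      simp only [List.map_cons, List.cons_append, runB] at h
      split_ifs at h with hbc
      obtain ⟨h1, h2⟩ := ih s' (by simpa using hl) h
      exact ⟨by rw [hbc, h1], h2⟩

theorem runB_closes' (s : List Bool) (st : List Bool) :
    runB (s.map (fun b => (false, b))) (s ++ st) = some st := by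
  induction s with
  | nil => rfl
  | cons b s ih => simp [runB, ih]

theorem runB_W {l : ℕ} : ∀ {h : ℕ} {u : ℕ → Bool} {st st' : List Bool},
    runB (W l h u) st = some st' → st' = st ∧ ∀ p < len l h, u p = u (op l h p) := by
  intro h
  induction h with
  | zero =>
    intro u st st' hr
    rw [W_zero, runB_append] at hr
    have e1 : (List.range l).map (fun i => (true, u i)) =
        ((List.range l).map u).map (fun b => (true, b)) := by simp
    have e2 : (List.range l).map (fun i => (false, u (l + i))) =
        ((List.range l).map (fun i => u (l + i))).map (fun b => (false, b)) := by simp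
    rw [e1, runB_opens, Option.bind_some, e2] at hr
    obtain ⟨h1, h2⟩ := runB_closes _ _ _ _ (by simp) hr
    refine ⟨h2, ?_⟩
    intro p hp
    unfold len at hp
    by_cases hp1 : p < l
    · simp [op, hp1]
    · have h3 := congrArg (fun s : List Bool => s[p - l]?) h1
      simp only [List.getElem?_map] at h3
      rw [List.getElem?_range (by omega), List.getElem?_reverse (by simp; omega)] at h3
      simp only [List.length_map, List.length_range, List.getElem?_map] at h3
      rw [List.getElem?_range (by omega)] at h3
      simp only [Option.map_some, Option.some.injEq] at h3
      rw [show l + (p - l) = p by omega] at h3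
      rw [op, if_neg hp1, h3]
      congr 1
      omega
  | succ h ih =>
    intro u st st' hr
    have hlen : len l (h + 1) = 2 * l + 2 * len l h := rfl
    rw [W_succ, runB_append] at hr
    have e1 : (List.range l).map (fun i => (true, u i)) =
        ((List.range l).map u).map (fun b => (true, b)) := by simp
    have e2 : (List.range l).map (fun i => (false, u (l + 2 * len l h + i))) =
        ((List.range l).map (fun i => u (l + 2 * len l h + i))).map (fun b => (false, b)) := by
      simp
    rw [e1, runB_opens, Option.bind_some, e2, runB_append] at hr
    obtain ⟨st1, hs1, hr⟩ := Option.bind_eq_some_iff.1 hr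
    obtain ⟨rfl, hu1⟩ := ih hs1
    rw [runB_append] at hr
    obtain ⟨st2, hs2, hr⟩ := Option.bind_eq_some_iff.1 hr
    obtain ⟨rfl, hu2⟩ := ih hs2
    obtain ⟨h1, h2⟩ := runB_closes _ _ _ _ (by simp) hr
    refine ⟨h2, ?_⟩
    intro p hp
    by_cases hp1 : p < l
    · simp [op, hp1]
    · by_cases hp2 : p < l + len l h
      · have := hu1 (p - l) (by omega)
        rw [show l + (p - l) = p by omega] at this
        rw [op, if_neg hp1, if_pos hp2, this]
      · by_cases hp3 : p < l + 2 * len l h
        · have := hu2 (p - l - len l h) (by omega)
          rw [show l + len l h + (p - l - len l h) = p by omega] at this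
          rw [op, if_neg hp1, if_neg hp2, if_pos hp3, this]
        · have h3 := congrArg (fun s : List Bool => s[p - (l + 2 * len l h)]?) h1
          simp only [List.getElem?_map] at h3
          rw [List.getElem?_range (by omega), List.getElem?_reverse (by simp; omega)] at h3
          simp only [List.length_map, List.length_range, List.getElem?_map] at h3
          rw [List.getElem?_range (by omega)] at h3
          simp only [Option.map_some, Option.some.injEq] at h3
          rw [show l + 2 * len l h + (p - (l + 2 * len l h)) = p by omega] at h3
          rw [op, if_neg hp1, if_neg hp2, if_neg hp3, h3]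
          congr 1
          omega

/-- the bracket words of depth `j` -/
inductive NN : ℕ → List (Bool × Bool) → Prop
  | nil : NN 0 []
  | wrap (b : Bool) {j : ℕ} {v : List (Bool × Bool)} : NN j v →
      NN j ((true, b) :: (v ++ [(false, b)]))
  | cat {j : ℕ} {v v' : List (Bool × Bool)} : NN j v → NN j v' → NN (j + 1) (v ++ v')

theorem NN.wrapL {j : ℕ} (s : List Bool) {v : List (Bool × Bool)} (hv : NN j v) :
    NN j (s.map (fun b => (true, b)) ++ (v ++ s.reverse.map (fun b => (false, b)))) := by
  induction s with
  | nil => simpa using hv
  | cons b s ih =>
    have := NN.wrap b ih
    simpa using this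

theorem NN_W {l : ℕ} : ∀ {h : ℕ} {u : ℕ → Bool}, (∀ p < len l h, u p = u (op l h p)) →
    NN h (W l h u) := by
  intro h
  induction h with
  | zero =>
    intro u hu
    rw [W_zero]
    have e1 : (List.range l).map (fun i => (true, u i)) =
        ((List.range l).map u).map (fun b => (true, b)) := by simp
    have e2 : (List.range l).map (fun i => (false, u (l + i))) =
        ((List.range l).map u).reverse.map (fun b => (false, b)) := by
      apply List.ext_getElem?
      intro i
      by_cases hi : i < l
      · rw [List.getElem?_map, List.getElem?_map, List.getElem?_reverse (by simpa using hi),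
          List.getElem?_map, List.getElem?_range hi]
        simp only [List.length_map, List.length_range]
        rw [List.getElem?_range (by omega)]
        simp only [Option.map_some, Option.some.injEq, Prod.mk.injEq, true_and]
        have := hu (l + i) (by unfold len; omega)
        rw [this, op, if_neg (by omega)]
        congr 1
        omega
      · rw [List.getElem?_eq_none (by simpa using hi), List.getElem?_eq_none (by simpa using hi)]
    rw [e1, e2]
    have := NN.wrapL ((List.range l).map u) NN.nil
    simpa using this
  | succ h ih =>
    intro u hu
    have hlen : len l (h + 1) = 2 * l + 2 * len l h := rfl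
    rw [W_succ]
    have e1 : (List.range l).map (fun i => (true, u i)) =
        ((List.range l).map u).map (fun b => (true, b)) := by simp
    have e2 : (List.range l).map (fun i => (false, u (l + 2 * len l h + i))) =
        ((List.range l).map u).reverse.map (fun b => (false, b)) := by
      apply List.ext_getElem?
      intro i
      by_cases hi : i < l
      · rw [List.getElem?_map, List.getElem?_map, List.getElem?_reverse (by simpa using hi),
          List.getElem?_map, List.getElem?_range hi]
        simp only [List.length_map, List.length_range]
        rw [List.getElem?_range (by omega)]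
        simp only [Option.map_some, Option.some.injEq, Prod.mk.injEq, true_and]
        have := hu (l + 2 * len l h + i) (by omega)
        rw [this, op, if_neg (by omega), if_neg (by omega), if_neg (by omega)]
        congr 1
        omega
      · rw [List.getElem?_eq_none (by simpa using hi), List.getElem?_eq_none (by simpa using hi)]
    rw [e1, e2]
    have h1 : NN h (W l h (fun p => u (l + p))) := by
      apply ih
      intro p hp
      have := hu (l + p) (by omega)
      rw [op, if_neg (by omega), if_pos (by omega)] at this
      rw [this]
      congr 2
      congr 1
      omega
    have h2 : NN h (W l h (fun p => u (l + len l h + p))) := by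
      apply ih
      intro p hp
      have := hu (l + len l h + p) (by omega)
      rw [op, if_neg (by omega), if_neg (by omega), if_pos (by omega)] at this
      rw [this]
      congr 2
      congr 1
      omega
    have := NN.wrapL ((List.range l).map u) (NN.cat h1 h2)
    simpa [List.append_assoc] using this

theorem NN.run {j : ℕ} {v : List (Bool × Bool)} (h : NN j v) :
    ∀ st, runB v st = some st := by
  induction h with
  | nil => intro st; rfl
  | wrap b _ ih =>
    intro st
    rw [runB, runB_append, ih]
    simp [runB]
  | cat _ _ ih1 ih2 =>
    intro st
    rw [runB_append, ih1, Option.bind_some, ih2]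

/-- sub-blocks of the skeleton of depth `H` -/
def Blk (l H o j : ℕ) : Prop :=
  o + len l j ≤ len l H ∧ ∀ p < len l j, op l H (o + p) = o + op l j p

theorem Blk.self (l H : ℕ) : Blk l H 0 H := ⟨by simp, fun p _ => by simp⟩

theorem Blk.left {l H o j : ℕ} (h : Blk l H o (j + 1)) : Blk l H (o + l) j := by
  obtain ⟨h1, h2⟩ := h
  have hlen : len l (j + 1) = 2 * l + 2 * len l j := rfl
  refine ⟨by omega, ?_⟩
  intro p hp
  have := h2 (l + p) (by omega)
  rw [op, if_neg (by omega), if_pos (by omega), show l + p - l = p by omega] at this
  rw [add_assoc, this]
  omega

theorem Blk.right {l H o j : ℕ} (h : Blk l H o (j + 1)) : Blk l H (o + l + len l j) j := by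
  obtain ⟨h1, h2⟩ := h
  have hlen : len l (j + 1) = 2 * l + 2 * len l j := rfl
  refine ⟨by omega, ?_⟩
  intro p hp
  have := h2 (l + len l j + p) (by omega)
  rw [op, if_neg (by omega), if_neg (by omega), if_pos (by omega),
    show l + len l j + p - l - len l j = p by omega] at this
  rw [show o + l + len l j + p = o + (l + len l j + p) by omega, this]
  omega

theorem le_len (l j : ℕ) : 2 * l ≤ len l j := by
  cases j with
  | zero => exact le_rfl
  | succ j => unfold len; omega

theorem Blk.pair {l H o j : ℕ} (h : Blk l H o j) {i : ℕ} (hi : i < l) :
    op l H (o + i) = o + i ∧ op l H (o + (len l j - 1 - i)) = o + i := by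
  obtain ⟨h1, h2⟩ := h
  have hle := le_len l j
  constructor
  · rw [h2 i (by omega)]
    cases j with
    | zero => rw [op, if_pos hi]
    | succ j => rw [op, if_pos hi]
  · rw [h2 _ (by omega)]
    cases j with
    | zero =>
      have : len l 0 = 2 * l := rfl
      rw [op, if_neg (by omega)]
      omega
    | succ j =>
      have : len l (j + 1) = 2 * l + 2 * len l j := rfl
      rw [op, if_neg (by omega), if_neg (by omega), if_neg (by omega)]
      omega

end Pool.Agent.H86.GF
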