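import Pool.Agent.H86.GF.Basic
import Pool.Agent.H86.GF.Dyck

/-!
# The hard language

Helper file for `MP_f868b6_lc`.
-/

set_option autoImplicit false

namespace Pool.Agent.H86.GF

/-- nonterminals of the hard grammar -/
inductive LN (A : Type) : Type
  | S : LN A
  | X (x : A) : LN A
  | Z (κ : Fin 5 ↪ A) : LN A
  | N (κ : Fin 5 ↪ A) (j : ℕ) : LN A

/-- encoding of brackets by letters -/
def enc {A : Type} (κ : Fin 5 ↪ A) : Bool × Bool → A
  | (true, true) => κ 0
  | (true, false) => κ 1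
  | (false, true) => κ 2
  | (false, false) => κ 3

theorem enc_ne {A : Type} (κ : Fin 5 ↪ A) (b : Bool × Bool) : enc κ b ≠ κ 4 := by
  rcases b with ⟨_ | _, _ | _⟩ <;> simp [enc]

theorem enc_inj {A : Type} (κ : Fin 5 ↪ A) : Function.Injective (enc κ) := by
  rintro ⟨_ | _, _ | _⟩ ⟨_ | _, _ | _⟩ <;> simp [enc]

/-- the first five letters -/
def five {A : Type} (κ : Fin 5 ↪ A) : List A := [κ 0, κ 1, κ 2, κ 3, κ 4]

/-- the words -/
def wd {A : Type} (κ : Fin 5 ↪ A) (i : ℕ) (u : List (Bool × Bool)) : List A :=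
  five κ ++ (List.replicate i (κ 4) ++ u.map (enc κ))

/-- the rules of the hard grammar -/
inductive LR (A : Type) (h : ℕ) : ContextFreeRule A (LN A) → Prop
  | sx (x : A) : LR A h ⟨LN.S, [Symbol.nonterminal (LN.X x)]⟩
  | x1 (x : A) : LR A h ⟨LN.X x, [Symbol.terminal x]⟩
  | x2 (x : A) : LR A h ⟨LN.X x, [Symbol.terminal x, Symbol.nonterminal (LN.X x)]⟩
  | sz (κ : Fin 5 ↪ A) : LR A h ⟨LN.S, (five κ).map Symbol.terminal ++
      [Symbol.nonterminal (LN.Z κ)]⟩
  | z1 (κ : Fin 5 ↪ A) : LR A h ⟨LN.Z κ, [Symbol.terminal (κ 4), Symbol.nonterminal (LN.Z κ)]⟩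
  | z2 (κ : Fin 5 ↪ A) : LR A h ⟨LN.Z κ, [Symbol.nonterminal (LN.N κ h)]⟩
  | n1 (κ : Fin 5 ↪ A) (j : ℕ) (b : Bool) : j ≤ h → LR A h ⟨LN.N κ j,
      [Symbol.terminal (enc κ (true, b)), Symbol.nonterminal (LN.N κ j),
        Symbol.terminal (enc κ (false, b))]⟩
  | n2 (κ : Fin 5 ↪ A) (j : ℕ) : j < h → LR A h ⟨LN.N κ (j + 1),
      [Symbol.nonterminal (LN.N κ j), Symbol.nonterminal (LN.N κ j)]⟩
  | n3 (κ : Fin 5 ↪ A) : LR A h ⟨LN.N κ 0, []⟩

theorem LR_finite (A : Type) [Finite A] (h : ℕ) : {r | LR A h r}.Finite := by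
  have : Finite (Fin 5 ↪ A) := inferInstance
  have h1 : {r | LR A h r} ⊆
      Set.range (fun x : A => (⟨LN.S, [Symbol.nonterminal (LN.X x)]⟩ :
        ContextFreeRule A (LN A))) ∪
      Set.range (fun x : A => (⟨LN.X x, [Symbol.terminal x]⟩ : ContextFreeRule A (LN A))) ∪
      Set.range (fun x : A => (⟨LN.X x, [Symbol.terminal x, Symbol.nonterminal (LN.X x)]⟩ :
        ContextFreeRule A (LN A))) ∪
      Set.range (fun κ : Fin 5 ↪ A => (⟨LN.S, (five κ).map Symbol.terminal ++
        [Symbol.nonterminal (LN.Z κ)]⟩ : ContextFreeRule A (LN A))) ∪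
      Set.range (fun κ : Fin 5 ↪ A => (⟨LN.Z κ, [Symbol.terminal (κ 4),
        Symbol.nonterminal (LN.Z κ)]⟩ : ContextFreeRule A (LN A))) ∪
      Set.range (fun κ : Fin 5 ↪ A => (⟨LN.Z κ, [Symbol.nonterminal (LN.N κ h)]⟩ :
        ContextFreeRule A (LN A))) ∪
      Set.range (fun q : (Fin 5 ↪ A) × Fin (h + 1) × Bool => (⟨LN.N q.1 q.2.1,
        [Symbol.terminal (enc q.1 (true, q.2.2)), Symbol.nonterminal (LN.N q.1 q.2.1),
        Symbol.terminal (enc q.1 (false, q.2.2))]⟩ : ContextFreeRule A (LN A))) ∪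
      Set.range (fun q : (Fin 5 ↪ A) × Fin h => (⟨LN.N q.1 (q.2 + 1),
        [Symbol.nonterminal (LN.N q.1 q.2), Symbol.nonterminal (LN.N q.1 q.2)]⟩ :
        ContextFreeRule A (LN A))) ∪
      Set.range (fun κ : Fin 5 ↪ A => (⟨LN.N κ 0, []⟩ : ContextFreeRule A (LN A))) := by
    intro r hr
    cases hr with
    | sx x => repeat' first | exact Or.inr ⟨_, rfl⟩ | exact ⟨_, rfl⟩ | apply Or.inl
    | x1 x => repeat' first | exact Or.inr ⟨_, rfl⟩ | exact ⟨_, rfl⟩ | apply Or.inl
    | x2 x => repeat' first | exact Or.inr ⟨_, rfl⟩ | exact ⟨_, rfl⟩ | apply Or.inl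
    | sz κ => repeat' first | exact Or.inr ⟨_, rfl⟩ | exact ⟨_, rfl⟩ | apply Or.inl
    | z1 κ => repeat' first | exact Or.inr ⟨_, rfl⟩ | exact ⟨_, rfl⟩ | apply Or.inl
    | z2 κ => repeat' first | exact Or.inr ⟨_, rfl⟩ | exact ⟨_, rfl⟩ | apply Or.inl
    | n1 κ j b hj => exact Or.inl (Or.inl (Or.inr ⟨(κ, ⟨j, by omega⟩, b), rfl⟩))
    | n2 κ j hj => exact Or.inl (Or.inr ⟨(κ, ⟨j, hj⟩), rfl⟩)
    | n3 κ => exact Or.inr ⟨κ, rfl⟩
  refine Set.Finite.subset ?_ h1
  repeat' first | exact Set.finite_range _ | apply Set.Finite.union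

/-- the hard grammar -/
noncomputable abbrev LG (A : Type) [Finite A] (h : ℕ) : ContextFreeGrammar A where
  NT := LN A
  initial := LN.S
  rules := (LR_finite A h).toFinset

variable {A : Type} [Finite A] {h : ℕ}

theorem LG_mem {r : ContextFreeRule A (LN A)} : r ∈ (LG A h).rules ↔ LR A h r := by
  unfold LG
  simp

theorem LG_step {X : LN A} {out : List (Symbol A (LN A))} (hr : LR A h ⟨X, out⟩)
    {v : List (Symbol A (LN A))} (hv : (LG A h).Derives out v) :
    (LG A h).Derives [Symbol.nonterminal X] v :=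
  (Relation.ReflTransGen.single ⟨⟨X, out⟩, LG_mem.2 hr,
    ContextFreeRule.Rewrites.input_output⟩).trans hv

theorem LG_X (x : A) : ∀ n, (LG A h).Derives [Symbol.nonterminal (LN.X x : LN A)]
    ((List.replicate (n + 1) x).map Symbol.terminal) := by
  intro n
  induction n with
  | zero => exact LG_step (LR.x1 x) Relation.ReflTransGen.refl
  | succ n ih =>
    refine LG_step (LR.x2 x) ?_
    have := ih.append_left [Symbol.terminal x]
    simpa [List.replicate_succ] using this

theorem LG_rep (x : A) {n : ℕ} (hn : 1 ≤ n) : List.replicate n x ∈ (LG A h).language := by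
  obtain ⟨n, rfl⟩ : ∃ m, n = m + 1 := ⟨n - 1, by omega⟩
  exact LG_step (LR.sx x) (LG_X x n)

theorem LG_N {j : ℕ} {u : List (Bool × Bool)} (hu : NN j u) : ∀ (κ : Fin 5 ↪ A), j ≤ h →
    (LG A h).Derives [Symbol.nonterminal (LN.N κ j : LN A)]
      ((u.map (enc κ)).map Symbol.terminal) := by
  induction hu with
  | nil =>
    intro κ _
    exact LG_step (LR.n3 κ) Relation.ReflTransGen.refl
  | @wrap b j v _ ih =>
    intro κ hj
    refine LG_step (LR.n1 κ j b hj) ?_
    have := ((ih κ hj).append_left [Symbol.terminal (enc κ (true, b))]).append_right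
      [Symbol.terminal (enc κ (false, b))]
    simpa using this
  | @cat j v v' _ _ ih1 ih2 =>
    intro κ hj
    refine LG_step (LR.n2 κ j (by omega)) ?_
    have := derives_append' (ih1 κ (by omega)) (ih2 κ (by omega))
    simpa using this

theorem LG_Z {u : List (Bool × Bool)} (hu : NN h u) (κ : Fin 5 ↪ A) (i : ℕ) :
    (LG A h).Derives [Symbol.nonterminal (LN.Z κ : LN A)]
      ((List.replicate i (κ 4) ++ u.map (enc κ)).map Symbol.terminal) := by
  induction i with
  | zero => exact LG_step (LR.z2 κ) (by simpa using LG_N hu κ le_rfl)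
  | succ i ih =>
    refine LG_step (LR.z1 κ) ?_
    have := ih.append_left [Symbol.terminal (κ 4)]
    simpa [List.replicate_succ] using this

theorem LG_wd {u : List (Bool × Bool)} (hu : NN h u) (κ : Fin 5 ↪ A) (i : ℕ) :
    wd κ i u ∈ (LG A h).language := by
  refine LG_step (LR.sz κ) ?_
  have := (LG_Z hu κ i).append_left ((five κ).map Symbol.terminal)
  simpa [wd] using this

/-- the invariant -/
def LI : LN A → Set (List A)
  | LN.S => {w | (∃ x n, w = List.replicate n x) ∨
      ∃ κ i v, w = wd κ i v ∧ ∀ st, runB v st = some st}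
  | LN.X x => {w | ∃ n, w = List.replicate n x}
  | LN.Z κ => {w | ∃ i v, w = List.replicate i (κ 4) ++ v.map (enc κ) ∧
      ∀ st, runB v st = some st}
  | LN.N κ _ => {w | ∃ v, w = v.map (enc κ) ∧ ∀ st, runB v st = some st}

theorem LG_sound {w : List A} (hw : w ∈ (LG A h).language) : w ∈ LI (A := A) LN.S := by
  have key : w ∈ Lang (LI (A := A)) [Symbol.nonterminal LN.S] := by
    refine lang_sound (g := LG A h) (I := LI) ?_ hw
    intro r hr
    have hr' := LG_mem.1 hr
    cases hr' with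
    | sx x =>
      rintro w ⟨u, ⟨n, rfl⟩, v, rfl, rfl⟩
      exact Or.inl ⟨x, n, by simp⟩
    | x1 x =>
      rintro w ⟨v, rfl, rfl⟩
      exact ⟨1, rfl⟩
    | x2 x =>
      rintro w ⟨v, ⟨u, ⟨n, rfl⟩, v', rfl, rfl⟩, rfl⟩
      exact ⟨n + 1, by simp [List.replicate_succ]⟩
    | sz κ =>
      intro w hw
      rw [lang_append] at hw
      obtain ⟨u, hu, v, ⟨v1, ⟨i, v2, rfl, hv2⟩, v3, rfl, rfl⟩, rfl⟩ := hw
      rw [lang_terminals_iff] at hu
      subst hu
      exact Or.inr ⟨κ, i, v2, by simp [wd], hv2⟩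
    | z1 κ =>
      rintro w ⟨v, ⟨u, ⟨i, v1, rfl, hv1⟩, v', rfl, rfl⟩, rfl⟩
      exact ⟨i + 1, v1, by simp [List.replicate_succ], hv1⟩
    | z2 κ =>
      rintro w ⟨u, ⟨v1, rfl, hv1⟩, v', rfl, rfl⟩
      exact ⟨0, v1, by simp, hv1⟩
    | n1 κ j b hj =>
      rintro w ⟨v, ⟨u, ⟨v1, rfl, hv1⟩, v', ⟨v3, rfl, rfl⟩, rfl⟩, rfl⟩
      refine ⟨(true, b) :: (v1 ++ [(false, b)]), by simp, ?_⟩
      intro st
      rw [runB, runB_append, hv1]
      simp [runB]
    | n2 κ j hj =>
      rintro w ⟨u, ⟨v1, rfl, hv1⟩, v', ⟨u2, ⟨v2, rfl, hv2⟩, v3, rfl, rfl⟩, rfl⟩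
      refine ⟨v1 ++ v2, by simp, ?_⟩
      intro st
      rw [runB_append, hv1, Option.bind_some, hv2]
    | n3 κ =>
      rintro w rfl
      exact ⟨[], rfl, fun st => rfl⟩
  obtain ⟨u, hu, v, rfl, rfl⟩ := key
  simpa using hu

omit [Finite A] in
theorem rep_inj {z : A} {e : Bool × Bool → A} (he : ∀ b, e b ≠ z) (hinj : Function.Injective e)
    {u v : List (Bool × Bool)} : ∀ {i j : ℕ},
    List.replicate i z ++ u.map e = List.replicate j z ++ v.map e → u = v := by
  intro i
  induction i with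
  | zero =>
    intro j hij
    cases j with
    | zero => simpa using (List.map_injective_iff.2 hinj) (by simpa using hij)
    | succ j =>
      cases u with
      | nil => simp [List.replicate_succ] at hij
      | cons b u =>
        simp only [List.replicate_zero, List.nil_append, List.map_cons, List.replicate_succ,
          List.cons_append, List.cons.injEq] at hij
        exact absurd hij.1 (he b)
  | succ i ih =>
    intro j hij
    cases j with
    | zero =>
      cases v with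
      | nil => simp [List.replicate_succ] at hij
      | cons b v =>
        simp only [List.replicate_zero, List.nil_append, List.map_cons, List.replicate_succ,
          List.cons_append, List.cons.injEq] at hij
        exact absurd hij.1.symm (he b)
    | succ j =>
      simp only [List.replicate_succ, List.cons_append, List.cons.injEq, true_and] at hij
      exact ih hij

theorem LG_wd_run {u : List (Bool × Bool)} {κ : Fin 5 ↪ A} {i : ℕ}
    (hw : wd κ i u ∈ (LG A h).language) : ∀ st, runB u st = some st := by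
  rcases LG_sound hw with ⟨x, n, hx⟩ | ⟨κ', j, v, hv, hrun⟩
  · exfalso
    have h0 : κ 0 ∈ List.replicate n x := by rw [← hx]; simp [wd, five]
    have h1 : κ 1 ∈ List.replicate n x := by rw [← hx]; simp [wd, five]
    have e0 := (List.mem_replicate.1 h0).2
    have e1 := (List.mem_replicate.1 h1).2
    have := κ.injective (e0.trans e1.symm)
    simp at this
  · simp only [wd, five, List.cons_append, List.nil_append, List.cons.injEq] at hv
    obtain ⟨h0, h1, h2, h3, h4, h5⟩ := hv
    have hk : κ = κ' := by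
      apply DFunLike.ext
      intro x
      fin_cases x <;> assumption
    subst hk
    have := rep_inj (enc_ne κ) (enc_inj κ) h5
    subst this
    exact hrun

end Pool.Agent.H86.GF
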