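import Pool.Agent.H86.GF.Pat
import Pool.Agent.H86.GF.LG

/-!
# Fooling sets

Helper file for `MP_f868b6_lc`.
-/

set_option autoImplicit false

namespace Pool.Agent.H86.GF

open Fo

theorem mix_get {α : Type*} {p y q p' y' q' : List α} (h1 : p.length = p'.length)
    (h2 : y.length = y'.length) (i : ℕ) :
    (p ++ y' ++ q)[i]? = if p.length ≤ i ∧ i < p.length + y.length then (p' ++ y' ++ q')[i]?
      else (p ++ y ++ q)[i]? := by
  rw [List.append_assoc, List.append_assoc, List.append_assoc]
  split_ifs with h
  · rw [List.getElem?_append_right (l₁ := p) h.1, List.getElem?_append_right (l₁ := p') (by omega),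
      List.getElem?_append_left (l₁ := y') (by omega),
      List.getElem?_append_left (l₁ := y') (by omega), h1]
  · by_cases h3 : i < p.length
    · rw [List.getElem?_append_left h3, List.getElem?_append_left h3]
    · rw [List.getElem?_append_right (by omega), List.getElem?_append_right (by omega),
        List.getElem?_append_right (by omega), List.getElem?_append_right (by omega), h2]

theorem get_congr {α : Type*} (C : List α) (L : ℕ) (e : ℕ → Bool → α) {u u' : ℕ → Bool} {i : ℕ}
    (h : C.length ≤ i → u (i - C.length) = u' (i - C.length)) :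
    (C ++ (List.range L).map (fun p => e p (u p)))[i]? =
      (C ++ (List.range L).map (fun p => e p (u' p)))[i]? := by
  by_cases hi : i < C.length
  · rw [List.getElem?_append_left hi, List.getElem?_append_left hi]
  · rw [List.getElem?_append_right (by omega), List.getElem?_append_right (by omega),
      List.getElem?_map, List.getElem?_map]
    by_cases hi2 : i - C.length < L
    · rw [List.getElem?_range hi2, Option.map_some, Option.map_some, h (by omega)]
    · rw [List.getElem?_eq_none (by simpa using hi2)]
      rfl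

theorem wd_eq {A : Type} (κ : Fin 5 ↪ A) (i l h : ℕ) (u : ℕ → Bool) :
    wd κ i (W l h u) = (five κ ++ List.replicate i (κ 4)) ++
      (List.range (len l h)).map
        (fun p => (fun (p : ℕ) (b : Bool) => enc κ (decide (op l h p = p), b)) p (u p)) := by
  simp [wd, W]

/-- the opening positions -/
def Op (l h : ℕ) : Finset ℕ := (Finset.range (len l h)).filter (fun x => op l h x = x)

open Classical in
/-- the opening positions whose pairs are separated by an interval -/
noncomputable def Cr (l h A0 P Q : ℕ) : Finset ℕ :=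
  (Finset.range (len l h)).filter (fun x => ∃ y z, y < len l h ∧ z < len l h ∧
    (P ≤ A0 + y ∧ A0 + y < Q) ∧ ¬ (P ≤ A0 + z ∧ A0 + z < Q) ∧ op l h y = x ∧ op l h z = x)

theorem mem_Cr {l h A0 P Q x : ℕ} : x ∈ Cr l h A0 P Q ↔ ∃ y z, y < len l h ∧ z < len l h ∧
    (P ≤ A0 + y ∧ A0 + y < Q) ∧ ¬ (P ≤ A0 + z ∧ A0 + z < Q) ∧ op l h y = x ∧ op l h z = x := by
  classical
  unfold Cr
  rw [Finset.mem_filter, Finset.mem_range]
  constructor
  · exact fun h => h.2
  · rintro ⟨y, z, hy, hz, h1, h2, h3, h4⟩
    refine ⟨?_, y, z, hy, hz, h1, h2, h3, h4⟩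
    have := op_le hy
    omega

theorem Cr_subset {l h A0 P Q : ℕ} : Cr l h A0 P Q ⊆ Op l h := by
  intro x hx
  obtain ⟨y, z, hy, hz, h1, h2, h3, h4⟩ := mem_Cr.1 hx
  unfold Op
  rw [Finset.mem_filter, Finset.mem_range]
  have := op_le hy
  refine ⟨by omega, ?_⟩
  rw [← h3]
  exact op_op hy

/-- the labels given by a set -/
def lab (l h : ℕ) (s : Finset ℕ) (q : ℕ) : Bool := decide (op l h q ∈ s)

variable {A : Type} [Finite A] {h : ℕ}

theorem lab_mem (κ : Fin 5 ↪ A) (i l : ℕ) (s : Finset ℕ) :
    wd κ i (W l h (lab l h s)) ∈ (LG A h).language := by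
  apply LG_wd
  apply NN_W
  intro p hp
  unfold lab
  rw [op_op hp]

omit [Finite A] in
theorem wd_length (κ : Fin 5 ↪ A) (i l : ℕ) (u : ℕ → Bool) :
    (wd κ i (W l h u)).length = 5 + i + len l h := by
  rw [wd_eq]
  simp [five]
  omega

/-- Mixing of two words. -/
theorem mix {H : ContextFreeGrammar A} (hH : EqUpToEmpty H.language (LG A h).language)
    {κ : Fin 5 ↪ A} {i l : ℕ} {s s' : Finset ℕ} {f f' : Fo A H.NT} (hf : Valid H f)
    (hf' : Valid H f') (hr : roots f = [Symbol.nonterminal H.initial])
    (hy : yield f = wd κ i (W l h (lab l h s))) (hy' : yield f' = wd κ i (W l h (lab l h s')))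
    {p p' q q' : List A} {B : H.NT} {ch ch' : Fo A H.NT} (ho : Occ f p B ch q)
    (ho' : Occ f' p' B ch' q') (h1 : p.length = p'.length)
    (h2 : (yield ch).length = (yield ch').length) :
    ∀ x ∈ Cr l h (5 + i) p.length (p.length + (yield ch).length), x ∈ s ↔ x ∈ s' := by
  have hd1 := ho.derives hf
  rw [hr] at hd1
  have hv' := ho'.valid hf'
  have hd2 : H.Derives [Symbol.nonterminal B] ((yield ch').map Symbol.terminal) :=
    (Relation.ReflTransGen.single ⟨_, hv'.1, ContextFreeRule.Rewrites.input_output⟩).trans
      (valid_derives hv'.2)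
  have hd3 : p ++ yield ch' ++ q ∈ H.language := by
    have := hd1.trans ((hd2.append_left (p.map Symbol.terminal)).append_right
      (q.map Symbol.terminal))
    change H.Derives [Symbol.nonterminal H.initial] ((p ++ yield ch' ++ q).map Symbol.terminal)
    simpa using this
  -- the mixed labels
  let v : ℕ → Bool := fun x => if p.length ≤ (5 + i) + x ∧ (5 + i) + x <
    p.length + (yield ch).length then lab l h s' x else lab l h s x
  have heq : p ++ yield ch' ++ q = wd κ i (W l h v) := by
    apply List.ext_getElem?
    intro j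
    rw [mix_get (y := yield ch) (p' := p') (q' := q') h1 h2, ← ho'.yield_eq, ← ho.yield_eq, hy,
      hy', wd_eq, wd_eq, wd_eq]
    have hlen : (five κ ++ List.replicate i (κ 4)).length = 5 + i := by
      simp [five]
      omega
    split_ifs with hj
    · refine get_congr (five κ ++ List.replicate i (κ 4)) (len l h)
        (fun (p : ℕ) (b : Bool) => enc κ (decide (op l h p = p), b)) (u := lab l h s') (u' := v) ?_
      rw [hlen]
      intro hle
      simp only [v]
      rw [if_pos (by omega)]
    · refine get_congr (five κ ++ List.replicate i (κ 4)) (len l h)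
        (fun (p : ℕ) (b : Bool) => enc κ (decide (op l h p = p), b)) (u := lab l h s) (u' := v) ?_
      rw [hlen]
      intro hle
      simp only [v]
      rw [if_neg (by omega)]
  rw [heq] at hd3
  have hne : wd κ i (W l h v) ≠ [] := by
    intro e
    have := congrArg List.length e
    rw [wd_length] at this
    simp at this
  have hd4 := (hH _ hne).1 hd3
  have hrun := LG_wd_run hd4 []
  obtain ⟨_, hu⟩ := runB_W hrun
  intro x hx
  obtain ⟨y, z, hy, hz, h3, h4, h5, h6⟩ := mem_Cr.1 hx
  have e1 := hu y hy
  have e2 := hu z hz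
  rw [h5] at e1
  rw [h6] at e2
  have e3 : v y = v z := e1.trans e2.symm
  simp only [v] at e3
  rw [if_pos h3, if_neg h4] at e3
  unfold lab at e3
  rw [h5, h6] at e3
  have := decide_eq_decide.1 e3
  exact this.symm

/-- There is a word with a derivation forest all of whose nodes separate few pairs. -/
theorem fool {H : ContextFreeGrammar A} (hH : EqUpToEmpty H.language (LG A h).language)
    (κ : Fin 5 ↪ A) (i l Gb : ℕ)
    (hG : (5 + i + len l h + 1) ^ 2 * H.rules.card < 2 ^ (Gb + 1)) :
    ∃ (s : Finset ℕ) (f : Fo A H.NT), Valid H f ∧ roots f = [Symbol.nonterminal H.initial] ∧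
      yield f = wd κ i (W l h (lab l h s)) ∧
      ∀ p B ch q, Occ f p B ch q →
        (Cr l h (5 + i) p.length (p.length + (yield ch).length)).card ≤ Gb := by
  classical
  by_contra hcon
  push Not at hcon
  have hex : ∀ s : Finset ℕ, ∃ (f : Fo A H.NT), Valid H f ∧
      roots f = [Symbol.nonterminal H.initial] ∧ yield f = wd κ i (W l h (lab l h s)) := by
    intro s
    have h1 : wd κ i (W l h (lab l h s)) ≠ [] := by
      intro e
      have := congrArg List.length e
      rw [wd_length] at this
      simp at this
    have h2 := (hH _ h1).2 (lab_mem κ i l s)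
    obtain ⟨n, hn⟩ := Der.of_derives h2
    exact exists_forest hn _ rfl
  choose f hf hr hy using hex
  have hex2 := fun s => hcon s (f s) (hf s) (hr s) (hy s)
  choose p B ch q ho hc using hex2
  let F : Finset ℕ → ℕ × ℕ × H.NT := fun s => ((p s).length, (yield (ch s)).length, B s)
  let n := 5 + i + len l h
  let t : Finset (ℕ × ℕ × H.NT) := Finset.range (n + 1) ×ˢ (Finset.range (n + 1) ×ˢ
    (H.rules.image (fun r => r.input)))
  have hlen : ∀ s, (p s).length + (yield (ch s)).length + (q s).length = n := by
    intro s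
    have e := congrArg List.length (ho s).yield_eq
    rw [hy, wd_length] at e
    simp only [List.length_append] at e
    omega
  have hmaps : ∀ s ∈ (Op l h).powerset, F s ∈ t := by
    intro s _
    have := hlen s
    simp only [t, F, Finset.mem_product, Finset.mem_range, Finset.mem_image]
    exact ⟨by omega, by omega, _, ((ho s).valid (hf s)).1, rfl⟩
  have hOp : Gb + 1 ≤ (Op l h).card := le_trans (hc ∅) (Finset.card_le_card Cr_subset)
  have htc : t.card ≤ (n + 1) ^ 2 * H.rules.card := by
    simp only [t, Finset.card_product, Finset.card_range]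
    have := Finset.card_image_le (s := H.rules) (f := fun r => r.input)
    calc (n + 1) * ((n + 1) * (H.rules.image (fun r => r.input)).card)
        ≤ (n + 1) * ((n + 1) * H.rules.card) := by gcongr
      _ = (n + 1) ^ 2 * H.rules.card := by ring
  have hlt : t.card * 2 ^ ((Op l h).card - (Gb + 1)) < (Op l h).powerset.card := by
    rw [Finset.card_powerset]
    calc t.card * 2 ^ ((Op l h).card - (Gb + 1))
        < 2 ^ (Gb + 1) * 2 ^ ((Op l h).card - (Gb + 1)) := by
          apply Nat.mul_lt_mul_of_pos_right (lt_of_le_of_lt htc hG)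
          positivity
      _ = 2 ^ (Op l h).card := by
          rw [← pow_add]
          congr 1
          omega
  obtain ⟨⟨P, Q, B0⟩, _, hfib⟩ := Finset.exists_lt_card_fiber_of_mul_lt_card_of_maps_to hmaps hlt
  -- two sets of the fiber agree on the separated pairs
  set D := (Op l h).powerset.filter (fun s => F s = (P, Q, B0)) with hD
  have hagree : ∀ s ∈ D, ∀ s' ∈ D, ∀ x ∈ Cr l h (5 + i) P (P + Q), x ∈ s ↔ x ∈ s' := by
    intro s hs s' hs' x hx
    rw [hD, Finset.mem_filter] at hs hs'
    have e1 := hs.2
    have e2 := hs'.2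
    simp only [F, Prod.mk.injEq] at e1 e2
    obtain ⟨a1, a2, a3⟩ := e1
    obtain ⟨b1, b2, b3⟩ := e2
    have hB : B s = B s' := a3.trans b3.symm
    have ho' := ho s'
    rw [← hB] at ho'
    refine mix hH (hf s) (hf s') (hr s) (hy s) (hy s') (ho s) ho' (a1.trans b1.symm)
      (a2.trans b2.symm) x ?_
    rw [a1, a2]
    exact hx
  have hDne : D.Nonempty := by
    rw [← Finset.card_pos]
    exact lt_of_le_of_lt (Nat.zero_le _) hfib
  obtain ⟨s0, hs0⟩ := hDne
  have hCr : Gb + 1 ≤ (Cr l h (5 + i) P (P + Q)).card := by
    rw [hD, Finset.mem_filter] at hs0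
    have e1 := hs0.2
    simp only [F, Prod.mk.injEq] at e1
    obtain ⟨a1, a2, a3⟩ := e1
    have := hc s0
    rw [a1, a2] at this
    exact this
  have hcard : D.card ≤ ((Op l h) \ Cr l h (5 + i) P (P + Q)).powerset.card := by
    apply Finset.card_le_card_of_injOn (fun s => s \ Cr l h (5 + i) P (P + Q))
    · intro s hs
      rw [Finset.mem_coe, hD, Finset.mem_filter, Finset.mem_powerset] at hs
      rw [Finset.mem_coe, Finset.mem_powerset]
      exact Finset.sdiff_subset_sdiff hs.1 (Finset.Subset.refl _)
    · intro s hs s' hs' he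
      ext x
      by_cases hx : x ∈ Cr l h (5 + i) P (P + Q)
      · exact hagree s hs s' hs' x hx
      · have := congrArg (fun S : Finset ℕ => x ∈ S) he
        simp only [Finset.mem_sdiff, hx, not_false_eq_true, and_true, eq_iff_iff] at this
        exact this
  rw [Finset.card_powerset, Finset.card_sdiff_of_subset Cr_subset] at hcard
  have : 2 ^ ((Op l h).card - (Cr l h (5 + i) P (P + Q)).card) ≤
      2 ^ ((Op l h).card - (Gb + 1)) := Nat.pow_le_pow_right (by norm_num) (by omega)
  omega

end Pool.Agent.H86.GF
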