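import Pool.Agent.H86.GF.Basic

/-!
# Derivation forests

Helper file for `MP_f868b6_lc`.
-/

set_option autoImplicit false

namespace Pool.Agent.H86.GF

/-- Derivation forests: `nt B ch f` is the forest whose first tree has the root `B` and the
subtrees `ch` below it, followed by the forest `f`. -/
inductive Fo (T N : Type) : Type
  | nil : Fo T N
  | tm (a : T) (f : Fo T N) : Fo T N
  | nt (B : N) (ch f : Fo T N) : Fo T N

namespace Fo

variable {T N : Type}

/-- the roots -/
def roots : Fo T N → List (Symbol T N)
  | nil => []
  | tm a f => Symbol.terminal a :: roots f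
  | nt B _ f => Symbol.nonterminal B :: roots f

/-- the word at the leaves -/
def yield : Fo T N → List T
  | nil => []
  | tm a f => a :: yield f
  | nt _ ch f => yield ch ++ yield f

/-- all nodes are applications of rules -/
def Valid (g : ContextFreeGrammar T) : Fo T g.NT → Prop
  | nil => True
  | tm _ f => Valid g f
  | nt B ch f => (⟨B, roots ch⟩ : ContextFreeRule T g.NT) ∈ g.rules ∧ Valid g ch ∧ Valid g f

/-- `Occ f p B ch s`: there is a node `B` with the subtrees `ch` in `f`, with `p` to the left of it
and `s` to the right of it -/
inductive Occ : Fo T N → List T → N → Fo T N → List T → Prop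
  | here (B : N) (ch f : Fo T N) : Occ (nt B ch f) [] B ch (yield f)
  | down (B : N) {ch : Fo T N} (f : Fo T N) {p : List T} {B' : N} {ch' : Fo T N} {s : List T} :
      Occ ch p B' ch' s → Occ (nt B ch f) p B' ch' (s ++ yield f)
  | rtm (a : T) {f : Fo T N} {p : List T} {B' : N} {ch' : Fo T N} {s : List T} :
      Occ f p B' ch' s → Occ (tm a f) (a :: p) B' ch' s
  | rnt (B : N) (ch : Fo T N) {f : Fo T N} {p : List T} {B' : N} {ch' : Fo T N} {s : List T} :
      Occ f p B' ch' s → Occ (nt B ch f) (yield ch ++ p) B' ch' s

/-- the same for the roots -/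
inductive Root : Fo T N → List T → N → Fo T N → List T → Prop
  | here (B : N) (ch f : Fo T N) : Root (nt B ch f) [] B ch (yield f)
  | rtm (a : T) {f : Fo T N} {p : List T} {B' : N} {ch' : Fo T N} {s : List T} :
      Root f p B' ch' s → Root (tm a f) (a :: p) B' ch' s
  | rnt (B : N) (ch : Fo T N) {f : Fo T N} {p : List T} {B' : N} {ch' : Fo T N} {s : List T} :
      Root f p B' ch' s → Root (nt B ch f) (yield ch ++ p) B' ch' s

theorem Root.occ {f : Fo T N} {p : List T} {B : N} {ch : Fo T N} {s : List T}
    (h : Root f p B ch s) : Occ f p B ch s := by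
  induction h with
  | here B ch f => exact Occ.here B ch f
  | rtm a _ ih => exact Occ.rtm a ih
  | rnt B ch _ ih => exact Occ.rnt B ch ih

theorem Occ.yield_eq {f : Fo T N} {p : List T} {B : N} {ch : Fo T N} {s : List T}
    (h : Occ f p B ch s) : yield f = p ++ yield ch ++ s := by
  induction h with
  | here B ch f => rfl
  | down B f _ ih => simp [yield, ih]
  | rtm a _ ih => simp [yield, ih]
  | rnt B ch _ ih => simp [yield, ih]

theorem Occ.trans {f : Fo T N} {p : List T} {B : N} {ch : Fo T N} {s : List T}
    (h : Occ f p B ch s) {p' : List T} {B' : N} {ch' : Fo T N} {s' : List T}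
    (h' : Occ ch p' B' ch' s') : Occ f (p ++ p') B' ch' (s' ++ s) := by
  induction h with
  | here B ch f => exact Occ.down B f h'
  | down B f _ ih =>
    have := Occ.down B f (ih h')
    simpa using this
  | rtm a _ ih => exact Occ.rtm a (ih h')
  | rnt B ch _ ih =>
    have := Occ.rnt B ch (ih h')
    simpa using this

theorem valid_derives {g : ContextFreeGrammar T} {f : Fo T g.NT} (h : Valid g f) :
    g.Derives (roots f) ((yield f).map Symbol.terminal) := by
  induction f with
  | nil => exact Relation.ReflTransGen.refl
  | tm a f ih => exact (ih h).append_left [Symbol.terminal a]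
  | nt B ch f ih1 ih2 =>
    obtain ⟨h1, h2, h3⟩ := h
    have e1 : g.Derives [Symbol.nonterminal B] ((yield ch).map Symbol.terminal) :=
      (Relation.ReflTransGen.single ⟨_, h1, ContextFreeRule.Rewrites.input_output⟩).trans (ih1 h2)
    have := derives_append' e1 (ih2 h3)
    simpa [roots, yield] using this

theorem Occ.valid {g : ContextFreeGrammar T} {f : Fo T g.NT} (hf : Valid g f) {p : List T}
    {B : g.NT} {ch : Fo T g.NT} {s : List T} (h : Occ f p B ch s) :
    (⟨B, roots ch⟩ : ContextFreeRule T g.NT) ∈ g.rules ∧ Valid g ch := by
  induction h with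
  | here B ch f => exact ⟨hf.1, hf.2.1⟩
  | down B f _ ih => exact ih hf.2.1
  | rtm a _ ih => exact ih hf
  | rnt B ch _ ih => exact ih hf.2.2

theorem Occ.derives {g : ContextFreeGrammar T} {f : Fo T g.NT} (hf : Valid g f) {p : List T}
    {B : g.NT} {ch : Fo T g.NT} {s : List T} (h : Occ f p B ch s) :
    g.Derives (roots f)
      (p.map Symbol.terminal ++ [Symbol.nonterminal B] ++ s.map Symbol.terminal) := by
  induction h with
  | here B ch f =>
    have := (valid_derives hf.2.2).append_left [Symbol.nonterminal B]
    simpa [roots] using this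
  | down B f _ ih =>
    have e1 := (Relation.ReflTransGen.single ⟨_, hf.1,
      ContextFreeRule.Rewrites.input_output⟩).trans (ih hf.2.1)
    have := derives_append' e1 (valid_derives hf.2.2)
    simpa [roots] using this
  | rtm a _ ih =>
    have := (ih hf).append_left [Symbol.terminal a]
    simpa [roots] using this
  | rnt B ch _ ih =>
    have e1 := (Relation.ReflTransGen.single ⟨_, hf.1,
      ContextFreeRule.Rewrites.input_output⟩).trans (valid_derives hf.2.1)
    have := derives_append' e1 (ih hf.2.2)
    simpa [roots] using this

theorem Occ.mem_left {f : Fo T N} {p : List T} {B : N} {ch : Fo T N} {s : List T}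
    (h : Occ f p B ch s) {x : T} (hx : x ∈ p) : x ∈ yield f := by
  rw [h.yield_eq]; simp [hx]

theorem Occ.mem_right {f : Fo T N} {p : List T} {B : N} {ch : Fo T N} {s : List T}
    (h : Occ f p B ch s) {x : T} (hx : x ∈ s) : x ∈ yield f := by
  rw [h.yield_eq]; simp [hx]

theorem Occ.mem_mid {f : Fo T N} {p : List T} {B : N} {ch : Fo T N} {s : List T}
    (h : Occ f p B ch s) {x : T} (hx : x ∈ yield ch) : x ∈ yield f := by
  rw [h.yield_eq]; simp [hx]

theorem Occ.two {g : ContextFreeGrammar T} {f : Fo T g.NT} {p1 : List T}
    {B1 : g.NT} {ch1 : Fo T g.NT} {s1 : List T} (h1 : Occ f p1 B1 ch1 s1)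
    (hn1 : yield ch1 ≠ []) :
    ∀ {p2 : List T} {B2 : g.NT} {ch2 : Fo T g.NT} {s2 : List T}, Valid g f →
      Occ f p2 B2 ch2 s2 → yield ch2 ≠ [] → p1.length + (yield ch1).length ≤ p2.length →
      ∃ mid : List T, (∀ x ∈ mid, x ∈ yield f) ∧
        g.Derives (roots f) (p1.map Symbol.terminal ++ [Symbol.nonterminal B1] ++
        mid.map Symbol.terminal ++ [Symbol.nonterminal B2] ++ s2.map Symbol.terminal) := by
  induction h1 with
  | here B ch f =>
    intro p2 B2 ch2 s2 hf h2 hn2 hl
    have hpos : 0 < (yield ch).length := List.length_pos_iff.2 hn1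
    cases h2 with
    | here => simp only [List.length_nil] at hl; omega
    | down _ _ h2 =>
      have := h2.yield_eq
      have e := congrArg List.length this
      simp at e hl
      have : 0 < (yield ch2).length := List.length_pos_iff.2 hn2
      omega
    | @rnt _ _ _ p _ _ _ h2 =>
      refine ⟨p, fun x hx => ?_, ?_⟩
      · simp [yield, h2.mem_left hx]
      · have := (h2.derives hf.2.2).append_left [Symbol.nonterminal B]
        simpa [roots] using this
  | @down B ch f p B1 ch1 s1 h1 ih =>
    intro p2 B2 ch2 s2 hf h2 hn2 hl
    have hpos : 0 < (yield ch1).length := List.length_pos_iff.2 hn1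
    have e0 : g.Derives [Symbol.nonterminal B] (roots ch) := Relation.ReflTransGen.single
      ⟨_, hf.1, ContextFreeRule.Rewrites.input_output⟩
    cases h2 with
    | here => simp only [List.length_nil] at hl; omega
    | down _ _ h2 =>
      obtain ⟨mid, hm, hmid⟩ := ih hn1 hf.2.1 h2 hn2 hl
      refine ⟨mid, fun x hx => ?_, ?_⟩
      · simp [yield, hm x hx]
      · have := derives_append' (e0.trans hmid) (valid_derives hf.2.2)
        simpa [roots] using this
    | @rnt _ _ _ p2' _ _ _ h2 =>
      refine ⟨s1 ++ p2', fun x hx => ?_, ?_⟩
      · rcases List.mem_append.1 hx with hx | hx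
        · simp [yield, h1.mem_right hx]
        · simp [yield, h2.mem_left hx]
      · have := derives_append' (e0.trans (h1.derives hf.2.1)) (h2.derives hf.2.2)
        simpa [roots] using this
  | rtm a h1 ih =>
    intro p2 B2 ch2 s2 hf h2 hn2 hl
    cases h2 with
    | rtm _ h2 =>
      obtain ⟨mid, hm, hmid⟩ := ih hn1 hf h2 hn2 (by simp at hl; omega)
      refine ⟨mid, fun x hx => ?_, ?_⟩
      · simp [yield, hm x hx]
      · have := hmid.append_left [Symbol.terminal a]
        simpa [roots] using this
  | @rnt B ch f p B1 ch1 s1 h1 ih =>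
    intro p2 B2 ch2 s2 hf h2 hn2 hl
    have hpos : 0 < (yield ch1).length := List.length_pos_iff.2 hn1
    cases h2 with
    | here => simp only [List.length_nil] at hl; omega
    | down _ _ h2 =>
      have := h2.yield_eq
      have e := congrArg List.length this
      simp at e hl
      omega
    | rnt _ _ h2 =>
      obtain ⟨mid, hm, hmid⟩ := ih hn1 hf.2.2 h2 hn2 (by simp at hl; omega)
      refine ⟨mid, fun x hx => ?_, ?_⟩
      · simp [yield, hm x hx]
      · have e1 := (Relation.ReflTransGen.single ⟨_, hf.1,
          ContextFreeRule.Rewrites.input_output⟩).trans (valid_derives hf.2.1)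
        have := derives_append' e1 hmid
        simpa [roots] using this

theorem exists_forest {g : ContextFreeGrammar T} {n : ℕ} {u v : List (Symbol T g.NT)}
    (h : Der g n u v) : ∀ w : List T, v = w.map Symbol.terminal →
      ∃ f : Fo T g.NT, Valid g f ∧ roots f = u ∧ yield f = w := by
  induction h with
  | nil =>
    intro w hw
    have : w = [] := by simpa using hw.symm
    subst this
    exact ⟨nil, trivial, rfl, rfl⟩
  | keep s _ ih =>
    intro w hw
    cases w with
    | nil => simp at hw
    | cons x w =>
      rw [List.map_cons, List.cons.injEq] at hw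
      obtain ⟨rfl, hw⟩ := hw
      obtain ⟨f, h1, h2, h3⟩ := ih w hw
      exact ⟨tm x f, h1, by simp [roots, h2], by simp [yield, h3]⟩
  | @expand n1 n2 r u v1 v2 hr _ _ ih1 ih2 =>
    intro w hw
    obtain ⟨w1, w2, rfl, h1, h2⟩ := List.map_eq_append_iff.1 hw.symm
    obtain ⟨f1, a1, a2, a3⟩ := ih1 w1 h1.symm
    obtain ⟨f2, b1, b2, b3⟩ := ih2 w2 h2.symm
    refine ⟨nt r.input f1 f2, ⟨?_, a1, b1⟩, by simp [roots, b2], by simp [yield, a3, b3]⟩
    rw [a2]
    exact hr

/-- Location of an interval of positions: either no root contains it, or there is a lowest node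
which contains it. -/
theorem locate (f : Fo T N) : ∀ (a b : ℕ), a < b → b ≤ (yield f).length →
    (¬ ∃ p B ch s, Root f p B ch s ∧ p.length ≤ a ∧ b ≤ p.length + (yield ch).length) ∨
    ∃ p B ch s, Occ f p B ch s ∧ p.length ≤ a ∧ b ≤ p.length + (yield ch).length ∧
      ¬ ∃ p' B' ch' s', Root ch p' B' ch' s' ∧ p.length + p'.length ≤ a ∧
        b ≤ p.length + p'.length + (yield ch').length := by
  induction f with
  | nil =>
    intro a b _ _
    left
    rintro ⟨p, B, ch, s, h, _⟩
    cases h
  | tm x f ih =>
    intro a b hab hb
    simp only [yield, List.length_cons] at hb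
    cases a with
    | zero =>
      left
      rintro ⟨p, B, ch, s, h, h1, _⟩
      cases h
      simp at h1
    | succ a =>
      obtain ⟨b, rfl⟩ : ∃ b', b = b' + 1 := ⟨b - 1, by omega⟩
      rcases ih a b (by omega) (by omega) with h | ⟨p, B, ch, s, h, h1, h2, h3⟩
      · left
        rintro ⟨p, B, ch, s, h', h1, h2⟩
        cases h' with
        | rtm _ h' =>
          apply h
          refine ⟨_, _, _, _, h', ?_, ?_⟩
          · simp at h1; omega
          · simp at h2; omega
      · right
        refine ⟨x :: p, B, ch, s, Occ.rtm x h, by simp; omega, by simp; omega, ?_⟩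
        rintro ⟨p', B', ch', s', h', h4, h5⟩
        apply h3
        refine ⟨p', B', ch', s', h', ?_, ?_⟩
        · simp at h4; omega
        · simp at h5; omega
  | nt B ch f ih1 ih2 =>
    intro a b hab hb
    simp only [yield, List.length_append] at hb
    by_cases hb1 : b ≤ (yield ch).length
    · right
      rcases ih1 a b hab hb1 with h | ⟨p, B', ch', s, h, h1, h2, h3⟩
      · refine ⟨[], B, ch, yield f, Occ.here B ch f, by simp, by simpa using hb1, ?_⟩
        rintro ⟨p', B', ch', s', h', h4, h5⟩
        apply h
        exact ⟨p', B', ch', s', h', by simpa using h4, by simpa using h5⟩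
      · exact ⟨p, B', ch', _, Occ.down B f h, h1, h2, h3⟩
    · by_cases ha1 : (yield ch).length ≤ a
      · rcases ih2 (a - (yield ch).length) (b - (yield ch).length) (by omega) (by omega) with
          h | ⟨p, B', ch', s, h, h1, h2, h3⟩
        · left
          rintro ⟨p, B', ch', s, h', h1, h2⟩
          cases h' with
          | here =>
            simp at h2
            omega
          | rnt _ _ h' =>
            apply h
            refine ⟨_, _, _, _, h', ?_, ?_⟩
            · simp at h1; omega
            · simp at h2; omega
        · right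
          refine ⟨yield ch ++ p, B', ch', s, Occ.rnt B ch h, by simp; omega, by simp; omega, ?_⟩
          rintro ⟨p', B'', ch'', s', h', h4, h5⟩
          apply h3
          refine ⟨p', B'', ch'', s', h', ?_, ?_⟩
          · simp at h4; omega
          · simp at h5; omega
      · left
        rintro ⟨p, B', ch', s, h', h1, h2⟩
        cases h' with
        | here =>
          simp at h2
          omega
        | rnt _ _ h' =>
          simp at h1
          omega

/-- Counting: if each root contains at most `G` of the positions `a i`, then there are at most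
`(G + 1)` times the number of roots positions. -/
theorem count_roots (f : Fo T N) (a : ℕ → ℕ) (G : ℕ) : ∀ (P : ℕ) (I : Finset ℕ),
    (∀ i ∈ I, P ≤ a i ∧ a i < P + (yield f).length) → Set.InjOn a I →
    (∀ p B ch s, Root f p B ch s → (I.filter (fun i => P + p.length ≤ a i ∧
      a i < P + p.length + (yield ch).length)).card ≤ G) →
    I.card ≤ (roots f).length * (G + 1) := by
  induction f with
  | nil =>
    intro P I h _ _
    have : I = ∅ := by
      rw [Finset.eq_empty_iff_forall_notMem]
      intro i hi
      have := h i hi
      simp [yield] at this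
      omega
    simp [this]
  | tm x f ih =>
    intro P I h hinj hroot
    have h1 : (I.filter (fun i => a i = P)).card ≤ 1 := by
      rw [Finset.card_le_one]
      intro i hi j hj
      simp only [Finset.mem_filter] at hi hj
      exact hinj hi.1 hj.1 (hi.2.trans hj.2.symm)
    have h2 : (I.filter (fun i => ¬ a i = P)).card ≤ (roots f).length * (G + 1) := by
      refine ih (P + 1) _ ?_ ?_ ?_
      · intro i hi
        simp only [Finset.mem_filter] at hi
        have := h i hi.1
        simp [yield] at this
        omega
      · intro i hi j hj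
        simp only [Finset.coe_filter, Set.mem_ofPred_eq] at hi hj
        exact hinj hi.1 hj.1
      · intro p B ch s hr
        refine le_trans (Finset.card_le_card ?_) (hroot _ _ _ _ (Root.rtm x hr))
        intro i hi
        simp only [Finset.mem_filter, List.length_cons] at hi ⊢
        refine ⟨hi.1.1, ?_, ?_⟩ <;> omega
    have h3 := Finset.card_filter_add_card_filter_not (s := I) (fun i => a i = P)
    simp only [roots, List.length_cons, add_mul]
    omega
  | nt B ch f _ ih =>
    intro P I h hinj hroot
    have h1 := hroot _ _ _ _ (Root.here B ch f)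
    simp only [List.length_nil, add_zero] at h1
    have h2 : (I.filter (fun i => ¬ (P ≤ a i ∧ a i < P + (yield ch).length))).card ≤
        (roots f).length * (G + 1) := by
      refine ih (P + (yield ch).length) _ ?_ ?_ ?_
      · intro i hi
        simp only [Finset.mem_filter] at hi
        have := h i hi.1
        simp [yield] at this
        omega
      · intro i hi j hj
        simp only [Finset.coe_filter, Set.mem_ofPred_eq] at hi hj
        exact hinj hi.1 hj.1
      · intro p B' ch' s hr
        refine le_trans (Finset.card_le_card ?_) (hroot _ _ _ _ (Root.rnt B ch hr))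
        intro i hi
        simp only [Finset.mem_filter, List.length_append] at hi ⊢
        refine ⟨hi.1.1, ?_, ?_⟩ <;> omega
    have h3 := Finset.card_filter_add_card_filter_not (s := I)
      (fun i => P ≤ a i ∧ a i < P + (yield ch).length)
    simp only [roots, List.length_cons, add_mul]
    omega

end Fo

end Pool.Agent.H86.GF
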