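import Pool.Agent.H86.GF.Fool

/-!
# Necessity

Helper file for `MP_f868b6_lc`.
-/

set_option autoImplicit false

namespace Pool.Agent.H86.GF

open Fo

section

variable {T N : Type} {f : Fo T N} {l h A0 Gb d : ℕ}

/-- the lowest node which contains the middle part of a block is inside this block -/
theorem inside (hc : ∀ p B ch q, Occ f p B ch q →
      (Cr l h A0 p.length (p.length + (yield ch).length)).card ≤ Gb)
    (hd : ∀ p B ch q, Occ f p B ch q → (roots ch).length ≤ d)
    (hl : l = d * (Gb + 1) + Gb + 1) {o j : ℕ} (hb : Blk l h o j) {p : List T} {B : N}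
    {ch : Fo T N} {q : List T} (ho : Occ f p B ch q) (h1 : p.length ≤ A0 + o + (l - 1))
    (h2 : A0 + o + len l j + 1 - l ≤ p.length + (yield ch).length)
    (h3 : ¬ ∃ p' B' ch' s', Root ch p' B' ch' s' ∧ p.length + p'.length ≤ A0 + o + (l - 1) ∧
      A0 + o + len l j + 1 - l ≤ p.length + p'.length + (yield ch').length) :
    A0 + o ≤ p.length ∧ p.length + (yield ch).length ≤ A0 + o + len l j := by
  classical
  have hlen := le_len l j
  have hb1 := hb.1
  by_contra hcon
  have hcon' : p.length < A0 + o ∨ A0 + o + len l j < p.length + (yield ch).length := by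
    by_contra hno
    apply hcon
    constructor <;> omega
  let I := (Finset.range l).filter (fun i => (p.length ≤ A0 + (o + i) ∧
    A0 + (o + i) < p.length + (yield ch).length) ∧ (p.length ≤ A0 + (o + (len l j - 1 - i)) ∧
    A0 + (o + (len l j - 1 - i)) < p.length + (yield ch).length))
  have hI1 : ((Finset.range l).filter (fun i => ¬ ((p.length ≤ A0 + (o + i) ∧
    A0 + (o + i) < p.length + (yield ch).length) ∧ (p.length ≤ A0 + (o + (len l j - 1 - i)) ∧
    A0 + (o + (len l j - 1 - i)) < p.length + (yield ch).length)))).card ≤ Gb := by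
    refine le_trans (Finset.card_le_card_of_injOn (fun i => o + i) ?_ ?_) (hc p B ch q ho)
    · intro i hi
      rw [Finset.mem_coe, Finset.mem_filter, Finset.mem_range] at hi
      obtain ⟨hi, hn⟩ := hi
      rw [Finset.mem_coe, mem_Cr]
      obtain ⟨e1, e2⟩ := hb.pair hi
      rcases hcon' with hx | hx
      · exact ⟨o + i, o + (len l j - 1 - i), by omega, by omega, by omega, by omega, e1, e2⟩
      · exact ⟨o + (len l j - 1 - i), o + i, by omega, by omega, by omega, by omega, e2, e1⟩
    · intro i _ i' _ he
      simpa using he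
  have hI2 : I.card ≤ (roots ch).length * (Gb + 1) := by
    refine count_roots ch (fun i => A0 + (o + i)) Gb p.length I ?_ ?_ ?_
    · intro i hi
      rw [Finset.mem_filter] at hi
      exact hi.2.1
    · intro i _ i' _ he
      simpa using he
    · intro p' B' ch' s' hr
      have hocc := ho.trans hr.occ
      refine le_trans (Finset.card_le_card_of_injOn (fun i => o + i) ?_ ?_) (hc _ _ _ _ hocc)
      · intro i hi
        rw [Finset.mem_coe, Finset.mem_filter, Finset.mem_filter, Finset.mem_range] at hi
        obtain ⟨⟨hi, hn1, hn2⟩, hn3, hn4⟩ := hi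
        obtain ⟨e1, e2⟩ := hb.pair hi
        rw [Finset.mem_coe, mem_Cr, List.length_append]
        refine ⟨o + i, o + (len l j - 1 - i), by omega, by omega, ⟨hn3, hn4⟩, ?_, e1, e2⟩
        rintro ⟨hn5, hn6⟩
        apply h3
        exact ⟨p', B', ch', s', hr, by omega, by omega⟩
      · intro i _ i' _ he
        simpa using he
  have hI3 := Finset.card_filter_add_card_filter_not (s := Finset.range l)
    (fun i => (p.length ≤ A0 + (o + i) ∧
    A0 + (o + i) < p.length + (yield ch).length) ∧ (p.length ≤ A0 + (o + (len l j - 1 - i)) ∧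
    A0 + (o + (len l j - 1 - i)) < p.length + (yield ch).length))
  rw [Finset.card_range] at hI3
  have hI4 : (roots ch).length * (Gb + 1) ≤ d * (Gb + 1) :=
    Nat.mul_le_mul_right _ (hd p B ch q ho)
  have hI5 : ((Finset.range l).filter (fun i => (p.length ≤ A0 + (o + i) ∧
    A0 + (o + i) < p.length + (yield ch).length) ∧ (p.length ≤ A0 + (o + (len l j - 1 - i)) ∧
    A0 + (o + (len l j - 1 - i)) < p.length + (yield ch).length))).card = I.card := rfl
  omega

/-- Nested blocks force many colours or a pattern. -/
theorem colours {C : Type} (c : N → C) (hc : ∀ p B ch q, Occ f p B ch q →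
      (Cr l h A0 p.length (p.length + (yield ch).length)).card ≤ Gb)
    (hd : ∀ p B ch q, Occ f p B ch q → (roots ch).length ≤ d)
    (hl : l = d * (Gb + 1) + Gb + 1) : ∀ (j o : ℕ), Blk l h o j → ∀ (p : List T) (B : N)
    (ch : Fo T N) (q : List T), Occ f p B ch q → p.length ≤ A0 + o + (l - 1) →
    A0 + o + len l j + 1 - l ≤ p.length + (yield ch).length →
    Pattern c f ∨ ∃ S : Finset C, j + 1 ≤ S.card ∧ ∀ x ∈ S, x = c B ∨
      ∃ p' B' ch' q', Occ ch p' B' ch' q' ∧ yield ch' ≠ [] ∧ c B' = x := by
  classical
  intro j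
  induction j with
  | zero =>
    intro o _ p B ch q _ _ _
    exact Or.inr ⟨{c B}, by simp, fun x hx => Or.inl (Finset.mem_singleton.1 hx)⟩
  | succ j ih =>
    intro o hb p B ch q ho h1 h2
    have hlen : len l (j + 1) = 2 * l + 2 * len l j := rfl
    have hle := le_len l j
    have hl1 : 1 ≤ l := by omega
    -- the left block
    have hL : ∃ p1 B1 ch1 s1, Occ ch p1 B1 ch1 s1 ∧ yield ch1 ≠ [] ∧
        p.length + p1.length ≤ A0 + (o + l) + (l - 1) ∧
        A0 + (o + l) + len l j + 1 - l ≤ p.length + p1.length + (yield ch1).length ∧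
        p.length + p1.length + (yield ch1).length ≤ A0 + (o + l) + len l j := by
      rcases locate ch (A0 + (o + l) + (l - 1) - p.length)
        (A0 + (o + l) + len l j + 1 - l - p.length) (by omega) (by omega) with
        hno | ⟨p1, B1, ch1, s1, ho1, h3, h4, h5⟩
      · exfalso
        have := inside hc hd hl hb.left ho (by omega) (by omega) (by
          rintro ⟨p', B', ch', s', hr, h3, h4⟩
          exact hno ⟨p', B', ch', s', hr, by omega, by omega⟩)
        omega
      · have hin := inside hc hd hl hb.left (ho.trans ho1) (by rw [List.length_append]; omega)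
          (by rw [List.length_append]; omega) (by
          rintro ⟨p', B', ch', s', hr, h6, h7⟩
          rw [List.length_append] at h6 h7
          exact h5 ⟨p', B', ch', s', hr, by omega, by omega⟩)
        rw [List.length_append] at hin
        refine ⟨p1, B1, ch1, s1, ho1, ?_, by omega, by omega, by omega⟩
        rw [← List.length_pos_iff]
        omega
    -- the right block
    have hR : ∃ p1 B1 ch1 s1, Occ ch p1 B1 ch1 s1 ∧ yield ch1 ≠ [] ∧
        p.length + p1.length ≤ A0 + (o + l + len l j) + (l - 1) ∧
        A0 + (o + l + len l j) + len l j + 1 - l ≤ p.length + p1.length + (yield ch1).length ∧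
        A0 + (o + l + len l j) ≤ p.length + p1.length := by
      rcases locate ch (A0 + (o + l + len l j) + (l - 1) - p.length)
        (A0 + (o + l + len l j) + len l j + 1 - l - p.length) (by omega) (by omega) with
        hno | ⟨p1, B1, ch1, s1, ho1, h3, h4, h5⟩
      · exfalso
        have := inside hc hd hl hb.right ho (by omega) (by omega) (by
          rintro ⟨p', B', ch', s', hr, h3, h4⟩
          exact hno ⟨p', B', ch', s', hr, by omega, by omega⟩)
        omega
      · have hin := inside hc hd hl hb.right (ho.trans ho1) (by rw [List.length_append]; omega)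
          (by rw [List.length_append]; omega) (by
          rintro ⟨p', B', ch', s', hr, h6, h7⟩
          rw [List.length_append] at h6 h7
          exact h5 ⟨p', B', ch', s', hr, by omega, by omega⟩)
        rw [List.length_append] at hin
        refine ⟨p1, B1, ch1, s1, ho1, ?_, by omega, by omega, by omega⟩
        rw [← List.length_pos_iff]
        omega
    obtain ⟨pL, BL, chL, sL, hoL, hnL, hL1, hL2, hL3⟩ := hL
    obtain ⟨pR, BR, chR, sR, hoR, hnR, hR1, hR2, hR3⟩ := hR
    rcases ih (o + l) hb.left _ _ _ _ (ho.trans hoL) (by rw [List.length_append]; omega)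
      (by rw [List.length_append]; omega) with hp | ⟨SL, hSL1, hSL2⟩
    · exact Or.inl hp
    rcases ih (o + l + len l j) hb.right _ _ _ _ (ho.trans hoR) (by rw [List.length_append]; omega)
      (by rw [List.length_append]; omega) with hp | ⟨SR, hSR1, hSR2⟩
    · exact Or.inl hp
    -- nodes below the left node as nodes below the given one
    have hbelow : ∀ {p1 : List T} {B1 : N} {ch1 : Fo T N} {s1 : List T},
        Occ ch p1 B1 ch1 s1 → yield ch1 ≠ [] → ∀ x, (x = c B1 ∨
        ∃ p' B' ch' q', Occ ch1 p' B' ch' q' ∧ yield ch' ≠ [] ∧ c B' = x) →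
        ∃ p' B' ch' q', Occ ch p' B' ch' q' ∧ yield ch' ≠ [] ∧ c B' = x ∧
          p1.length ≤ p'.length ∧
          p'.length + (yield ch').length ≤ p1.length + (yield ch1).length := by
      intro p1 B1 ch1 s1 ho1 hn1 x hx
      rcases hx with rfl | ⟨p', B', ch', q', ho', hn', rfl⟩
      · exact ⟨p1, B1, ch1, s1, ho1, hn1, rfl, le_rfl, le_rfl⟩
      · refine ⟨p1 ++ p', B', ch', _, ho1.trans ho', hn', rfl, by simp, ?_⟩
        have e := congrArg List.length ho'.yield_eq
        simp only [List.length_append] at e ⊢
        omega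
    by_cases hcL : c B ∈ SL
    · by_cases hcR : c B ∈ SR
      · left
        obtain ⟨p1, B1, ch1, q1, ho1, hn1, hc1, _, hlt1⟩ := hbelow hoL hnL _ (hSL2 _ hcL)
        obtain ⟨p2, B2, ch2, q2, ho2, hn2, hc2, hlt2, _⟩ := hbelow hoR hnR _ (hSR2 _ hcR)
        exact ⟨p, B, ch, q, ho, p1, B1, ch1, q1, ho1, hn1, hc1, p2, B2, ch2, q2, ho2, hn2, hc2,
          by omega⟩
      · right
        refine ⟨insert (c B) SR, by rw [Finset.card_insert_of_notMem hcR]; omega, ?_⟩
        intro x hx
        rcases Finset.mem_insert.1 hx with rfl | hx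
        · exact Or.inl rfl
        · obtain ⟨p1, B1, ch1, q1, ho1, hn1, hc1, _, _⟩ := hbelow hoR hnR _ (hSR2 _ hx)
          exact Or.inr ⟨p1, B1, ch1, q1, ho1, hn1, hc1⟩
    · right
      refine ⟨insert (c B) SL, by rw [Finset.card_insert_of_notMem hcL]; omega, ?_⟩
      intro x hx
      rcases Finset.mem_insert.1 hx with rfl | hx
      · exact Or.inl rfl
      · obtain ⟨p1, B1, ch1, q1, ho1, hn1, hc1, _, _⟩ := hbelow hoL hnL _ (hSL2 _ hx)
        exact Or.inr ⟨p1, B1, ch1, q1, ho1, hn1, hc1⟩

end

end Pool.Agent.H86.GF
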