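import Pool.Agent.H86.GF.Nec

/-!
# Necessity, final part

Helper file for `MP_f868b6_lc`.
-/

set_option autoImplicit false

namespace Pool.Agent.H86.GF

open Fo

theorem len_bound (l h : ℕ) : len l h + 2 * l ≤ l * 2 ^ (h + 2) := by
  induction h with
  | zero => unfold len; omega
  | succ h ih =>
    have hlen : len l (h + 1) = 2 * l + 2 * len l h := rfl
    rw [hlen, show h + 1 + 2 = (h + 2) + 1 by ring, pow_succ]
    nlinarith

theorem exists_exp (K : ℕ) : ∃ g : ℕ, K * (g + 1) ^ 2 < 2 ^ (g + 1) := by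
  refine ⟨16 * K + 3, ?_⟩
  have h1 : 4 * K + 1 < 2 ^ (4 * K + 1) := Nat.lt_two_pow_self
  have h2 : 16 * K + 3 + 1 = (4 * K + 1) * 4 := by ring
  rw [h2, pow_mul]
  have h3 : (4 * K + 1) ^ 4 ≤ (2 ^ (4 * K + 1)) ^ 4 := Nat.pow_le_pow_left h1.le 4
  refine lt_of_lt_of_le ?_ h3
  have h5 : K ≤ K ^ 2 := Nat.le_self_pow (by norm_num) K
  have h4 : K * 16 < (4 * K + 1) ^ 2 := by nlinarith
  calc K * ((4 * K + 1) * 4) ^ 2 = (K * 16) * (4 * K + 1) ^ 2 := by ring
    _ < (4 * K + 1) ^ 2 * (4 * K + 1) ^ 2 := by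
        apply Nat.mul_lt_mul_of_pos_right h4
        positivity
    _ = (4 * K + 1) ^ 4 := by ring

theorem mem_wd {A : Type} {κ : Fin 5 ↪ A} {i : ℕ} {u : List (Bool × Bool)} {x : A}
    (hx : x ∈ wd κ i u) : ∃ k, x = κ k := by
  unfold wd five at hx
  rw [List.mem_append, List.mem_append] at hx
  rcases hx with hx | hx | hx
  · simp only [List.mem_cons, List.not_mem_nil, or_false] at hx
    rcases hx with rfl | rfl | rfl | rfl | rfl <;> exact ⟨_, rfl⟩
  · exact ⟨4, List.eq_of_mem_replicate hx⟩
  · obtain ⟨b, _, rfl⟩ := List.mem_map.1 hx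
    rcases b with ⟨_ | _, _ | _⟩ <;> exact ⟨_, rfl⟩

theorem roots_single {T N : Type} {f : Fo T N} {B : N} (h : roots f = [Symbol.nonterminal B]) :
    ∃ ch, f = Fo.nt B ch Fo.nil := by
  cases f with
  | nil => simp [roots] at h
  | tm a f => simp [roots] at h
  | nt B' ch f =>
    simp only [roots, List.cons.injEq, Symbol.nonterminal.injEq] at h
    obtain ⟨rfl, h⟩ := h
    cases f with
    | nil => exact ⟨ch, rfl⟩
    | tm a f => simp [roots] at h
    | nt _ _ f => simp [roots] at h

theorem necessity {T : Type} [Finite T] (G : ContextFreeGrammar T) [Finite G.NT]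
    (hG : CFsComplete G) :
    ∃ a : T, (∀ n, 1 ≤ n → G.Derives [Symbol.nonterminal G.initial]
      (List.replicate n (Symbol.terminal a))) ∧ ∃ N, ∀ n, N ≤ n → ExpGen G a n := by
  classical
  have := Fintype.ofFinite T
  have := Fintype.ofFinite G.NT
  obtain ⟨L, ⟨H, ⟨μT, μN, hT, hN, hR, hI⟩, rfl⟩, hH⟩ :=
    (hG (Fin (4 * Fintype.card T + 1))).2 (LG (Fin (4 * Fintype.card T + 1))
      (Fintype.card G.NT)).language ⟨_, rfl⟩
  have hS : List.Forall₂ (Subst μT μN) [Symbol.nonterminal G.initial]
      [Symbol.nonterminal H.initial] := List.Forall₂.cons hI List.Forall₂.nil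
  -- colours of letters
  have hx : ∀ x : Fin (4 * Fintype.card T + 1), ∃ b : T, x ∈ μT b := by
    intro x
    have h1 : List.replicate 1 x ∈ H.language := (hH _ (by simp)).2 (LG_rep x le_rfl)
    obtain ⟨v₀, hv₀, _⟩ := proj_derives hN hR h1 hS
    cases hv₀ with
    | @cons s _ _ _ hs _ =>
      cases s with
      | terminal b => exact ⟨b, hs⟩
      | nonterminal B => exact absurd hs (by simp [Subst])
  choose ct hct using hx
  obtain ⟨a, ha⟩ := Fintype.exists_lt_card_fiber_of_mul_lt_card (f := ct) (n := 4) (by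
    rw [Fintype.card_fin]; omega)
  have h5 : 5 ≤ (Finset.univ.filter (fun x => ct x = a)).card := ha
  let κ : Fin 5 ↪ Fin (4 * Fintype.card T + 1) := (Fin.castLEEmb h5).trans
    ((Finset.univ.filter (fun x => ct x = a)).orderEmbOfFin rfl).toEmbedding
  have hκ : ∀ k, κ k ∈ μT a := by
    intro k
    have h1 : κ k ∈ Finset.univ.filter (fun x => ct x = a) :=
      Finset.orderEmbOfFin_mem _ rfl _
    rw [Finset.mem_filter] at h1
    rw [← h1.2]
    exact hct _
  refine ⟨a, ?_, ?_⟩
  · intro n hn
    have h1 : List.replicate n (κ 0) ∈ H.language := by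
      refine (hH _ ?_).2 (LG_rep _ hn)
      intro e
      have := congrArg List.length e
      rw [List.length_replicate] at this
      simp at this
      omega
    obtain ⟨v₀, hv₀, hd⟩ := proj_derives hN hR h1 hS
    rw [proj_word hT (a := a) (fun x hx => by rw [List.eq_of_mem_replicate hx]; exact hκ 0) hv₀,
      List.length_replicate] at hd
    exact hd
  · obtain ⟨D, hD1, hD⟩ := expGen_add G a
    set h := Fintype.card G.NT with hh
    let d := H.rules.sup (fun r => r.output.length)
    let K1 := 6 + D + (d + 1) * 2 ^ (h + 2)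
    obtain ⟨Gb, hGb⟩ := exists_exp (K1 ^ 2 * H.rules.card)
    let l := d * (Gb + 1) + Gb + 1
    refine ⟨5 + len l h, ?_⟩
    intro n hn
    have hi : (n - (5 + len l h)) % D < D := Nat.mod_lt _ (by omega)
    have hdm := Nat.mod_add_div (n - (5 + len l h)) D
    set i := (n - (5 + len l h)) % D with hidef
    have hn' : n = (5 + i + len l h) + D * ((n - (5 + len l h)) / D) := by omega
    rw [hn']
    apply hD
    -- the main case
    have hl : l = (d + 1) * (Gb + 1) := by
      simp only [l]
      ring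
    have hlb := len_bound l h
    have hsz : 5 + i + len l h + 1 ≤ K1 * (Gb + 1) := by
      have e1 : len l h ≤ (d + 1) * 2 ^ (h + 2) * (Gb + 1) := by
        calc len l h ≤ l * 2 ^ (h + 2) := by omega
          _ = (d + 1) * 2 ^ (h + 2) * (Gb + 1) := by rw [hl]; ring
      have e2 : 5 + i + 1 ≤ (6 + D) * (Gb + 1) := by nlinarith
      calc 5 + i + len l h + 1 ≤ (6 + D) * (Gb + 1) + (d + 1) * 2 ^ (h + 2) * (Gb + 1) := by omega
        _ = K1 * (Gb + 1) := by simp only [K1]; ring
    have hbd : (5 + i + len l h + 1) ^ 2 * H.rules.card < 2 ^ (Gb + 1) := by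
      refine lt_of_le_of_lt ?_ hGb
      calc (5 + i + len l h + 1) ^ 2 * H.rules.card ≤ (K1 * (Gb + 1)) ^ 2 * H.rules.card := by
            gcongr
        _ = K1 ^ 2 * H.rules.card * (Gb + 1) ^ 2 := by ring
    obtain ⟨s, f, hf, hr, hy, hc⟩ := fool hH κ i l Gb hbd
    have hlen : (yield f).length = 5 + i + len l h := by rw [hy, wd_length]
    have hletters : ∀ x ∈ yield f, x ∈ μT a := by
      intro x hx
      rw [hy] at hx
      obtain ⟨k, rfl⟩ := mem_wd hx
      exact hκ k
    have hd : ∀ p B ch q, Occ f p B ch q → (roots ch).length ≤ d := by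
      intro p B ch q ho
      exact Finset.le_sup (f := fun r : ContextFreeRule _ H.NT => r.output.length)
        (ho.valid hf).1
    have hle := le_len l h
    have hl1 : 1 ≤ l := by simp only [l]; omega
    have hpat : Pattern (col μN) f := by
      obtain ⟨ch, hfch⟩ := roots_single hr
      have hych : yield ch = yield f := by rw [hfch]; simp [yield]
      rcases colours (col μN) hc hd rfl h 0 (Blk.self l h) [] H.initial ch [] (by
        rw [hfch]; exact Occ.here _ _ _) (by simp) (by
        rw [hych, hlen]; simp; omega) with hp | ⟨S, hS1, _⟩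
      · exact hp
      · have := Finset.card_le_univ S
        omega
    rw [← hlen]
    exact pattern_expGen hT hN hR hI hf hr hletters hpat

end Pool.Agent.H86.GF
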