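import Pool.Agent.H86.GF.Proj

/-!
# Patterns in derivation forests and expansive nonterminals

Helper file for `MP_f868b6_lc`.
-/

set_option autoImplicit false

namespace Pool.Agent.H86.GF

open Fo

/-- a node with two disjoint nodes of the same colour below it -/
def Pattern {T N C : Type} (c : N → C) (f : Fo T N) : Prop :=
  ∃ p B ch s, Occ f p B ch s ∧ ∃ p1 B1 ch1 s1, Occ ch p1 B1 ch1 s1 ∧ yield ch1 ≠ [] ∧
    c B1 = c B ∧ ∃ p2 B2 ch2 s2, Occ ch p2 B2 ch2 s2 ∧ yield ch2 ≠ [] ∧ c B2 = c B ∧
      p1.length + (yield ch1).length ≤ p2.length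

section

variable {T T' : Type} {G : ContextFreeGrammar T} {H : ContextFreeGrammar T'}
  {μT : T → Finset T'} {μN : G.NT → Finset H.NT}

theorem proj_nt (hN : ∀ A B, A ≠ B → Disjoint (μN A) (μN B)) {B : H.NT}
    {v₀ : List (Symbol T G.NT)}
    (h : List.Forall₂ (Subst μT μN) v₀ [Symbol.nonterminal B]) :
    v₀ = [Symbol.nonterminal (col μN B)] := by
  cases h with
  | @cons s _ l _ hs hl =>
    cases hl
    cases s with
    | terminal b => exact absurd hs (by simp [Subst])
    | nonterminal C => rw [col_eq hN hs]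

theorem pattern_expGen (hT : ∀ b c, b ≠ c → Disjoint (μT b) (μT c))
    (hN : ∀ A B, A ≠ B → Disjoint (μN A) (μN B))
    (hR : ∀ r ∈ H.rules, ∃ r₀ ∈ G.rules, r.input ∈ μN r₀.input ∧
      List.Forall₂ (Subst μT μN) r₀.output r.output)
    (hI : H.initial ∈ μN G.initial) {f : Fo T' H.NT} (hf : Valid H f)
    (hroots : roots f = [Symbol.nonterminal H.initial]) {a : T}
    (ha : ∀ x ∈ yield f, x ∈ μT a) (hp : Pattern (col μN) f) :
    ExpGen G a (yield f).length := by
  obtain ⟨p, B, ch, s, hocc, p1, B1, ch1, s1, h1, hn1, hc1, p2, B2, ch2, s2, h2, hn2, hc2, hl⟩ := hp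
  have hv := hocc.valid hf
  have hch : ∀ x ∈ yield ch, x ∈ μT a := fun x hx => ha x (hocc.mem_mid hx)
  have hB : B ∈ μN (col μN B) := col_mem hR hv.1
  have hBF : List.Forall₂ (Subst μT μN) [Symbol.nonterminal (col μN B)]
      [Symbol.nonterminal B] := List.Forall₂.cons hB List.Forall₂.nil
  have hstep : H.Derives [Symbol.nonterminal B] (roots ch) := Relation.ReflTransGen.single
    ⟨_, hv.1, ContextFreeRule.Rewrites.input_output⟩
  -- the word below
  have hw : G.Derives [Symbol.nonterminal (col μN B)]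
      (List.replicate (yield ch).length (Symbol.terminal a)) := by
    obtain ⟨v₀, hv₀, hd⟩ := proj_derives hN hR (hstep.trans (valid_derives hv.2)) hBF
    rwa [proj_word hT hch hv₀] at hd
  have hnch : 1 ≤ (yield ch).length := by
    have e := congrArg List.length h1.yield_eq
    have : 0 < (yield ch1).length := List.length_pos_iff.2 hn1
    simp at e
    omega
  -- the two occurrences
  obtain ⟨mid, hmid, hd2⟩ := h1.two hn1 hv.2 h2 hn2 hl
  obtain ⟨v₀, hv₀, hd⟩ := proj_derives hN hR (hstep.trans hd2) hBF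
  obtain ⟨x1, x2, rfl, hx1, hx2⟩ := forall₂_append_right hv₀
  obtain ⟨x3, x4, rfl, hx3, hx4⟩ := forall₂_append_right hx1
  obtain ⟨x5, x6, rfl, hx5, hx6⟩ := forall₂_append_right hx3
  obtain ⟨x7, x8, rfl, hx7, hx8⟩ := forall₂_append_right hx5
  rw [proj_word hT (fun x hx => hch x (h2.mem_right hx)) hx2, proj_nt hN hx4,
    proj_word hT (fun x hx => hch x (hmid x hx)) hx6, proj_nt hN hx8,
    proj_word hT (fun x hx => hch x (h1.mem_left hx)) hx7, hc1, hc2] at hd
  -- the context
  have hS : List.Forall₂ (Subst μT μN) [Symbol.nonterminal G.initial]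
      [Symbol.nonterminal H.initial] := List.Forall₂.cons hI List.Forall₂.nil
  have hctx := hocc.derives hf
  rw [hroots] at hctx
  obtain ⟨w₀, hw₀, hdw⟩ := proj_derives hN hR hctx hS
  obtain ⟨y1, y2, rfl, hy1, hy2⟩ := forall₂_append_right hw₀
  obtain ⟨y3, y4, rfl, hy3, hy4⟩ := forall₂_append_right hy1
  rw [proj_word hT (fun x hx => ha x (hocc.mem_right hx)) hy2, proj_nt hN hy4,
    proj_word hT (fun x hx => ha x (hocc.mem_left hx)) hy3] at hdw
  refine ⟨col μN B, p.length, s.length, (yield ch).length, ⟨⟨_, _, _, hd⟩, _, hnch, hw⟩, ?_,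
    hdw, hw⟩
  rw [hocc.yield_eq]
  simp only [List.length_append]

end

/-- Pumping of expansive derivations. -/
theorem expGen_add {T : Type} (G : ContextFreeGrammar T) [Finite G.NT] (a : T) :
    ∃ D : ℕ, 1 ≤ D ∧ ∀ n t, ExpGen G a n → ExpGen G a (n + D * t) := by
  classical
  have := Fintype.ofFinite G.NT
  have h : ∀ E : G.NT, ∃ c : ℕ, 1 ≤ c ∧ (Expansive G a E → ∀ t p q : ℕ,
      G.Derives [Symbol.nonterminal G.initial] (List.replicate p (Symbol.terminal a) ++
        [Symbol.nonterminal E] ++ List.replicate q (Symbol.terminal a)) →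
      ∃ p' q', p' + q' = p + q + c * t ∧
      G.Derives [Symbol.nonterminal G.initial] (List.replicate p' (Symbol.terminal a) ++
        [Symbol.nonterminal E] ++ List.replicate q' (Symbol.terminal a))) := by
    intro E
    by_cases hE : Expansive G a E
    · obtain ⟨⟨k, l, m, hd⟩, j, hj, hj'⟩ := hE
      refine ⟨k + (l + j + m), by omega, fun _ t => ?_⟩
      induction t with
      | zero => exact fun p q h => ⟨p, q, by simp, h⟩
      | succ t ih =>
        intro p q h
        obtain ⟨p', q', he, hd'⟩ := ih p q h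
        refine ⟨p' + k, l + j + m + q', by rw [mul_add]; omega, ?_⟩
        have e1 : G.Derives [Symbol.nonterminal E] (List.replicate k (Symbol.terminal a) ++
            [Symbol.nonterminal E] ++ List.replicate (l + j + m) (Symbol.terminal a)) := by
          refine hd.trans ?_
          have := ((hj'.append_left (List.replicate k (Symbol.terminal a) ++
            [Symbol.nonterminal E] ++ List.replicate l (Symbol.terminal a))).append_right
            (List.replicate m (Symbol.terminal a)))
          simpa using this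
        have e2 := hd'.trans ((e1.append_left (List.replicate p' (Symbol.terminal a))).append_right
            (List.replicate q' (Symbol.terminal a)))
        rw [List.replicate_add, List.replicate_add (n := q')]
        simpa only [List.append_assoc] using e2
    · exact ⟨1, le_rfl, fun h => absurd h hE⟩
  choose c hc1 hc using h
  refine ⟨∏ E, c E, Finset.one_le_prod' (fun E _ => hc1 E), ?_⟩
  rintro n t ⟨E, p, q, j, hE, rfl, h1, h2⟩
  obtain ⟨m, hm⟩ : c E ∣ ∏ E, c E := Finset.dvd_prod_of_mem c (Finset.mem_univ E)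
  obtain ⟨p', q', he, hd⟩ := hc E hE (m * t) p q h1
  refine ⟨E, p', q', j, hE, ?_, hd, h2⟩
  rw [hm, mul_assoc]
  omega

end Pool.Agent.H86.GF
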