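import Pool.Agent.H86.GF.Basic
import Pool.Agent.H86.GF.Defs
import Pool.Agent.H86.GF.Forest

/-!
# Projection of derivations of an interpretation

Helper file for `MP_f868b6_lc`.
-/

set_option autoImplicit false

namespace Pool.Agent.H86.GF

theorem forall₂_append_right {α β : Type*} {R : α → β → Prop} {l : List α} {l1 l2 : List β}
    (h : List.Forall₂ R l (l1 ++ l2)) :
    ∃ a b, l = a ++ b ∧ List.Forall₂ R a l1 ∧ List.Forall₂ R b l2 :=
  ⟨_, _, (List.take_append_drop l1.length l).symm, List.forall₂_take_append l l1 l2 h,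
    List.forall₂_drop_append l l1 l2 h⟩

section

variable {T T' : Type} {G : ContextFreeGrammar T} {H : ContextFreeGrammar T'}
  {μT : T → Finset T'} {μN : G.NT → Finset H.NT}

/-- Derivations are projected. -/
theorem proj_derives (hN : ∀ A B, A ≠ B → Disjoint (μN A) (μN B))
    (hR : ∀ r ∈ H.rules, ∃ r₀ ∈ G.rules, r.input ∈ μN r₀.input ∧
      List.Forall₂ (Subst μT μN) r₀.output r.output)
    {u v : List (Symbol T' H.NT)} (h : H.Derives u v) {u₀ : List (Symbol T G.NT)}
    (hu : List.Forall₂ (Subst μT μN) u₀ u) :
    ∃ v₀, List.Forall₂ (Subst μT μN) v₀ v ∧ G.Derives u₀ v₀ := by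
  induction h with
  | refl => exact ⟨u₀, hu, Relation.ReflTransGen.refl⟩
  | @tail v w _ hp ih =>
    obtain ⟨v₀, hv₀, hd⟩ := ih
    obtain ⟨r, hr, hrw⟩ := hp
    obtain ⟨p, q, rfl, rfl⟩ := hrw.exists_parts
    obtain ⟨r₀, hr₀, hi, ho⟩ := hR r hr
    obtain ⟨a, b, rfl, ha, hb⟩ := forall₂_append_right hv₀
    obtain ⟨c, d, rfl, hc, hd'⟩ := forall₂_append_right ha
    cases hd' with
    | @cons s _ _ _ hs hnil =>
      cases hnil
      cases s with
      | terminal x => exact absurd hs (by simp [Subst])
      | nonterminal A =>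
        have hA : A = r₀.input := by
          by_contra hne
          exact Finset.disjoint_left.1 (hN _ _ hne) hs hi
        subst hA
        refine ⟨c ++ r₀.output ++ b, ?_, hd.tail ?_⟩
        · exact List.rel_append (List.rel_append hc ho) hb
        · exact ⟨r₀, hr₀, ContextFreeRule.rewrites_of_exists_parts _ _ _⟩

/-- words over the letters of one terminal are projected to powers of this terminal -/
theorem proj_word (hT : ∀ b c, b ≠ c → Disjoint (μT b) (μT c)) {a : T} {w : List T'}
    (hw : ∀ x ∈ w, x ∈ μT a) {v₀ : List (Symbol T G.NT)}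
    (h : List.Forall₂ (Subst μT μN) v₀ (w.map Symbol.terminal)) :
    v₀ = List.replicate w.length (Symbol.terminal a) := by
  induction w generalizing v₀ with
  | nil => cases h; rfl
  | cons x w ih =>
    rw [List.map_cons] at h
    cases h with
    | @cons s _ l _ hs hl =>
      rw [ih (fun y hy => hw y (List.mem_cons_of_mem _ hy)) hl, List.length_cons,
        List.replicate_succ]
      congr 1
      cases s with
      | terminal b =>
        by_contra hne
        have hne' : b ≠ a := fun e => hne (by rw [e])
        exact Finset.disjoint_left.1 (hT _ _ hne') hs (hw x List.mem_cons_self)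
      | nonterminal A => exact absurd hs (by simp [Subst])

/-- the inverse: powers are projections of words -/
theorem proj_word' {a : T} {w : List T'} (hw : ∀ x ∈ w, x ∈ μT a) :
    List.Forall₂ (Subst μT μN) (List.replicate w.length (Symbol.terminal a))
      (w.map Symbol.terminal) := by
  induction w with
  | nil => exact List.Forall₂.nil
  | cons x w ih =>
    rw [List.map_cons, List.length_cons, List.replicate_succ]
    exact List.Forall₂.cons (hw x List.mem_cons_self)
      (ih (fun y hy => hw y (List.mem_cons_of_mem _ hy)))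

open Classical in
/-- the colour of a nonterminal -/
noncomputable def col (μN : G.NT → Finset H.NT) (B : H.NT) : G.NT :=
  if h : ∃ C, B ∈ μN C then h.choose else G.initial

theorem col_eq (hN : ∀ A B, A ≠ B → Disjoint (μN A) (μN B)) {B : H.NT} {C : G.NT}
    (h : B ∈ μN C) : col μN B = C := by
  have h' : ∃ C, B ∈ μN C := ⟨C, h⟩
  unfold col
  rw [dif_pos h']
  by_contra hne
  exact Finset.disjoint_left.1 (hN _ _ hne) h'.choose_spec h

theorem col_mem (hR : ∀ r ∈ H.rules, ∃ r₀ ∈ G.rules, r.input ∈ μN r₀.input ∧
      List.Forall₂ (Subst μT μN) r₀.output r.output) {r : ContextFreeRule T' H.NT}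
    (hr : r ∈ H.rules) : r.input ∈ μN (col μN r.input) := by
  obtain ⟨r₀, _, hi, _⟩ := hR r hr
  have h' : ∃ C, r.input ∈ μN C := ⟨_, hi⟩
  unfold col
  rw [dif_pos h']
  exact h'.choose_spec

end

end Pool.Agent.H86.GF
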