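import Pool.Agent.H86.GF.Basic

/-!
# From context-free grammars to real-time stack systems

Helper file for `MP_f868b6_lc`.
-/

set_option autoImplicit false

namespace Pool.Agent.H86.GF

/-- A finite family of languages in which each word of length at least two of a language of the
family splits into two nonempty words from languages `B`, `C` of the family, whose product is
contained in the given language. -/
structure Cnf (T : Type) where
  Q : Type
  fin : Finite Q
  S : Q
  L : Q → Set (List T)
  dec : ∀ A w, w ∈ L A → 2 ≤ w.length → ∃ B C, (∀ u ∈ L B, ∀ v ∈ L C, u ++ v ∈ L A) ∧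
    ∃ u ∈ L B, ∃ v ∈ L C, u ≠ [] ∧ v ≠ [] ∧ w = u ++ v

section cnf

variable {T : Type} (g : ContextFreeGrammar T)

/-- words derived from a string -/
def LS (β : List (Symbol T g.NT)) : Set (List T) := {w | g.Derives β (w.map Symbol.terminal)}

theorem LS_append {β γ : List (Symbol T g.NT)} {u v : List T} (hu : u ∈ LS g β) (hv : v ∈ LS g γ) :
    u ++ v ∈ LS g (β ++ γ) := by
  show g.Derives _ _
  rw [List.map_append]
  exact derives_append' hu hv

/-- the finite set of strings used -/
def QS : Set (List (Symbol T g.NT)) :=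
  {[Symbol.nonterminal g.initial]} ∪ (⋃ r ∈ g.rules, {β | β <:+ r.output}) ∪
    (⋃ r ∈ g.rules, {β | ∃ s ∈ r.output, β = [s]}) ∪ {[]}

theorem QS_finite : (QS g).Finite := by
  unfold QS
  refine Set.Finite.union (Set.Finite.union (Set.Finite.union ?_ ?_) ?_) ?_
  · exact Set.finite_singleton _
  · refine Set.Finite.biUnion g.rules.finite_toSet ?_
    intro r _
    have : {β | β <:+ r.output} = {β | β ∈ r.output.tails} := by
      ext β; simp [List.mem_tails]
    rw [this]
    exact List.finite_toSet _
  · refine Set.Finite.biUnion g.rules.finite_toSet ?_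
    intro r _
    have : {β | ∃ s ∈ r.output, β = [s]} = (fun s => [s]) '' {s | s ∈ r.output} := by
      ext β
      simp only [Set.mem_ofPred_eq, Set.mem_image]
      constructor
      · rintro ⟨s, hs, rfl⟩; exact ⟨s, hs, rfl⟩
      · rintro ⟨s, hs, rfl⟩; exact ⟨s, hs, rfl⟩
    rw [this]
    exact (List.finite_toSet _).image _
  · exact Set.finite_singleton _

theorem QS_tail {s : Symbol T g.NT} {β : List (Symbol T g.NT)} (h : s :: β ∈ QS g) : β ∈ QS g := by
  unfold QS at h ⊢
  rcases h with ((h | h) | h) | h
  · right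
    simp at h
    simp [h.2]
  · left; left; right
    simp only [Set.mem_iUnion, Set.mem_ofPred_eq] at h ⊢
    obtain ⟨r, hr, h⟩ := h
    exact ⟨r, hr, (List.suffix_cons s β).trans h⟩
  · right
    simp only [Set.mem_iUnion, Set.mem_ofPred_eq] at h
    obtain ⟨r, hr, s', _, h⟩ := h
    simp at h
    simp [h.2]
  · simp at h

theorem QS_head {s : Symbol T g.NT} {β : List (Symbol T g.NT)} (h : s :: β ∈ QS g) :
    [s] ∈ QS g := by
  unfold QS at h ⊢
  rcases h with ((h | h) | h) | h
  · left; left; left
    simp at h
    simp [h.1]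
  · left; right
    simp only [Set.mem_iUnion, Set.mem_ofPred_eq] at h ⊢
    obtain ⟨r, hr, h⟩ := h
    exact ⟨r, hr, s, h.subset (by simp), rfl⟩
  · left; right
    simp only [Set.mem_iUnion, Set.mem_ofPred_eq] at h ⊢
    obtain ⟨r, hr, s', hs', h⟩ := h
    simp at h
    exact ⟨r, hr, s', hs', by rw [h.1]⟩
  · simp at h

theorem QS_rule {r : ContextFreeRule T g.NT} (hr : r ∈ g.rules) : r.output ∈ QS g := by
  unfold QS
  left; left; right
  simp only [Set.mem_iUnion, Set.mem_ofPred_eq]
  exact ⟨r, hr, List.suffix_rfl⟩

theorem LS_dec : ∀ (n : ℕ) (β : List (Symbol T g.NT)) (w : List T), β ∈ QS g →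
    Der g n β (w.map Symbol.terminal) → 2 ≤ w.length →
    ∃ γ ∈ QS g, ∃ δ ∈ QS g, (∀ u ∈ LS g γ, ∀ v ∈ LS g δ, u ++ v ∈ LS g β) ∧
      ∃ u ∈ LS g γ, ∃ v ∈ LS g δ, u ≠ [] ∧ v ≠ [] ∧ w = u ++ v := by
  intro n
  induction n using Nat.strong_induction_on with
  | _ n ih =>
    intro β w hβ h hw
    cases β with
    | nil =>
      generalize hw' : w.map Symbol.terminal = w' at h
      cases h
      simp at hw'
      simp [hw'] at hw
    | cons s β =>
      generalize hw' : w.map (Symbol.terminal (N := g.NT)) = w' at h
      cases h with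
      | keep _ h =>
        cases w with
        | nil => simp at hw'
        | cons x w =>
          simp only [List.map_cons, List.cons.injEq] at hw'
          obtain ⟨rfl, rfl⟩ := hw'
          refine ⟨_, QS_head g hβ, _, QS_tail g hβ, ?_, [x], ?_, w, ?_, by simp, ?_, rfl⟩
          · intro u hu v hv
            exact LS_append g hu hv
          · exact Relation.ReflTransGen.refl
          · exact h.derives
          · rintro rfl
            simp at hw
      | @expand n1 n2 r _ v1 v2 hr h1 h2 =>
        obtain ⟨w1, w2, rfl, rfl, rfl⟩ := List.map_eq_append_iff.1 hw'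
        have e1 : g.Derives [Symbol.nonterminal r.input] r.output :=
          Relation.ReflTransGen.single ⟨r, hr, ContextFreeRule.Rewrites.input_output⟩
        by_cases hw1 : w1 = []
        · subst hw1
          obtain ⟨γ, hγ, δ, hδ, hc, hd⟩ := ih n2 (by omega) β w2 (QS_tail g hβ) h2 (by simpa using hw)
          refine ⟨γ, hγ, δ, hδ, ?_, by simpa using hd⟩
          intro u hu v hv
          have := hc u hu v hv
          have h3 : ([] : List T) ++ (u ++ v) ∈ LS g ([Symbol.nonterminal r.input] ++ β) := by
            refine LS_append g ?_ this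
            exact e1.trans h1.derives
          simpa using h3
        · by_cases hw2 : w2 = []
          · subst hw2
            obtain ⟨γ, hγ, δ, hδ, hc, hd⟩ := ih n1 (by omega) r.output w1 (QS_rule g hr) h1
              (by simpa using hw)
            refine ⟨γ, hγ, δ, hδ, ?_, by simpa using hd⟩
            intro u hu v hv
            have := hc u hu v hv
            have h3 : (u ++ v) ++ ([] : List T) ∈ LS g ([Symbol.nonterminal r.input] ++ β) := by
              refine LS_append g ?_ ?_
              · exact e1.trans this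
              · exact h2.derives
            simpa using h3
          · refine ⟨_, QS_head g hβ, _, QS_tail g hβ, ?_, w1, ?_, w2, ?_, hw1, hw2, rfl⟩
            · intro u hu v hv
              exact LS_append g hu hv
            · exact e1.trans h1.derives
            · exact h2.derives

/-- the Chomsky type family of a grammar -/
noncomputable def cnf : Cnf T where
  Q := QS g
  fin := (QS_finite g).to_subtype
  S := ⟨[Symbol.nonterminal g.initial], by simp [QS]⟩
  L A := LS g A.1
  dec := by
    rintro ⟨A, hA⟩ w hw hl
    obtain ⟨n, hn⟩ := Der.of_derives hw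
    obtain ⟨γ, hγ, δ, hδ, h1, h2⟩ := LS_dec g n A w hA hn hl
    exact ⟨⟨γ, hγ⟩, ⟨δ, hδ⟩, h1, h2⟩

theorem cnf_L (w : List T) : w ∈ (cnf g).L (cnf g).S ↔ w ∈ g.language := Iff.rfl

end cnf

/-- Runs of a stack system without empty moves: reading the letter `x` with the symbol `Z` on top
of the stack replaces `Z` by `γ`, if `step Z x γ`. -/
inductive Run {Γ T : Type} (step : Γ → T → List Γ → Prop) : List T → List Γ → List Γ → Prop
  | nil (σ : List Γ) : Run step [] σ σ
  | cons {Z : Γ} {x : T} {γ ρ τ : List Γ} {w : List T} :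
      step Z x γ → Run step w (γ ++ ρ) τ → Run step (x :: w) (Z :: ρ) τ

section stack

variable {T : Type} (c : Cnf T)

/-- the product of `B` and `C` is contained in `A` -/
def Bin (A B C : c.Q) : Prop := ∀ u ∈ c.L B, ∀ v ∈ c.L C, u ++ v ∈ c.L A

/-- left spines, read from below: `w` is generated to the right of the left spine from `A` down
to `B` -/
inductive Spine : c.Q → c.Q → List T → Prop
  | refl (A : c.Q) : Spine A A []
  | step {A P B C : c.Q} {v w : List T} : Spine A P w → Bin c P B C → v ∈ c.L C → v ≠ [] →
      Spine A B (v ++ w)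

theorem Spine.top {A B C D : c.Q} {w v : List T} (h : Spine c B D w) (hb : Bin c A B C)
    (hv : v ∈ c.L C) (hv' : v ≠ []) : Spine c A D (w ++ v) := by
  induction h with
  | refl =>
    have := Spine.step (Spine.refl A) hb hv hv'
    simpa using this
  | step hs hb' hv1 hv1' ih =>
    have := Spine.step ih hb' hv1 hv1'
    simpa using this

theorem spine_of_mem : ∀ (n : ℕ) (A : c.Q) (x : T) (u : List T), u.length ≤ n → x :: u ∈ c.L A →
    ∃ B, [x] ∈ c.L B ∧ Spine c A B u := by
  intro n
  induction n with
  | zero =>
    intro A x u hu h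
    have : u = [] := by
      cases u with
      | nil => rfl
      | cons _ _ => simp at hu
    subst this
    exact ⟨A, h, Spine.refl A⟩
  | succ n ih =>
    intro A x u hu h
    by_cases hu0 : u = []
    · subst hu0
      exact ⟨A, h, Spine.refl A⟩
    · have hl : 2 ≤ (x :: u).length := by
        have : 0 < u.length := List.length_pos_iff.2 hu0
        simp; omega
      obtain ⟨B, C, hb, u1, hu1, v, hv, h1, h2, he⟩ := c.dec A (x :: u) h hl
      cases u1 with
      | nil => exact absurd rfl h1
      | cons y u1 =>
        simp only [List.cons_append, List.cons.injEq] at he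
        obtain ⟨rfl, rfl⟩ := he
        have hv0 : 0 < v.length := List.length_pos_iff.2 h2
        obtain ⟨D, hD, hs⟩ := ih B x u1 (by simp at hu; omega) hu1
        exact ⟨D, hD, Spine.top c hs hb hv h2⟩

theorem spine_sound {A B : c.Q} {w : List T} (h : Spine c A B w) {x : T} (hx : [x] ∈ c.L B) :
    x :: w ∈ c.L A := by
  have key : ∀ u ∈ c.L B, u ++ w ∈ c.L A := by
    clear hx
    induction h with
    | refl => intro u hu; simpa using hu
    | step hs hb hv hv' ih =>
      intro u hu
      have := ih _ (hb u hu _ hv)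
      simpa using this
  simpa using key [x] hx

/-- an optional stack symbol: `(A, B)`, or nothing if `A = B` -/
inductive Opt (A : c.Q) : c.Q → List (Option (c.Q × c.Q)) → Prop
  | some (B : c.Q) : Opt A B [some (A, B)]
  | none : Opt A A []

/-- the transitions -/
inductive Step : Option (c.Q × c.Q) → T → List (Option (c.Q × c.Q)) → Prop
  | start {B : c.Q} {x : T} {γ : List (Option (c.Q × c.Q))} :
      [x] ∈ c.L B → Opt c c.S B γ → Step none x γ
  | step {A B P C B' : c.Q} {x : T} {γ δ : List (Option (c.Q × c.Q))} : Bin c P B C →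
      [x] ∈ c.L B' → Opt c C B' γ → Opt c A P δ → Step (some (A, B)) x (γ ++ δ)

theorem Step.length_le {Z : Option (c.Q × c.Q)} {x : T} {γ : List (Option (c.Q × c.Q))}
    (h : Step c Z x γ) : γ.length ≤ 2 := by
  cases h with
  | start _ h => cases h <;> simp
  | step _ _ h1 h2 => cases h1 <;> cases h2 <;> simp

/-- the nonempty words of a stack symbol -/
def R : Option (c.Q × c.Q) → Set (List T)
  | none => {w | w ≠ [] ∧ w ∈ c.L c.S}
  | some (A, B) => {w | w ≠ [] ∧ Spine c A B w}

/-- the words of a stack -/
def SL : List (Option (c.Q × c.Q)) → Set (List T)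
  | [] => {[]}
  | Z :: σ => {w | ∃ u ∈ R c Z, ∃ v ∈ SL σ, w = u ++ v}

theorem SL_append (σ τ : List (Option (c.Q × c.Q))) (w : List T) :
    w ∈ SL c (σ ++ τ) ↔ ∃ u ∈ SL c σ, ∃ v ∈ SL c τ, w = u ++ v := by
  induction σ generalizing w with
  | nil => simp [SL]
  | cons Z σ ih =>
    simp only [List.cons_append, SL, Set.mem_ofPred_eq, ih]
    constructor
    · rintro ⟨u0, hu0, v, ⟨u1, hu1, u2, hu2, rfl⟩, rfl⟩
      exact ⟨u0 ++ u1, ⟨u0, hu0, u1, hu1, rfl⟩, u2, hu2, by simp⟩
    · rintro ⟨u, ⟨u0, hu0, v, hv, rfl⟩, u2, hu2, rfl⟩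
      exact ⟨u0, hu0, v ++ u2, ⟨v, hv, u2, hu2, rfl⟩, by simp⟩

theorem opt_sound {A B : c.Q} {γ : List (Option (c.Q × c.Q))} (h : Opt c A B γ) {w : List T}
    (hw : w ∈ SL c γ) : Spine c A B w := by
  cases h with
  | some =>
    obtain ⟨u, hu, v, hv, rfl⟩ := hw
    have : v = [] := hv
    subst this
    simpa using hu.2
  | none =>
    have : w = [] := hw
    subst this
    exact Spine.refl A

theorem Spine.append {A P : c.Q} {w : List T} (h : Spine c A P w) {C B : c.Q} {v : List T}
    (hb : Bin c P B C) (hv : v ∈ c.L C) (hv' : v ≠ []) : Spine c A B (v ++ w) :=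
  Spine.step h hb hv hv'

theorem step_sound {Z : Option (c.Q × c.Q)} {x : T} {γ : List (Option (c.Q × c.Q))}
    (h : Step c Z x γ) {w : List T} (hw : w ∈ SL c γ) : x :: w ∈ R c Z := by
  cases h with
  | start hx ho =>
    exact ⟨by simp, spine_sound c (opt_sound c ho hw) hx⟩
  | step hb hx h1 h2 =>
    rw [SL_append] at hw
    obtain ⟨u, hu, v, hv, rfl⟩ := hw
    have h3 := spine_sound c (opt_sound c h1 hu) hx
    have h4 := Spine.step (opt_sound c h2 hv) hb h3 (by simp)
    exact ⟨by simp, by simpa using h4⟩

theorem run_sound {w : List T} {σ τ : List (Option (c.Q × c.Q))} (h : Run (Step c) w σ τ) :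
    ∀ v ∈ SL c τ, w ++ v ∈ SL c σ := by
  induction h with
  | nil σ => intro v hv; simpa using hv
  | cons hs _ ih =>
    intro v hv
    have := ih v hv
    rw [SL_append] at this
    obtain ⟨u1, hu1, v1, hv1, he⟩ := this
    refine ⟨_, step_sound c hs hu1, v1, hv1, ?_⟩
    rw [List.cons_append, he, List.cons_append]

theorem opt_complete {A B : c.Q} {w : List T} (h : Spine c A B w) :
    ∃ γ, Opt c A B γ ∧ w ∈ SL c γ := by
  by_cases hw : w = []
  · subst hw
    have : A = B := by
      generalize he : ([] : List T) = e at h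
      cases h with
      | refl => rfl
      | step _ _ _ hv => simp at he; exact absurd he.1 hv
    subst this
    exact ⟨[], Opt.none, rfl⟩
  · exact ⟨_, Opt.some B, w, ⟨hw, h⟩, [], rfl, by simp⟩

theorem step_complete {Z : Option (c.Q × c.Q)} {w : List T} (h : w ∈ R c Z) :
    ∃ x u γ, w = x :: u ∧ Step c Z x γ ∧ u ∈ SL c γ := by
  cases Z with
  | none =>
    obtain ⟨h1, h2⟩ := h
    cases w with
    | nil => exact absurd rfl h1
    | cons x u =>
      obtain ⟨B, hB, hs⟩ := spine_of_mem c u.length c.S x u le_rfl h2
      obtain ⟨γ, hγ, hu⟩ := opt_complete c hs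
      exact ⟨x, u, γ, rfl, Step.start hB hγ, hu⟩
  | some AB =>
    obtain ⟨A, B⟩ := AB
    obtain ⟨h1, h2⟩ := h
    cases h2 with
    | refl => exact absurd rfl h1
    | @step P _ C v w' hs hb hv hv' =>
      cases v with
      | nil => exact absurd rfl hv'
      | cons x v =>
        obtain ⟨B', hB', hs'⟩ := spine_of_mem c v.length C x v le_rfl hv
        obtain ⟨γ, hγ, hu⟩ := opt_complete c hs'
        obtain ⟨δ, hδ, hu'⟩ := opt_complete c hs
        refine ⟨x, v ++ w', γ ++ δ, rfl, Step.step hb hB' hγ hδ, ?_⟩
        rw [SL_append]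
        exact ⟨v, hu, w', hu', rfl⟩

theorem run_complete : ∀ (n : ℕ) (w : List T) (σ : List (Option (c.Q × c.Q))), w.length ≤ n →
    w ∈ SL c σ → Run (Step c) w σ [] := by
  intro n
  induction n with
  | zero =>
    intro w σ hw h
    have : w = [] := by
      cases w with
      | nil => rfl
      | cons _ _ => simp at hw
    subst this
    cases σ with
    | nil => exact Run.nil _
    | cons Z σ =>
      obtain ⟨u, hu, v, hv, he⟩ := h
      obtain ⟨x, u', γ, rfl, _, _⟩ := step_complete c hu
      simp at he
  | succ n ih =>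
    intro w σ hw h
    cases σ with
    | nil =>
      have : w = [] := h
      subst this
      exact Run.nil _
    | cons Z σ =>
      obtain ⟨u, hu, v, hv, rfl⟩ := h
      obtain ⟨x, u', γ, rfl, hs, hu'⟩ := step_complete c hu
      refine Run.cons hs (ih _ _ (by simp at hw ⊢; omega) ?_)
      rw [SL_append]
      exact ⟨u', hu', v, hv, rfl⟩

end stack

/-- A real-time stack system for a language: words are read letter by letter, the top symbol is
replaced by at most two symbols; a nonempty word is in the language iff there is a run from the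
stack `[Z]` to the empty stack. -/
structure Sys (T : Type) (L : Language T) where
  Γ : Type
  fin : Finite Γ
  Z : Γ
  step : Γ → T → List Γ → Prop
  len : ∀ {Z x γ}, step Z x γ → γ.length ≤ 2
  run : ∀ w : List T, w ≠ [] → (w ∈ L ↔ Run step w [Z] [])

theorem exists_sys {T : Type} (g : ContextFreeGrammar T) : Nonempty (Sys T g.language) := by
  refine ⟨⟨Option ((cnf g).Q × (cnf g).Q), ?_, none, Step (cnf g), fun h => Step.length_le _ h, ?_⟩⟩
  · have := (cnf g).fin
    infer_instance
  · intro w hw
    constructor
    · intro h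
      refine run_complete (cnf g) w.length w _ le_rfl ?_
      exact ⟨w, ⟨hw, (cnf_L g w).2 h⟩, [], rfl, by simp⟩
    · intro h
      have := run_sound (cnf g) h [] rfl
      obtain ⟨u, hu, v, hv, he⟩ := this
      have hv0 : v = [] := hv
      subst hv0
      simp only [List.append_nil] at he
      subst he
      exact (cnf_L g w).1 hu.2


end Pool.Agent.H86.GF
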