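import Pool.Agent.H86.GF.Template
import Pool.Agent.H86.GF.Cut

/-!
# Sufficiency of the criterion

Helper file for `MP_f868b6_lc`.
-/

set_option autoImplicit false

namespace Pool.Agent.H86.GF

/-- `b ^ n` as a string -/
abbrev rep {T N : Type} (n : ℕ) (b : T) : List (Symbol T N) := List.replicate n (Symbol.terminal b)

/-- The data used for the construction. -/
structure Dat {T : Type} (G : ContextFreeGrammar T) (a : T) where
  k : G.NT → ℕ
  l : G.NT → ℕ
  m : G.NT → ℕ
  r : G.NT → ℕ
  hr : ∀ E, 1 ≤ r E
  hE : ∀ E, Expansive G a E → G.Derives [Symbol.nonterminal E]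
    (rep (k E) a ++ [Symbol.nonterminal E] ++ rep (l E) a ++ [Symbol.nonterminal E] ++
      rep (m E) a) ∧ G.Derives [Symbol.nonterminal E] (rep (r E) a)
  N : ℕ
  DD : ℕ
  hDD : ∀ E, (k E + l E + m E + r E) ∣ DD
  hDD' : 1 ≤ DD
  Ec : ℕ → G.NT
  p : ℕ → ℕ
  q : ℕ → ℕ
  hc : ∀ i, Expansive G a (Ec i)
  hd : ∀ i, G.Derives [Symbol.nonterminal G.initial]
    (rep (p i) a ++ [Symbol.nonterminal (Ec i)] ++ rep (q i) a)
  hpq : ∀ i, 1 ≤ p i + q i
  hl : ∀ i, p i + q i + r (Ec i) = N + i + (k (Ec i) + l (Ec i) + m (Ec i) + r (Ec i))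

theorem derives_context {T : Type} {G : ContextFreeGrammar T} {x y z u v : List (Symbol T G.NT)}
    (h : G.Derives x (u ++ y ++ v)) (h' : G.Derives y z) : G.Derives x (u ++ z ++ v) :=
  h.trans ((h'.append_left u).append_right v)

theorem exists_dat {T : Type} (G : ContextFreeGrammar T) [Finite G.NT] (a : T)
    (h : ∃ N, ∀ n, N ≤ n → ExpGen G a n) : Nonempty (Dat G a) := by
  classical
  have := Fintype.ofFinite G.NT
  have h1 : ∀ E : G.NT, ∃ k l m r : ℕ, 1 ≤ r ∧ (Expansive G a E →
      G.Derives [Symbol.nonterminal E] (rep k a ++ [Symbol.nonterminal E] ++ rep l a ++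
        [Symbol.nonterminal E] ++ rep m a) ∧ G.Derives [Symbol.nonterminal E] (rep r a)) := by
    intro E
    by_cases hE : Expansive G a E
    · obtain ⟨⟨k, l, m, h1⟩, j, hj, h2⟩ := hE
      exact ⟨k, l, m, j, hj, fun _ => ⟨h1, h2⟩⟩
    · exact ⟨0, 0, 0, 1, le_rfl, fun h => absurd h hE⟩
  choose k l m r hr hE using h1
  obtain ⟨N, hN⟩ := h
  have h2 : ∀ i : ℕ, ∃ (E : G.NT) (p q : ℕ), Expansive G a E ∧
      G.Derives [Symbol.nonterminal G.initial]
        (rep p a ++ [Symbol.nonterminal E] ++ rep q a) ∧ 1 ≤ p + q ∧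
      p + q + r E = (N + 1) + i + (k E + l E + m E + r E) := by
    intro i
    obtain ⟨E, p, q, j, hEx, hn, hd, hj⟩ := hN (N + 1 + i) (by omega)
    refine ⟨E, p + k E + j + l E, m E + q, hEx, ?_, by omega, by omega⟩
    have e1 := derives_context hd (hE E hEx).1
    have e2 : G.Derives [Symbol.nonterminal G.initial]
        ((rep p a ++ rep (k E) a) ++ [Symbol.nonterminal E] ++
          (rep (l E) a ++ [Symbol.nonterminal E] ++ rep (m E) a ++ rep q a)) := by
      simpa only [List.append_assoc] using e1
    have e3 := derives_context e2 hj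
    have : rep p a ++ rep (k E) a ++ List.replicate j (Symbol.terminal a) ++
        (rep (l E) a ++ [Symbol.nonterminal E] ++ rep (m E) a ++ rep q a) =
        rep (p + k E + j + l E) a ++ [Symbol.nonterminal E] ++ rep (m E + q) a := by
      simp only [rep, List.replicate_add, List.append_assoc]
    rw [this] at e3
    exact e3
  choose Ec p q hc hd hpq hl using h2
  refine ⟨⟨k, l, m, r, hr, hE, N + 1, ∏ E : G.NT, (k E + l E + m E + r E), ?_, ?_, Ec, p, q, hc, hd,
    hpq, hl⟩⟩
  · intro E
    exact Finset.dvd_prod_of_mem _ (Finset.mem_univ E)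
  · have hp : 0 < ∏ E : G.NT, (k E + l E + m E + r E) :=
      Finset.prod_pos (fun E _ => by have := hr E; show 0 < k E + l E + m E + r E; omega)
    exact hp

theorem first_step {T : Type} {G : ContextFreeGrammar T} {X : G.NT} {v : List (Symbol T G.NT)}
    (h : G.Derives [Symbol.nonterminal X] v) (hv : v ≠ [Symbol.nonterminal X]) :
    ∃ r₀ ∈ G.rules, r₀.input = X ∧ G.Derives r₀.output v := by
  rcases h.eq_or_head with h | ⟨u, hu, h⟩
  · exact absurd h.symm hv
  · obtain ⟨r, hr, hrw⟩ := hu
    refine ⟨r, hr, ?_⟩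
    cases hrw with
    | head s => exact ⟨rfl, by simpa using h⟩
    | cons x hx => cases hx

section suff

variable {T T' : Type} {G : ContextFreeGrammar T} {a : T} (D : Dat G a)
  {g : ContextFreeGrammar T'} (S : Sys T' g.language)

/-- bound for the stacks -/
def Dat.M : ℕ := 12 * D.DD + 11 + D.N

/-- pairs of stacks -/
abbrev SP : Type := {x : List S.Γ × List S.Γ // x.1.length + x.2.length ≤ D.M}

/-- nonterminals of the intermediate grammar -/
abbrev N1 : Type := Option (G.NT × SP D S)

/-- the modulus -/
def Dat.d (E : G.NT) : ℕ := D.k E + D.l E + D.m E + D.r E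

theorem Dat.d_le (E : G.NT) : D.d E ≤ D.DD := Nat.le_of_dvd D.hDD' (D.hDD E)

/-- the rules of the intermediate grammar -/
inductive Rl : ContextFreeRule T' (N1 D S) → Prop
  | r0 (w : List T') : w ≠ [] → w ∈ g.language → w.length < D.N + D.DD →
      Rl ⟨none, w.map Symbol.terminal⟩
  | r1 (i : ℕ) (u v : List T') (σ τ : List S.Γ) (h : σ.length + τ.length ≤ D.M) : i < D.DD →
      u.length = D.p i → v.length = D.q i → Run S.step u [S.Z] σ → Run S.step v τ [] →
      Rl ⟨none, u.map Symbol.terminal ++ [Symbol.nonterminal (some (D.Ec i, ⟨(σ, τ), h⟩))] ++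
        v.map Symbol.terminal⟩
  | r2 (E : G.NT) (P P1 P2 : SP D S) (w1 w2 w3 : List T') (η1 η2 : List S.Γ) :
      Expansive G a E → w1.length = D.k E → w2.length = D.l E → w3.length = D.m E →
      Run S.step w1 P.1.1 (P1.1.1 ++ η1) → Run S.step w2 (P1.1.2 ++ η1) (P2.1.1 ++ η2) →
      Run S.step w3 (P2.1.2 ++ η2) P.1.2 →
      Rl ⟨some (E, P), w1.map Symbol.terminal ++ [Symbol.nonterminal (some (E, P1))] ++
        w2.map Symbol.terminal ++ [Symbol.nonterminal (some (E, P2))] ++
        w3.map Symbol.terminal⟩
  | r3 (E : G.NT) (P : SP D S) (w : List T') : Expansive G a E → w.length = D.r E →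
      Run S.step w P.1.1 P.1.2 → Rl ⟨some (E, P), w.map Symbol.terminal⟩

theorem SP_finite : Finite (SP D S) := by
  have := S.fin
  have h := (List.finite_length_le S.Γ D.M).prod (List.finite_length_le S.Γ D.M)
  have h2 : {x : List S.Γ × List S.Γ | x.1.length + x.2.length ≤ D.M}.Finite := by
    refine h.subset ?_
    rintro ⟨x, y⟩ hxy
    have : x.length + y.length ≤ D.M := hxy
    exact ⟨show x.length ≤ _ by omega, show y.length ≤ _ by omega⟩
  exact h2.to_subtype

theorem N1_finite [Finite G.NT] : Finite (N1 D S) := by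
  have := SP_finite D S
  infer_instance

theorem Rl_finite [Finite G.NT] [Finite T'] : {r | Rl D S r}.Finite := by
  classical
  have := N1_finite D S
  have := Fintype.ofFinite T'
  have := Fintype.ofFinite (N1 D S)
  refine (finite_rules (Set.finite_univ (α := N1 D S)) (Set.finite_univ (α := Symbol T' (N1 D S)))
    (3 * D.DD + D.N + 3)).subset ?_
  intro r hr
  refine ⟨trivial, ?_, fun _ _ => trivial⟩
  cases hr with
  | r0 w _ _ hw => simp; omega
  | r1 i u v σ τ h hi hu hv _ _ =>
    have h1 := D.hl i
    have h2 := D.d_le (D.Ec i)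
    unfold Dat.d at h2
    simp
    omega
  | r2 E P P1 P2 w1 w2 w3 η1 η2 _ h1 h2 h3 _ _ _ =>
    have h4 := D.d_le E
    unfold Dat.d at h4
    simp
    omega
  | r3 E P w _ h1 _ =>
    have h4 := D.d_le E
    unfold Dat.d at h4
    simp
    omega

/-- the intermediate grammar -/
noncomputable abbrev ig [Finite G.NT] [Finite T'] : ContextFreeGrammar T' where
  NT := N1 D S
  initial := none
  rules := (Rl_finite D S).toFinset

/-- the colours -/
def ic [Finite G.NT] [Finite T'] : (ig D S).NT → G.NT
  | none => G.initial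
  | some (E, _) => E

theorem ig_mem [Finite G.NT] [Finite T'] {r : ContextFreeRule T' (N1 D S)} :
    r ∈ (ig D S).rules ↔ Rl D S r := Set.Finite.mem_toFinset _

theorem shape_terminals [Finite G.NT] [Finite T'] (w : List T') :
    (w.map Symbol.terminal).map (shape G a (ig D S) (ic D S)) = rep w.length a := by
  induction w with
  | nil => rfl
  | cons x w ih =>
    rw [List.map_cons, List.map_cons, ih]
    rfl

theorem ig_shape [Finite G.NT] [Finite T']
    (h1 : ∀ n, 1 ≤ n → G.Derives [Symbol.nonterminal G.initial] (rep n a)) :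
    ∀ r ∈ (ig D S).rules, ∃ r₀ ∈ G.rules, r₀.input = ic D S r.input ∧
      G.Derives r₀.output (r.output.map (shape G a (ig D S) (ic D S))) := by
  intro r hr
  cases (ig_mem D S).1 hr with
  | r0 w hw _ _ =>
    have hl : 1 ≤ w.length := List.length_pos_iff.2 hw
    refine first_step (X := G.initial) ?_ ?_
    · show G.Derives _ ((w.map Symbol.terminal).map (shape G a (ig D S) (ic D S)))
      rw [shape_terminals]
      exact h1 _ hl
    · show (w.map Symbol.terminal).map (shape G a (ig D S) (ic D S)) ≠ _
      rw [shape_terminals]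
      cases w with
      | nil => exact absurd rfl hw
      | cons x w => simp [rep, List.replicate_succ]
  | r1 i u v σ τ h hi hu hv _ _ =>
    have e : (u.map Symbol.terminal ++ [Symbol.nonterminal (some (D.Ec i, (⟨(σ, τ), h⟩ : SP D S)) : N1 D S)] ++
        v.map Symbol.terminal).map (shape G a (ig D S) (ic D S)) =
        rep (D.p i) a ++ [Symbol.nonterminal (D.Ec i)] ++ rep (D.q i) a := by
      rw [List.map_append, List.map_append, shape_terminals, shape_terminals, hu, hv]
      rfl
    refine first_step (X := G.initial) ?_ ?_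
    · show G.Derives _ ((u.map Symbol.terminal ++
        [Symbol.nonterminal (some (D.Ec i, (⟨(σ, τ), h⟩ : SP D S)) : N1 D S)] ++
        v.map Symbol.terminal).map (shape G a (ig D S) (ic D S)))
      rw [e]
      exact D.hd i
    · show (u.map Symbol.terminal ++
        [Symbol.nonterminal (some (D.Ec i, (⟨(σ, τ), h⟩ : SP D S)) : N1 D S)] ++
        v.map Symbol.terminal).map (shape G a (ig D S) (ic D S)) ≠ _
      rw [e]
      intro he
      have h5 := congrArg List.length he
      have h6 := D.hpq i
      simp [rep] at h5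
      omega
  | r2 E P P1 P2 w1 w2 w3 η1 η2 hE e1 e2 e3 _ _ _ =>
    have e : (w1.map Symbol.terminal ++ [Symbol.nonterminal (some (E, P1))] ++
        w2.map Symbol.terminal ++ [Symbol.nonterminal (some (E, P2))] ++
        w3.map Symbol.terminal).map (shape G a (ig D S) (ic D S)) =
        rep (D.k E) a ++ [Symbol.nonterminal E] ++ rep (D.l E) a ++ [Symbol.nonterminal E] ++
          rep (D.m E) a := by
      rw [List.map_append, List.map_append, List.map_append, List.map_append, shape_terminals,
        shape_terminals, shape_terminals, e1, e2, e3]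
      rfl
    refine first_step (X := E) ?_ ?_
    · show G.Derives _ ((w1.map Symbol.terminal ++ [Symbol.nonterminal (some (E, P1))] ++
        w2.map Symbol.terminal ++ [Symbol.nonterminal (some (E, P2))] ++
        w3.map Symbol.terminal).map (shape G a (ig D S) (ic D S)))
      rw [e]
      exact (D.hE E hE).1
    · show (w1.map Symbol.terminal ++ [Symbol.nonterminal (some (E, P1))] ++
        w2.map Symbol.terminal ++ [Symbol.nonterminal (some (E, P2))] ++
        w3.map Symbol.terminal).map (shape G a (ig D S) (ic D S)) ≠ _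
      rw [e]
      intro he
      have := congrArg List.length he
      simp [rep] at this
      omega
  | r3 E P w hE e1 _ =>
    refine first_step (X := E) ?_ ?_
    · show G.Derives _ ((w.map Symbol.terminal).map (shape G a (ig D S) (ic D S)))
      rw [shape_terminals, e1]
      exact (D.hE E hE).2
    · show (w.map Symbol.terminal).map (shape G a (ig D S) (ic D S)) ≠ _
      rw [shape_terminals]
      have := D.hr E
      cases w with
      | nil => simp at e1; omega
      | cons x w => simp [rep, List.replicate_succ]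

/-- the languages of the nonterminals -/
def IL [Finite G.NT] [Finite T'] : (ig D S).NT → Set (List T')
  | none => {w | w ≠ [] ∧ w ∈ g.language}
  | some (_, P) => {w | Run S.step w P.1.1 P.1.2}

theorem mem_lang_nt {T N : Type} {I : N → Set (List T)} {B : N} {w : List T}
    (h : w ∈ Lang I [Symbol.nonterminal (T := T) B]) : w ∈ I B := by
  obtain ⟨u, hu, v, hv, rfl⟩ := h
  have : v = [] := hv
  subst this
  simpa using hu

theorem ig_sound [Finite G.NT] [Finite T'] {w : List T'} (h : w ∈ (ig D S).language) :
    w ≠ [] ∧ w ∈ g.language := by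
  have key := lang_sound (g := ig D S) (I := IL D S) ?_ h
  · exact mem_lang_nt key
  · intro r hr w hw
    cases (ig_mem D S).1 hr with
    | r0 w' h1 h2 _ =>
      have := (lang_terminals_iff w' w).1 hw
      subst this
      exact ⟨h1, h2⟩
    | r1 i u v σ τ h hi hu hv h1 h2 =>
      rw [lang_append] at hw
      obtain ⟨x, hx, y, hy, rfl⟩ := hw
      rw [lang_append] at hx
      obtain ⟨x1, hx1, x2, hx2, rfl⟩ := hx
      have e1 := (lang_terminals_iff _ _).1 hx1
      have e2 := (lang_terminals_iff _ _).1 hy
      have e3 := mem_lang_nt hx2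
      subst e1 e2
      have hrun : Run S.step (x1 ++ x2 ++ y) [S.Z] [] := (h1.append e3).append h2
      have hne : x1 ++ x2 ++ y ≠ [] := by
        intro he
        rw [he] at hrun
        cases hrun
      exact ⟨hne, (S.run _ hne).2 hrun⟩
    | r2 E P P1 P2 w1 w2 w3 η1 η2 hE e1 e2 e3 h1 h2 h3 =>
      rw [lang_append] at hw
      obtain ⟨x, hx, y3, hy3, rfl⟩ := hw
      rw [lang_append] at hx
      obtain ⟨x, hx, z2, hz2, rfl⟩ := hx
      rw [lang_append] at hx
      obtain ⟨x, hx, y2, hy2, rfl⟩ := hx
      rw [lang_append] at hx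
      obtain ⟨y1, hy1, z1, hz1, rfl⟩ := hx
      have f1 := (lang_terminals_iff _ _).1 hy1
      have f2 := (lang_terminals_iff _ _).1 hy2
      have f3 := (lang_terminals_iff _ _).1 hy3
      have g1' := mem_lang_nt hz1
      have g1 : Run S.step z1 P1.1.1 P1.1.2 := g1'
      have g2' := mem_lang_nt hz2
      have g2 : Run S.step z2 P2.1.1 P2.1.2 := g2'
      subst f1 f2 f3
      exact (((h1.append (g1.lift η1)).append h2).append (g2.lift η2)).append h3
    | r3 E P w' hE e1 h1 =>
      have := (lang_terminals_iff w' w).1 hw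
      subst this
      exact h1

theorem ig_rule [Finite G.NT] [Finite T'] {A : N1 D S} {out : List (Symbol T' (N1 D S))}
    {w : List T'} (hr : Rl D S ⟨A, out⟩)
    (h : (ig D S).Derives out (w.map Symbol.terminal)) :
    (ig D S).Derives [Symbol.nonterminal A] (w.map Symbol.terminal) := by
  refine Relation.ReflTransGen.trans (Relation.ReflTransGen.single ?_) h
  exact ⟨⟨A, out⟩, (ig_mem D S).2 hr, ContextFreeRule.Rewrites.input_output⟩

theorem ig_complete_seg [Finite G.NT] [Finite T'] (E : G.NT) (hE : Expansive G a E) :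
    ∀ (j : ℕ) (P : SP D S) (w : List T'), w.length = D.r E + j * D.d E →
      Run S.step w P.1.1 P.1.2 →
      (ig D S).Derives [Symbol.nonterminal (some (E, P))] (w.map Symbol.terminal) := by
  intro j
  induction j using Nat.strong_induction_on with
  | _ j ih =>
    intro P w hw h
    cases j with
    | zero =>
      exact ig_rule D S (Rl.r3 E P w hE (by simpa using hw) h) Relation.ReflTransGen.refl
    | succ q =>
      obtain ⟨q1, q2, hq, w1, x, w2, y, w3, rfl, l1, l2, l3, l4, l5, α1, β1, η1, α2, β2, η2, m1,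
        m2, r1, r2, r3, r4, r5⟩ := Run.decompose (k := D.k E) (l := D.l E) (m := D.m E)
          (r := D.r E) (q := q) (M := D.M) (D := D.d E) S.len (D.hr E) rfl (by
            have := D.d_le E
            unfold Dat.M
            omega) hw h P.2
      refine ig_rule D S (Rl.r2 E P ⟨(α1, β1), m1⟩ ⟨(α2, β2), m2⟩ w1 w2 w3 η1 η2 hE l1 l3 l5
        r1 r3 r5) ?_
      have d1 := ih q1 (by omega) ⟨(α1, β1), m1⟩ x l2 r2
      have d2 := ih q2 (by omega) ⟨(α2, β2), m2⟩ y l4 r4
      have e : (w1 ++ (x ++ (w2 ++ (y ++ w3)))).map (Symbol.terminal (N := N1 D S)) =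
          w1.map Symbol.terminal ++ x.map Symbol.terminal ++ w2.map Symbol.terminal ++
          y.map Symbol.terminal ++ w3.map Symbol.terminal := by
        simp
      show (ig D S).Derives _ ((w1 ++ (x ++ (w2 ++ (y ++ w3)))).map
        (Symbol.terminal (N := N1 D S)))
      rw [e]
      refine derives_append' (derives_append' (derives_append' (derives_append'
        Relation.ReflTransGen.refl d1) Relation.ReflTransGen.refl) d2) Relation.ReflTransGen.refl

theorem Run.bound_left {Γ T : Type} {step : Γ → T → List Γ → Prop}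
    (hlen : ∀ {Z x γ}, step Z x γ → γ.length ≤ 2) {w : List T} {σ τ : List Γ}
    (h : Run step w σ τ) : τ.length ≤ σ.length + w.length ∧ σ.length ≤ τ.length + w.length := by
  induction h with
  | nil => simp
  | cons hs _ ih =>
    have := hlen hs
    simp at ih ⊢
    omega

theorem ig_complete [Finite G.NT] [Finite T'] {w : List T'} (hw : w ≠ [])
    (h : w ∈ g.language) : w ∈ (ig D S).language := by
  show (ig D S).Derives [Symbol.nonterminal none] _
  by_cases hl : w.length < D.N + D.DD
  · exact ig_rule D S (Rl.r0 w hw h hl) Relation.ReflTransGen.refl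
  · have hrun := (S.run w hw).1 h
    set i := (w.length - D.N) % D.DD with hi
    have hi' : i < D.DD := Nat.mod_lt _ D.hDD'
    have hdm := Nat.div_add_mod (w.length - D.N) D.DD
    rw [← hi] at hdm
    set t := (w.length - D.N) / D.DD with ht
    have ht1 : 1 ≤ t := by
      rw [ht]
      exact (Nat.one_le_div_iff D.hDD').2 (by omega)
    obtain ⟨t', ht'⟩ : ∃ t', t = t' + 1 := ⟨t - 1, by omega⟩
    rw [ht'] at hdm
    have hlen : w.length = D.N + i + D.DD * (t' + 1) := by omega
    obtain ⟨c, hc⟩ := D.hDD (D.Ec i)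
    have hl' := D.hl i
    have hc1 : 1 ≤ c := by
      by_contra hcon
      have : c = 0 := by omega
      have h0 := D.hDD'
      rw [hc, this] at h0
      simp at h0
    obtain ⟨c', rfl⟩ : ∃ c', c = c' + 1 := ⟨c - 1, by omega⟩
    -- length of the middle part
    have hlen2 : w.length = D.p i + D.q i + (D.r (D.Ec i) +
        ((c' + 1) * t' + c') * D.d (D.Ec i)) := by
      have e1 : D.DD = D.d (D.Ec i) * (c' + 1) := hc
      have e2 : D.p i + D.q i + D.r (D.Ec i) = D.N + i + D.d (D.Ec i) := hl'
      rw [hlen, e1]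
      have e3 : D.p i + D.q i + (D.r (D.Ec i) + ((c' + 1) * t' + c') * D.d (D.Ec i)) =
        (D.p i + D.q i + D.r (D.Ec i)) + ((c' + 1) * t' + c') * D.d (D.Ec i) := by ring
      rw [e3, e2]
      ring
    set j := (c' + 1) * t' + c' with hj
    set L := D.r (D.Ec i) + j * D.d (D.Ec i) with hL
    have e1 : w = w.take (D.p i) ++ ((w.drop (D.p i)).take L ++ w.drop (D.p i + L)) := by
      conv_lhs => rw [← List.take_append_drop (D.p i) w]
      congr 1
      conv_lhs => rw [← List.take_append_drop L (w.drop (D.p i))]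
      rw [List.drop_drop]
    rw [e1] at hrun
    obtain ⟨σ, r1, r2⟩ := hrun.split
    obtain ⟨τ, r2, r3⟩ := r2.split
    have lu : (w.take (D.p i)).length = D.p i := by rw [List.length_take]; omega
    have lv : (w.drop (D.p i + L)).length = D.q i := by rw [List.length_drop]; omega
    have ly : ((w.drop (D.p i)).take L).length = L := by
      rw [List.length_take, List.length_drop]; omega
    have b1 := (r1.bound_left S.len).1
    have b2 := (r3.bound_left S.len).2
    have b3 := D.d_le (D.Ec i)
    have hM : σ.length + τ.length ≤ D.M := by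
      rw [lu] at b1
      rw [lv] at b2
      simp at b1 b2
      unfold Dat.M
      unfold Dat.d at b3
      omega
    refine ig_rule D S (Rl.r1 i (w.take (D.p i)) (w.drop (D.p i + L)) σ τ hM hi' lu lv r1 r3) ?_
    have d1 := ig_complete_seg D S (D.Ec i) (D.hc i) j ⟨(σ, τ), hM⟩ _ ly r2
    have e2 : w.map (Symbol.terminal (N := N1 D S)) = (w.take (D.p i)).map Symbol.terminal ++
        ((w.drop (D.p i)).take L).map Symbol.terminal ++
        (w.drop (D.p i + L)).map Symbol.terminal := by
      conv_lhs => rw [e1]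
      simp [List.append_assoc]
    show (ig D S).Derives _ (w.map (Symbol.terminal (N := N1 D S)))
    rw [e2]
    exact derives_append' (derives_append' Relation.ReflTransGen.refl d1)
      Relation.ReflTransGen.refl

end suff

/-- Sufficiency of the criterion. -/
theorem sufficiency {T T' : Type} [Finite T'] (G : ContextFreeGrammar T) [Finite G.NT] (a : T)
    (h1 : ∀ n, 1 ≤ n → G.Derives [Symbol.nonterminal G.initial] (rep n a))
    (h2 : ∃ N, ∀ n, N ≤ n → ExpGen G a n) (g : ContextFreeGrammar T') :
    ∃ H : ContextFreeGrammar T', StrictInterp H G ∧ EqUpToEmpty H.language g.language := by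
  obtain ⟨D⟩ := exists_dat G a h2
  obtain ⟨S⟩ := exists_sys g
  have : Finite (ig D S).NT := N1_finite D S
  refine ⟨tgr G a (ig D S) (ic D S), tgr_strict, ?_⟩
  rw [tgr_language rfl (ig_shape D S h1)]
  intro w hw
  exact ⟨fun h => (ig_sound D S h).2, fun h => ig_complete D S hw h⟩

end Pool.Agent.H86.GF
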