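import Pool.Agent.H86.GF.Defs
import Pool.Agent.H86.GF.Basic

/-!
# Grammars whose rules are derived rules of a grammar form

Helper file for `MP_f868b6_lc`.
-/

set_option autoImplicit false

namespace Pool.Agent.H86.GF

theorem finite_lists {α : Type*} {s : Set α} (hs : s.Finite) (n : ℕ) :
    {l : List α | l.length ≤ n ∧ ∀ x ∈ l, x ∈ s}.Finite := by
  have := hs.to_subtype
  refine ((List.finite_length_le ↥s n).image (List.map Subtype.val)).subset ?_
  rintro l ⟨h1, h2⟩
  refine ⟨l.attach.map (fun x => ⟨x.1, h2 x.1 x.2⟩), by simpa using h1, ?_⟩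
  simp [List.map_map, Function.comp_def]

theorem finite_rules {T N : Type*} {A : Set N} {s : Set (Symbol T N)} (hA : A.Finite)
    (hs : s.Finite) (n : ℕ) :
    {r : ContextFreeRule T N | r.input ∈ A ∧ r.output.length ≤ n ∧ ∀ x ∈ r.output, x ∈ s}.Finite := by
  refine ((hA.prod (finite_lists hs n)).image (fun p => ⟨p.1, p.2⟩)).subset ?_
  rintro r ⟨h1, h2, h3⟩
  exact ⟨(r.input, r.output), ⟨h1, h2, h3⟩, rfl⟩

section template

variable {T T' : Type} (G : ContextFreeGrammar T) (a : T) (g1 : ContextFreeGrammar T')
  (color : g1.NT → G.NT)

/-- the shape of a symbol -/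
def shape : Symbol T' g1.NT → Symbol T G.NT
  | Symbol.terminal _ => Symbol.terminal a
  | Symbol.nonterminal B => Symbol.nonterminal (color B)

/-- the nonterminals of the new grammar: `(X, β)` derives what `β` derives, by a derivation which
begins in the way in which the shape of `β` is derived from `X` -/
abbrev NTH : Type := G.NT × List (Symbol T' g1.NT)

/-- factorisations of the string `β` along the string `γ` -/
inductive Fact : List (Symbol T G.NT) → List (Symbol T' g1.NT) →
    List (Symbol T' (NTH G g1)) → Prop
  | nil : Fact [] [] []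
  | term (x : T') {γ : List (Symbol T G.NT)} {β : List (Symbol T' g1.NT)}
      {out : List (Symbol T' (NTH G g1))} : Fact γ β out →
      Fact (Symbol.terminal a :: γ) (Symbol.terminal x :: β) (Symbol.terminal x :: out)
  | nonterm (Y : G.NT) (δ : List (Symbol T' g1.NT)) {γ : List (Symbol T G.NT)}
      {β : List (Symbol T' g1.NT)} {out : List (Symbol T' (NTH G g1))} : Fact γ β out →
      Fact (Symbol.nonterminal Y :: γ) (δ ++ β) (Symbol.nonterminal (Y, δ) :: out)

/-- a bound for the lengths of the rules -/
noncomputable def KB : ℕ := (g1.rules.sup fun r => r.output.length) + 1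

theorem le_KB {r : ContextFreeRule T' g1.NT} (hr : r ∈ g1.rules) :
    r.output.length ≤ KB g1 := by
  have := Finset.le_sup (f := fun r : ContextFreeRule T' g1.NT => r.output.length) hr
  unfold KB
  omega

/-- the rules -/
def RS : Set (ContextFreeRule T' (NTH G g1)) :=
  {r | r.input.2.length ≤ KB g1 ∧ ∃ r₀ ∈ G.rules, r₀.input = r.input.1 ∧ ∃ β',
    β'.length ≤ KB g1 ∧ (β' = r.input.2 ∨ ∃ B, r.input.2 = [Symbol.nonterminal B] ∧
      color B = r.input.1 ∧ (⟨B, β'⟩ : ContextFreeRule T' g1.NT) ∈ g1.rules) ∧
    Fact G a g1 r₀.output β' r.output}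

variable {G a g1 color}

theorem Fact.length {γ : List (Symbol T G.NT)} {β : List (Symbol T' g1.NT)}
    {out : List (Symbol T' (NTH G g1))} (h : Fact G a g1 γ β out) : out.length = γ.length := by
  induction h with
  | nil => rfl
  | term x _ ih => simp [ih]
  | nonterm Y δ _ ih => simp [ih]

theorem Fact.mem {γ : List (Symbol T G.NT)} {β : List (Symbol T' g1.NT)}
    {out : List (Symbol T' (NTH G g1))} (h : Fact G a g1 γ β out) {Y : G.NT}
    {δ : List (Symbol T' g1.NT)} (hm : Symbol.nonterminal (Y, δ) ∈ out) :
    δ.length ≤ β.length := by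
  induction h with
  | nil => simp at hm
  | term x _ ih =>
    simp only [List.mem_cons, reduceCtorEq, false_or] at hm
    have := ih hm
    simp
    omega
  | nonterm Y' δ' _ ih =>
    simp only [List.mem_cons, Symbol.nonterminal.injEq, Prod.mk.injEq] at hm
    rw [List.length_append]
    rcases hm with ⟨_, rfl⟩ | hm
    · omega
    · have := ih hm
      omega

theorem RS_finite [Finite T'] [Finite g1.NT] [Finite G.NT] : (RS G a g1 color).Finite := by
  classical
  have := Fintype.ofFinite T'
  have := Fintype.ofFinite g1.NT
  have hB : {β : List (Symbol T' g1.NT) | β.length ≤ KB g1}.Finite :=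
    List.finite_length_le _ _
  have hA : {p : NTH G g1 | p.2.length ≤ KB g1}.Finite := by
    have := (Set.finite_univ (α := G.NT)).prod hB
    refine this.subset ?_
    rintro ⟨X, β⟩ h
    exact ⟨trivial, h⟩
  have hs : (Set.range (Symbol.terminal : T' → Symbol T' (NTH G g1)) ∪
      Symbol.nonterminal '' {p : NTH G g1 | p.2.length ≤ KB g1}).Finite :=
    (Set.finite_range _).union (hA.image _)
  refine (finite_rules hA hs (G.rules.sup fun r => r.output.length)).subset ?_
  rintro r ⟨h1, r₀, hr₀, h2, β', hβ', _, hf⟩
  refine ⟨h1, ?_, ?_⟩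
  · rw [hf.length]
    exact Finset.le_sup (f := fun r : ContextFreeRule T G.NT => r.output.length) hr₀
  · intro x hx
    cases x with
    | terminal x => exact Or.inl ⟨x, rfl⟩
    | nonterminal p =>
      obtain ⟨Y, δ⟩ := p
      refine Or.inr ⟨(Y, δ), ?_, rfl⟩
      exact (hf.mem hx).trans hβ'

variable (G a g1 color)

/-- the new grammar -/
noncomputable def tgr [Finite T'] [Finite g1.NT] [Finite G.NT] : ContextFreeGrammar T' where
  NT := NTH G g1
  initial := (G.initial, [Symbol.nonterminal g1.initial])
  rules := (RS_finite (G := G) (a := a) (g1 := g1) (color := color)).toFinset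

variable {G a g1 color}

theorem tgr_sound [Finite T'] [Finite g1.NT] [Finite G.NT] {w : List T'}
    (h : w ∈ (tgr G a g1 color).language) : w ∈ g1.language := by
  have key := lang_sound (g := tgr G a g1 color)
    (I := fun p => {w | g1.Derives p.2 (w.map Symbol.terminal)}) ?_ h
  · obtain ⟨u, hu, v, hv, rfl⟩ := key
    have : v = [] := hv
    subst this
    rw [List.append_nil]
    exact hu
  · intro r hr w hw
    have hr' : r ∈ RS G a g1 color := (Set.Finite.mem_toFinset _).1 hr
    obtain ⟨h1, r₀, hr₀, h2, β', hβ', h3, hf⟩ := hr'
    have h4 : g1.Derives β' (w.map Symbol.terminal) := by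
      clear h3 hβ' hr h1 h2 hr₀
      generalize r.output = out at hf hw
      generalize r₀.output = γ at hf
      induction hf generalizing w with
      | nil =>
        have : w = [] := hw
        subst this
        exact Relation.ReflTransGen.refl
      | term x _ ih =>
        obtain ⟨v, hv, rfl⟩ := hw
        have := (ih hv).append_left [Symbol.terminal x]
        simpa using this
      | nonterm Y δ _ ih =>
        obtain ⟨u, hu, v, hv, rfl⟩ := hw
        have := derives_append' (show g1.Derives δ (u.map Symbol.terminal) from hu) (ih hv)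
        simpa using this
    rcases h3 with h3 | ⟨B, hB, _, hr⟩
    · rw [h3] at h4
      exact h4
    · show g1.Derives r.input.2 _
      rw [hB]
      refine Relation.ReflTransGen.trans (Relation.ReflTransGen.single ?_) h4
      exact ⟨_, hr, ContextFreeRule.Rewrites.input_output⟩

theorem fact_complete [Finite T'] [Finite g1.NT] [Finite G.NT] {n1 n2 : ℕ}
    (P : ∀ (Y : G.NT) (δ : List (Symbol T' g1.NT)) (w : List T') (m1 m2 : ℕ), m1 ≤ n1 → m2 ≤ n2 →
      δ.length ≤ KB g1 → Der g1 m1 δ (w.map Symbol.terminal) →
      Der G m2 [Symbol.nonterminal Y] (δ.map (shape G a g1 color)) →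
      (tgr G a g1 color).Derives [Symbol.nonterminal (Y, δ)] (w.map Symbol.terminal)) :
    ∀ (γ : List (Symbol T G.NT)) (β : List (Symbol T' g1.NT)) (w : List T') (m1 m2 : ℕ),
      m1 ≤ n1 → m2 ≤ n2 → β.length ≤ KB g1 → Der g1 m1 β (w.map Symbol.terminal) →
      Der G m2 γ (β.map (shape G a g1 color)) →
      ∃ out : List (Symbol T' (NTH G g1)), Fact G a g1 γ β out ∧
        (tgr G a g1 color).Derives out (w.map Symbol.terminal) := by
  intro γ
  induction γ with
  | nil =>
    intro β w m1 m2 _ _ _ h1 h2
    generalize hs : β.map (shape G a g1 color) = b at h2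
    cases h2
    have : β = [] := by simpa using hs
    subst this
    generalize hw : w.map (Symbol.terminal (N := g1.NT)) = w' at h1
    cases h1
    have : w = [] := by simpa using hw
    subst this
    exact ⟨[], Fact.nil, Relation.ReflTransGen.refl⟩
  | cons s γ ih =>
    intro β w m1 m2 hm1 hm2 hβ h1 h2
    cases s with
    | terminal c =>
      generalize hs : β.map (shape G a g1 color) = b at h2
      cases h2 with
      | keep _ h2 =>
        cases β with
        | nil => simp at hs
        | cons s β =>
          rw [List.map_cons, List.cons.injEq] at hs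
          obtain ⟨hs1, rfl⟩ := hs
          cases s with
          | nonterminal B => simp [shape] at hs1
          | terminal x =>
            have hc : a = c := by simpa [shape] using hs1
            subst hc
            generalize hw : w.map (Symbol.terminal (N := g1.NT)) = w' at h1
            cases h1 with
            | keep _ h1 =>
              cases w with
              | nil => simp at hw
              | cons y w =>
                rw [List.map_cons, List.cons.injEq] at hw
                obtain ⟨hw1, rfl⟩ := hw
                have : y = x := by simpa using hw1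
                subst this
                obtain ⟨out, ho1, ho2⟩ := ih β w _ _ hm1 hm2 (by simp at hβ; omega) h1 h2
                refine ⟨_, Fact.term y ho1, ?_⟩
                exact ho2.append_left [Symbol.terminal y]
    | nonterminal Y =>
      have h2' := h2
      rw [show Symbol.nonterminal Y :: γ = [Symbol.nonterminal Y] ++ γ from rfl] at h2'
      obtain ⟨k1, k2, v1, v2, rfl, hv, d1, d2⟩ := h2'.split
      obtain ⟨δ, β, rfl, rfl, rfl⟩ := List.map_eq_append_iff.1 hv
      obtain ⟨l1, l2, w1, w2, rfl, hw, e1, e2⟩ := h1.split
      obtain ⟨w1, w2, rfl, rfl, rfl⟩ := List.map_eq_append_iff.1 hw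
      rw [List.length_append] at hβ
      obtain ⟨out, ho1, ho2⟩ := ih β w2 _ _ (by omega) (by omega) (by omega) e2 d2
      have ho3 := P Y δ w1 l1 k1 (by omega) (by omega) (by omega) e1 d1
      refine ⟨_, Fact.nonterm Y δ ho1, ?_⟩
      rw [List.map_append]
      exact derives_append' ho3 ho2

theorem tgr_complete_aux [Finite T'] [Finite g1.NT] [Finite G.NT]
    (hrule : ∀ r ∈ g1.rules, ∃ r₀ ∈ G.rules, r₀.input = color r.input ∧
      G.Derives r₀.output (r.output.map (shape G a g1 color))) :
    ∀ (n1 n2 : ℕ) (Y : G.NT) (δ : List (Symbol T' g1.NT)) (w : List T'),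
      δ.length ≤ KB g1 → Der g1 n1 δ (w.map Symbol.terminal) →
      Der G n2 [Symbol.nonterminal Y] (δ.map (shape G a g1 color)) →
      (tgr G a g1 color).Derives [Symbol.nonterminal (Y, δ)] (w.map Symbol.terminal) := by
  intro n1
  induction n1 using Nat.strong_induction_on with
  | _ n1 ih1 =>
    intro n2
    induction n2 using Nat.strong_induction_on with
    | _ n2 ih2 =>
      intro Y δ w hδ h1 h2
      generalize hs : δ.map (shape G a g1 color) = b at h2
      cases h2 with
      | keep _ h2 =>
        cases h2
        obtain ⟨s, rfl, hs1⟩ : ∃ s, δ = [s] ∧ shape G a g1 color s = Symbol.nonterminal Y := by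
          cases δ with
          | nil => simp at hs
          | cons s δ =>
            rw [List.map_cons, List.cons.injEq] at hs
            have : δ = [] := by simpa using hs.2
            subst this
            exact ⟨s, rfl, hs.1⟩
        cases s with
        | terminal x => simp [shape] at hs1
        | nonterminal B =>
          have hB : color B = Y := by simpa [shape] using hs1
          generalize hw : w.map (Symbol.terminal (N := g1.NT)) = w' at h1
          cases h1 with
          | keep _ h1 =>
            cases w with
            | nil => simp at hw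
            | cons y w => simp at hw
          | @expand m1 m2 r _ v1 v2 hr e1 e2 =>
            cases e2
            rw [List.append_nil] at hw
            subst hw
            obtain ⟨r₀, hr₀, hi, hd⟩ := hrule r hr
            obtain ⟨k, hk⟩ := Der.of_derives hd
            obtain ⟨out, ho1, ho2⟩ := fact_complete (n1 := m1) (n2 := k)
              (fun Y δ w m1' m2' h1 h2 h3 h4 h5 => ih1 m1' (by omega) m2' Y δ w h3 h4 h5)
              r₀.output r.output w m1 k le_rfl le_rfl (le_KB g1 hr) e1 hk
            refine Relation.ReflTransGen.trans (Relation.ReflTransGen.single ?_) ho2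
            refine ⟨(⟨(Y, [Symbol.nonterminal r.input]), out⟩ :
              ContextFreeRule T' (NTH G g1)), ?_, ContextFreeRule.Rewrites.input_output⟩
            show _ ∈ (RS_finite (G := G) (a := a) (g1 := g1) (color := color)).toFinset
            rw [Set.Finite.mem_toFinset]
            refine ⟨hδ, r₀, hr₀, by rw [hi, hB], r.output, le_KB g1 hr, Or.inr ?_, ho1⟩
            exact ⟨r.input, rfl, hB, hr⟩
      | @expand m1 m2 r₀ _ v1 v2 hr₀ e1 e2 =>
        cases e2
        rw [List.append_nil] at hs
        subst hs
        obtain ⟨out, ho1, ho2⟩ := fact_complete (n1 := n1) (n2 := m1)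
          (fun Y δ w m1' m2' h1 h2 h3 h4 h5 => by
            rcases lt_or_eq_of_le h1 with h1 | rfl
            · exact ih1 m1' h1 m2' Y δ w h3 h4 h5
            · exact ih2 m2' (by omega) Y δ w h3 h4 h5)
          r₀.output δ w n1 m1 le_rfl le_rfl hδ h1 e1
        refine Relation.ReflTransGen.trans (Relation.ReflTransGen.single ?_) ho2
        refine ⟨(⟨(r₀.input, δ), out⟩ : ContextFreeRule T' (NTH G g1)), ?_,
          ContextFreeRule.Rewrites.input_output⟩
        show _ ∈ (RS_finite (G := G) (a := a) (g1 := g1) (color := color)).toFinset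
        rw [Set.Finite.mem_toFinset]
        exact ⟨hδ, r₀, hr₀, rfl, δ, hδ, Or.inl rfl, ho1⟩

theorem tgr_language [Finite T'] [Finite g1.NT] [Finite G.NT]
    (hinit : color g1.initial = G.initial)
    (hrule : ∀ r ∈ g1.rules, ∃ r₀ ∈ G.rules, r₀.input = color r.input ∧
      G.Derives r₀.output (r.output.map (shape G a g1 color))) :
    (tgr G a g1 color).language = g1.language := by
  ext w
  constructor
  · exact tgr_sound
  · intro h
    obtain ⟨n1, hn1⟩ := Der.of_derives h
    refine tgr_complete_aux hrule n1 0 G.initial [Symbol.nonterminal g1.initial] w ?_ hn1 ?_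
    · unfold KB; simp
    · have : List.map (shape G a g1 color) [Symbol.nonterminal g1.initial] =
          [Symbol.nonterminal G.initial] := by
        simp [shape, hinit]
      rw [this]
      exact Der.rfl' _

open Classical in
theorem tgr_strict [Finite T'] [Finite g1.NT] [Finite G.NT] :
    StrictInterp (tgr G a g1 color) G := by
  have := Fintype.ofFinite T'
  have := Fintype.ofFinite g1.NT
  have hB : {β : List (Symbol T' g1.NT) | β.length ≤ KB g1}.Finite :=
    List.finite_length_le _ _
  refine ⟨fun b => if b = a then Finset.univ else ∅,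
    fun X => hB.toFinset.map ⟨fun β => (X, β), fun _ _ h => (Prod.mk.inj h).2⟩, ?_, ?_, ?_, ?_⟩
  · intro b c hbc
    by_cases hb : b = a
    · by_cases hc : c = a
      · exact absurd (hb.trans hc.symm) hbc
      · simp [hc]
    · simp [hb]
  · intro A B hAB
    rw [Finset.disjoint_left]
    intro p hp1 hp2
    obtain ⟨β, _, rfl⟩ := Finset.mem_map.1 hp1
    obtain ⟨β', _, h⟩ := Finset.mem_map.1 hp2
    exact hAB (Prod.mk.inj h).1.symm
  · intro r hr
    have hr' : r ∈ RS G a g1 color := (Set.Finite.mem_toFinset _).1 hr
    obtain ⟨h1, r₀, hr₀, h2, β', hβ', hl, hf⟩ := hr'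
    refine ⟨r₀, hr₀, ?_, ?_⟩
    · refine Finset.mem_map.2 ⟨r.input.2, ?_, ?_⟩
      · rw [Set.Finite.mem_toFinset]; exact h1
      · exact Prod.ext h2 rfl
    · clear h2 h1 hr hr₀ hl
      generalize r.output = out at hf
      generalize r₀.output = γ at hf
      induction hf with
      | nil => exact List.Forall₂.nil
      | term x _ ih =>
        refine List.Forall₂.cons ?_ (ih (by simp at hβ'; omega))
        simp [Subst]
      | nonterm Y δ _ ih =>
        rw [List.length_append] at hβ'
        refine List.Forall₂.cons ?_ (ih (by omega))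
        refine Finset.mem_map.2 ⟨δ, ?_, rfl⟩
        rw [Set.Finite.mem_toFinset]
        show δ.length ≤ _
        omega
  · refine Finset.mem_map.2 ⟨[Symbol.nonterminal g1.initial], ?_, rfl⟩
    rw [Set.Finite.mem_toFinset]
    show List.length _ ≤ _
    unfold KB; simp

end template

end Pool.Agent.H86.GF
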